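import Pool.Agent.MP_3aea93_al.H75.Spec

/-! Maps that pass from the identity to an affine map. -/

set_option autoImplicit false

namespace Pool.Agent.MP_3aea93_al.H75

namespace Ext

/-- an increasing affine map -/
noncomputable def aff (l : ℝ) (hl : 0 < l) (c : ℝ) : ℝ ≃o ℝ :=
  (OrderIso.mulLeft₀ l hl).trans (OrderIso.addRight c)

theorem aff_app (l : ℝ) (hl : 0 < l) (c x : ℝ) : aff l hl c x = l * x + c := rfl

theorem exists_R (h : RowGlue) (C : Ctx) {p l : ℝ} (hp : p ∈ C.A) (hl : l ∈ C.L) :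
    ∃ k ∈ C.P, (∀ x, x ≤ p → k x = x) ∧ ∀ x, p ≤ x → k x = p + l * (x - p) := by
  have h1 : aff l (C.pos l hl) (p - l * p) ∈ C.P :=
    Ctx.mem_P_of_aff hl (C.A.sub_mem hp (C.A.mul_mem (C.sub l hl) hp)) fun _ => rfl
  obtain ⟨k, hk, h2, h3⟩ := h C 1 _ p C.P.one_mem h1 hp (by rw [aff_app, one_app]; ring)
  exact ⟨k, hk, h2, fun x hx => by rw [h3 x hx, aff_app]; ring⟩

/-- some map is the identity left of `p` and the translation by `c` right of `u` -/
def Tr (C : Ctx) (p u c : ℝ) : Prop :=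
  ∃ k ∈ C.P, (∀ x, x ≤ p → k x = x) ∧ ∀ x, u ≤ x → k x = x + c

theorem Tr.zero (C : Ctx) (p u : ℝ) : Tr C p u 0 :=
  ⟨1, C.P.one_mem, fun _ _ => rfl, fun x _ => by rw [one_app, add_zero]⟩

theorem Tr.comp {C : Ctx} {p u c c' : ℝ} (h : Tr C p u c) (h' : Tr C p (u + c) c') :
    Tr C p u (c + c') := by
  obtain ⟨k, hk, h1, h2⟩ := h
  obtain ⟨k', hk', h1', h2'⟩ := h'
  refine ⟨k' * k, C.P.mul_mem hk' hk, fun x hx => ?_, fun x hx => ?_⟩
  · rw [mul_app, h1 x hx, h1' x hx]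
  · rw [mul_app, h2 x hx, h2' _ (by linarith), add_assoc]

theorem Tr.inv {C : Ctx} {p u c : ℝ} (h : Tr C p u c) : Tr C p (u + c) (-c) := by
  obtain ⟨k, hk, h1, h2⟩ := h
  refine ⟨k⁻¹, C.P.inv_mem hk, fun x hx => inv_eq_of (h1 x hx), fun x hx => inv_eq_of ?_⟩
  rw [h2 _ (by linarith)]; ring

theorem Tr.mono {C : Ctx} {p u u' c : ℝ} (h : Tr C p u c) (hu : u ≤ u') : Tr C p u' c :=
  let ⟨k, hk, h1, h2⟩ := h; ⟨k, hk, h1, fun x hx => h2 x (hu.trans hx)⟩

theorem step (h : RowGlue) (C : Ctx) {p l e : ℝ} (hp : p ∈ C.A) (hl : l ∈ C.L) (he : e ∈ C.A)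
    (h0 : 0 < e) : Tr C p (p + e) ((l - 1) * e) := by
  have hl0 := C.pos l hl
  obtain ⟨k, hk, h1, h2⟩ := exists_R h C hp hl
  obtain ⟨k', hk', h1', h2'⟩ :=
    exists_R h C (C.A.add_mem hp (C.A.mul_mem (C.sub l hl) he)) (C.inv l hl)
  refine ⟨k' * k, C.P.mul_mem hk' hk, fun x hx => ?_, fun x hx => ?_⟩
  · rw [mul_app, h1 x hx, h1' x (by nlinarith)]
  · rw [mul_app, h2 x (by linarith), h2' _ (by nlinarith)]
    field_simp
    ring

theorem iter (h : RowGlue) (C : Ctx) {p l e : ℝ} (hp : p ∈ C.A) (hl : l ∈ C.L) (h1 : 1 ≤ l)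
    (he : e ∈ C.A) (h0 : 0 < e) (j : ℕ) : Tr C p (p + e) (j * ((l - 1) * e)) := by
  induction j with
  | zero => simpa using Tr.zero C p (p + e)
  | succ j ih =>
    have h2 : 0 ≤ (j : ℝ) * ((l - 1) * e) := by
      have : 0 ≤ l - 1 := by linarith
      positivity
    have h3 := ih.comp ((step h C hp hl he h0).mono (by linarith))
    push_cast
    rwa [add_mul, one_mul]

/-- the admissible translation lengths -/
def Good (C : Ctx) (p : ℝ) : AddSubgroup ℝ where
  carrier := {c | ∀ u, p < u → p < u + c → Tr C p u c}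
  zero_mem' := fun u _ _ => Tr.zero C p u
  add_mem' := fun {c c'} hc hc' u h1 h2 => by
    by_cases h3 : p < u + c
    · exact (hc u h1 h3).comp (hc' _ h3 (by linarith))
    · have h4 : p < u + c' := by linarith
      rw [add_comm c c']
      exact (hc' u h1 h4).comp (hc _ h4 (by linarith))
  neg_mem' := fun {c} hc u h1 h2 => by
    have h3 := (hc (u + -c) h2 (by linarith)).inv
    rwa [show u + -c + c = u by ring] at h3

theorem good_pos (h : RowGlue) (C : Ctx) {p l c : ℝ} (hp : p ∈ C.A) (hl : l ∈ C.L) (h1 : 1 ≤ l)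
    (hc : c ∈ C.A) (h0 : 0 < c) : (l - 1) * c ∈ Good C p := by
  intro u hu _
  obtain ⟨e, he, h2, h3, i, -, hi, -⟩ := C.cyc c hc c hc (u - p) (by linarith)
  have h4 : (0 : ℝ) < i := by
    by_contra h5
    have : (i : ℝ) * e ≤ 0 := mul_nonpos_of_nonpos_of_nonneg (not_lt.1 h5) h2.le
    linarith
  have h5 : (0 : ℤ) ≤ i := by exact_mod_cast h4.le
  obtain ⟨j, rfl⟩ := Int.eq_ofNat_of_zero_le h5
  have h6 := (iter h C hp hl h1 he h2 j).mono (u' := u) (by linarith)
  rw [hi]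
  push_cast
  rwa [show (l - 1) * ((j : ℝ) * e) = j * ((l - 1) * e) by ring]

theorem good_mul (h : RowGlue) (C : Ctx) {p l c : ℝ} (hp : p ∈ C.A) (hl : l ∈ C.L) (h1 : 1 ≤ l)
    (hc : c ∈ C.A) : (l - 1) * c ∈ Good C p := by
  rcases lt_trichotomy c 0 with h0 | h0 | h0
  · have h2 := (Good C p).neg_mem (good_pos h C hp hl h1 (C.A.neg_mem hc) (by linarith))
    rwa [show -((l - 1) * -c) = (l - 1) * c by ring] at h2
  · rw [h0, mul_zero]; exact (Good C p).zero_mem
  · exact good_pos h C hp hl h1 hc h0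

/-- the integers whose multiples of the ring are admissible -/
def Idl (C : Ctx) (p : ℝ) : AddSubgroup ℤ where
  carrier := {z | ∀ c ∈ C.A, (z : ℝ) * c ∈ Good C p}
  zero_mem' := fun c _ => by simp
  add_mem' := fun {a b} ha hb c hc => by
    push_cast
    rw [add_mul]
    exact (Good C p).add_mem (ha c hc) (hb c hc)
  neg_mem' := fun {a} ha c hc => by
    push_cast
    rw [neg_mul]
    exact (Good C p).neg_mem (ha c hc)

theorem good (h : RowGlue) (C : Ctx) {p c : ℝ} (hp : p ∈ C.A) (hc : c ∈ C.A) :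
    c ∈ Good C p := by
  obtain ⟨a, ha⟩ := Int.subgroup_cyclic (Idl C p)
  have h1 : a.natAbs = 1 := by
    refine C.gcd _ fun n h2 h3 => ?_
    have h4 : ((n - 1 : ℕ) : ℤ) ∈ Idl C p := by
      intro c hc
      have h5 : (2 : ℝ) ≤ n := by exact_mod_cast h2
      have h6 := good_mul h C hp h3 (by linarith) hc
      have h7 : (((n - 1 : ℕ) : ℤ) : ℝ) = n - 1 := by
        rw [Int.cast_natCast, Nat.cast_sub (by omega), Nat.cast_one]
      rwa [h7]
    rw [ha, AddSubgroup.mem_closure_singleton] at h4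
    obtain ⟨m, hm⟩ := h4
    rw [← Int.natCast_dvd_natCast, Int.natAbs_dvd, ← hm, smul_eq_mul]
    exact Dvd.intro_left m rfl
  have h2 : a ∈ Idl C p := by
    rw [ha]; exact AddSubgroup.subset_closure rfl
  have h3 : (1 : ℤ) ∈ Idl C p := by
    rcases Int.natAbs_eq_iff.1 h1 with h4 | h4
    · rw [h4] at h2; exact h2
    · rw [h4] at h2
      simpa using (Idl C p).neg_mem h2
  simpa using h3 c hc

end Ext

theorem rowE (h : RowGlue) : RowE := by
  intro C p q l c hp hq hl hc h1 h2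
  have h3 : l * q + c ∈ C.A := C.A.add_mem (C.A.mul_mem (C.sub l hl) hq) hc
  obtain ⟨k, hk, h4, h5⟩ := Ext.good h C hp (C.A.sub_mem h3 hq) q h1 (by linarith)
  obtain ⟨k', hk', h4', h5'⟩ := Ext.exists_R h C h3 hl
  refine ⟨k' * k, C.P.mul_mem hk' hk, fun x hx => ?_, fun x hx => ?_⟩
  · rw [mul_app, h4 x hx, h4' x (by linarith)]
  · rw [mul_app, h5 x hx, h5' _ (by linarith)]
    ring

theorem rowExt (h : RowE) : RowExt := by
  intro C p a b q l c hp ha hb hq hl hc h1 h2 h3 h4 h5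
  have hl0 := C.pos l hl
  have h6 : l * b + c ∈ C.A := C.A.add_mem (C.A.mul_mem (C.sub l hl) hb) hc
  have h7 : l * a ≤ l * b := mul_le_mul_of_nonneg_left h2 hl0.le
  have h8 : l * b < l * q := mul_lt_mul_of_pos_left h3 hl0
  obtain ⟨k, hk, h9, h10⟩ := h C p a l c hp ha hl hc h1 h4
  obtain ⟨k', hk', h9', h10'⟩ := h C (l * b + c) q l c h6 hq hl hc h5 (by linarith)
  refine ⟨k'⁻¹ * k, C.P.mul_mem (C.P.inv_mem hk') hk, fun x hx => ?_, fun x hx hx' => ?_⟩
  · rcases hx with hx | hx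
    · rw [mul_app, h9 x hx]
      exact inv_eq_of (h9' x (by linarith))
    · rw [mul_app, h10 x (by linarith)]
      exact inv_eq_of (h10' x hx)
  · have h11 : l * x ≤ l * b := mul_le_mul_of_nonneg_left hx' hl0.le
    rw [mul_app, h10 x hx]
    exact inv_eq_of (h9' _ (by linarith))

end Pool.Agent.MP_3aea93_al.H75
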