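import Pool.Agent.MP_3aea93_al.H75.Spec

/-! Fragmentation and commuting conjugates. -/

set_option autoImplicit false

namespace Pool.Agent.MP_3aea93_al.H75

open Filter Topology Set

namespace Frag

theorem fix_int {f : ℝ ≃o ℝ} (hf : f ∈ Per) {x : ℝ} (n : ℤ) (h : f (x + n) = x + n) :
    f x = x := by
  have h1 := add_int (f := f) hf x n
  rw [h1] at h
  linarith

theorem Gx_int {C : Ctx} {g : ℝ ≃o ℝ} {x : ℝ} (hg : g ∈ C.Gx x) (k : ℤ) : g ∈ C.Gx (x + k) := by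
  refine ⟨hg.1, ?_⟩
  have h1 : Tendsto (fun z : ℝ => z + ((-k : ℤ) : ℝ)) (𝓝 (x + k)) (𝓝 x) := by
    have h2 : Tendsto (fun z : ℝ => z + ((-k : ℤ) : ℝ)) (𝓝 (x + k))
        (𝓝 (x + k + ((-k : ℤ) : ℝ))) := (continuous_add_const _).tendsto _
    rwa [show x + k + ((-k : ℤ) : ℝ) = x by push_cast; ring] at h2
  have h3 : ∀ᶠ z in 𝓝 x, g z = z := hg.2
  exact (h1.eventually h3).mono fun z hz => fix_int hg.1.2 (-k) hz

theorem Gx_ball {C : Ctx} {g : ℝ ≃o ℝ} {c : ℝ} (hg : g ∈ C.Gx c) :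
    ∃ ε : ℝ, 0 < ε ∧ ∀ z, |z - c| < ε → g ∈ C.Gx z := by
  have h1 : ∀ᶠ z in 𝓝 c, g z = z := hg.2
  obtain ⟨ε, h2, h3⟩ := Metric.eventually_nhds_iff.1 h1.eventually_nhds
  exact ⟨ε, h2, fun z hz => ⟨hg.1, h3 (by rwa [Real.dist_eq])⟩⟩

theorem Gx_of_Icc {C : Ctx} {g : ℝ ≃o ℝ} {u v c : ℝ} (hg : g ∈ C.G)
    (h : ∀ x, u ≤ x → x ≤ v → g x = x) (h1 : u < c) (h2 : c < v) : g ∈ C.Gx c :=
  ⟨hg, mem_of_superset (Icc_mem_nhds h1 h2) fun z hz => h z hz.1 hz.2⟩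

theorem commute_of_fix {f g : ℝ ≃o ℝ} (h : ∀ x, f x = x ∨ g x = x) : Commute f g := by
  refine OrderIso.ext (funext fun x => ?_)
  show f (g x) = g (f x)
  by_cases h1 : f x = x
  · by_cases h2 : g x = x
    · rw [h2, h1, h2]
    · rw [h1]
      exact (h (g x)).resolve_right fun h3 => h2 (g.injective h3)
  · have h2 : g x = x := (h x).resolve_left h1
    rw [h2]
    exact ((h (f x)).resolve_left fun h3 => h1 (f.injective h3)).symm

theorem tr_add (a b : ℝ) : tr (a + b) = tr a * tr b :=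
  OrderIso.ext (funext fun x => by
    show tr (a + b) x = tr a (tr b x)
    rw [tr_app, tr_app, tr_app]; ring)

theorem tr_int {S : Subgroup (ℝ ≃o ℝ)} (h : tr 1 ∈ S) (n : ℤ) : tr n ∈ S := by
  induction n using Int.induction_on with
  | zero =>
    have h0 : tr ((0 : ℤ) : ℝ) = 1 := OrderIso.ext (funext fun x => by
      show tr ((0 : ℤ) : ℝ) x = x
      rw [tr_app]; simp)
    rw [h0]; exact S.one_mem
  | succ i ih =>
    push_cast at ih ⊢
    rw [tr_add]; exact S.mul_mem ih h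
  | pred i ih =>
    push_cast at ih ⊢
    have h1 : tr (-(i : ℝ)) = tr (-(i : ℝ) - 1) * tr 1 := by rw [← tr_add]; congr 1; ring
    rw [h1] at ih
    exact (S.mul_mem_cancel_right h).1 ih

theorem exists_shift (x y : ℝ) : ∃ n : ℤ, y ≤ x + n ∧ x + n < y + 1 :=
  ⟨⌈y - x⌉, by linarith [Int.le_ceil (y - x)], by linarith [Int.ceil_lt_add_one (y - x)]⟩

end Frag

open Frag

theorem extG (h1 : RowExt) (h2 : RowPer) (C : Ctx) (p a b q l c : ℝ) (hp : p ∈ C.A)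
    (ha : a ∈ C.A) (hb : b ∈ C.A) (hq : q ∈ C.A) (hl : l ∈ C.L) (hc : c ∈ C.A) (hpa : p < a)
    (hab : a ≤ b) (hbq : b < q) (h3 : p < l * a + c) (h4 : l * b + c < q) (hqp : q ≤ p + 1) :
    ∃ g ∈ C.G, (∀ x, a ≤ x → x ≤ b → g x = l * x + c) ∧ ∀ x, q ≤ x → x ≤ p + 1 → g x = x := by
  obtain ⟨k, hk, k1, k2⟩ := h1 C p a b q l c hp ha hb hq hl hc hpa hab hbq h3 h4
  obtain ⟨g, hg, g1⟩ := h2 C k p hk hp (by rw [k1 p (Or.inl le_rfl), k1 (p + 1) (Or.inr hqp)])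
  refine ⟨g, hg, fun x x1 x2 => ?_, fun x x1 x2 => ?_⟩
  · rw [g1 x (by linarith) (by linarith), k2 x x1 x2]
  · rw [g1 x (by linarith) x2, k1 x (Or.inr x1)]

theorem rowCC (h1 : RowExt) (h2 : RowPer) : RowCC := by
  intro C a ha b hb
  have e1 : ∀ᶠ z in 𝓝 (0 : ℝ), a z = z := ha.2
  have e2 : ∀ᶠ z in 𝓝 (0 : ℝ), b z = z := hb.2
  obtain ⟨ε, ε0, hε⟩ := Metric.eventually_nhds_iff.1 (e1.and e2)
  obtain ⟨p, hp, p0, p1⟩ := C.dense (lt_min ε0 (by norm_num : (0 : ℝ) < 1 / 2))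
  obtain ⟨q, hq, q0, q1⟩ := C.dense
    (max_lt (by linarith : 1 - ε < 1) (by norm_num : (1 / 2 : ℝ) < 1))
  have p2 := (lt_min_iff.1 p1).1
  have p3 := (lt_min_iff.1 p1).2
  have q2 := (max_lt_iff.1 q0).1
  have q3 := (max_lt_iff.1 q0).2
  obtain ⟨c, hc, c0, c1⟩ := C.dense q1
  obtain ⟨l, hl, l1⟩ := C.exists_small (by linarith : 0 < 1 - c)
  have l0 := C.pos l hl
  have l2 : l * q + c < 1 := by nlinarith
  have l3 : 0 < l * p := mul_pos l0 p0
  have l4 : 0 < l * q := mul_pos l0 (by linarith)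
  obtain ⟨q', hq', q'0, q'1⟩ := C.dense l2
  obtain ⟨p', hp', p'0, p'1⟩ := C.dense p0
  obtain ⟨t, ht, t1, t2⟩ := extG h1 h2 C p' p q q' l c hp' hp hq hq' hl hc p'1 (by linarith)
    (by linarith) (by linarith) q'0 (by linarith)
  have ht0 : t ∈ C.Gx 0 := by
    have h := Gx_int (Gx_of_Icc (c := 1) ht t2 q'1 (by linarith)) (-1)
    simpa using h
  have key : ∀ f g : ℝ ≃o ℝ, f ∈ Per → g ∈ Per → (∀ z, dist z 0 < ε → f z = z) →
      (∀ z, dist z 0 < ε → g z = z) → Commute f (t * g * t⁻¹) := by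
    intro f g hf hg f1 g1
    have fx : ∀ u : ℝ ≃o ℝ, u ∈ Per → (∀ z, dist z 0 < ε → u z = z) →
        ∀ z, q ≤ z → z ≤ p + 1 → u z = z := by
      intro u hu u1 z z1 z2
      have h := u1 (z - 1) (by rw [Real.dist_eq, abs_lt]; constructor <;> linarith)
      have h' := hu (z - 1)
      rw [h, sub_add_cancel] at h'
      exact h'
    refine commute_of_fix fun x => ?_
    obtain ⟨n, n1, n2⟩ := exists_shift (t⁻¹ x) p
    rcases le_total q (t⁻¹ x + n) with h | h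
    · right
      rw [mul_app, mul_app, fix_int hg n (fx g hg g1 _ h n2.le), apply_inv]
    · left
      have h3 := t1 _ n1 h
      rw [add_int (f := t) ht.2, apply_inv] at h3
      have h4 : l * p ≤ l * (t⁻¹ x + n) := mul_le_mul_of_nonneg_left n1 l0.le
      have h5 : l * (t⁻¹ x + n) ≤ l * q := mul_le_mul_of_nonneg_left h l0.le
      exact fix_int hf n (fx f hf f1 _ (by linarith) (by linarith))
  have a1 : ∀ z, dist z 0 < ε → a z = z := fun z hz => (hε hz).1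
  have b1 : ∀ z, dist z 0 < ε → b z = z := fun z hz => (hε hz).2
  exact ⟨t, ht0, key a a ha.1.2 ha.1.2 a1 a1, key a b ha.1.2 hb.1.2 a1 b1,
    key b a hb.1.2 ha.1.2 b1 a1, key b b hb.1.2 hb.1.2 b1 b1⟩

theorem rowGen (h1 : RowExt) (h2 : RowPer) : RowGen := by
  intro C S hS hG g hg
  obtain ⟨l, hl, c, hc, e⟩ := (hg.1 0).1
  have l0 := C.pos l hl
  obtain ⟨e', e0, he⟩ := (nhdsGE_basis_Icc (a := (0 : ℝ))).eventually_iff.1 e
  obtain ⟨n, n1, n2⟩ := exists_shift c 0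
  obtain ⟨q, hq, q0, q1⟩ := C.dense n2
  have m0 : 0 < min (min e' q) ((q - (c + n)) / l) :=
    lt_min (lt_min e0 (by linarith)) (div_pos (by linarith) l0)
  obtain ⟨b, hb, b0, b1⟩ := C.dense m0
  have b2 := (lt_min_iff.1 (lt_min_iff.1 b1).1).1
  have b3 := (lt_min_iff.1 (lt_min_iff.1 b1).1).2
  have b4 := (lt_div_iff₀ l0).1 (lt_min_iff.1 b1).2
  obtain ⟨p, hp, p0, p1⟩ := C.dense (by linarith : q - 1 < 0)
  have hcn : c + n ∈ C.A := C.A.add_mem hc (intCast_mem _ _)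
  obtain ⟨k, hk, k1, k2⟩ := extG h1 h2 C p 0 b q l (c + n) hp C.A.zero_mem hb hq hl hcn p1 b0.le
    b3 (by linarith) (by linarith) (by linarith)
  obtain ⟨u, hu, u0, u1⟩ := C.dense (by linarith : q < p + 1)
  obtain ⟨v, hv, v0, v1⟩ := C.dense b0
  have s1 : k ∈ S := hG u hu (Gx_of_Icc hk k2 u0 u1)
  have s2 : k⁻¹ * (tr n * g) ∈ S := by
    refine hG v hv (Gx_of_Icc (C.G.mul_mem (C.G.inv_mem hk)
      (C.G.mul_mem (Ctx.tr_mem_G (intCast_mem _ _)) hg)) (fun x x1 x2 => ?_) v0 v1)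
    rw [mul_app, mul_app, tr_app]
    refine inv_eq_of ?_
    rw [k1 x x1 x2, he ⟨x1, by linarith⟩]; ring
  exact (S.mul_mem_cancel_left (tr_int hS n)).1 ((S.mul_mem_cancel_left (S.inv_mem s1)).1 s2)

theorem rowTwo (h1 : RowExt) (h2 : RowPer) (h3 : RowGen) : RowTwo := by
  intro C S x y hxy hS hx hy
  refine h3 C S hS fun c _ g hg => ?_
  obtain ⟨n, n1, n2⟩ := exists_shift c y
  rcases n1.eq_or_lt with h | n0
  · exact hy (h ▸ Gx_int hg n)
  obtain ⟨m, m1, m2⟩ := exists_shift x y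
  have m0 : y < x + m := lt_of_le_of_ne m1 (hxy m)
  obtain ⟨ε, ε0, hε⟩ := Gx_ball (Gx_int hg n)
  obtain ⟨d, hd, d0, d1⟩ := C.dense
    (show c + n - (x + m) < min (c + n + ε) (y + 1) - (x + m) by
      have := lt_min (by linarith : c + n < c + n + ε) n2
      linarith)
  have d2 : x + m + d < c + n + ε := by linarith [min_le_left (c + n + ε) (y + 1)]
  have d3 : x + m + d < y + 1 := by linarith [min_le_right (c + n + ε) (y + 1)]
  obtain ⟨a, ha, a0, a1⟩ := C.dense (max_lt m0 (by linarith : y - d < x + m))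
  obtain ⟨b, hb, b0, b1⟩ := C.dense (lt_min m2 (by linarith : x + m < y + 1 - d))
  have a2 := (max_lt_iff.1 a0).1
  have a3 := (max_lt_iff.1 a0).2
  have b2 := (lt_min_iff.1 b1).1
  have b3 := (lt_min_iff.1 b1).2
  obtain ⟨p, hp, p0, p1⟩ := C.dense (lt_min a2 (by linarith : y < a + d))
  obtain ⟨q, hq, q0, q1⟩ := C.dense (max_lt b2 (by linarith : b + d < y + 1))
  have p2 := (lt_min_iff.1 p1).1
  have p3 := (lt_min_iff.1 p1).2
  have q2 := (max_lt_iff.1 q0).1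
  have q3 := (max_lt_iff.1 q0).2
  obtain ⟨k, hk, k1, k2⟩ := extG h1 h2 C p a b q 1 d hp ha hb hq C.L.one_mem hd p2 (by linarith)
    q2 (by linarith) (by linarith) (by linarith)
  have s1 : k ∈ S := by
    have h := Gx_int (Gx_of_Icc (c := y + 1) hk k2 q1 (by linarith)) (-1)
    exact hy (by simpa using h)
  have g1 : g ∈ C.Gx (k (x + m)) := by
    rw [k1 _ a1.le b0.le]
    exact hε _ (by rw [abs_lt]; constructor <;> linarith)
  have s2 : k⁻¹ * g * k ∈ C.Gx (x + m) := by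
    refine ⟨C.G.mul_mem (C.G.mul_mem (C.G.inv_mem hk) hg.1) hk, ?_⟩
    have e : ∀ᶠ z in 𝓝 (k (x + m)), g z = z := g1.2
    refine ((k.continuous.tendsto (x + m)).eventually e).mono fun z hz => ?_
    rw [mul_app, mul_app, hz, inv_apply]
  have s3 : k⁻¹ * g * k ∈ S := by
    have h := Gx_int s2 (-m)
    exact hx (by simpa using h)
  exact (S.mul_mem_cancel_left (S.inv_mem s1)).1 ((S.mul_mem_cancel_right s1).1 s3)

end Pool.Agent.MP_3aea93_al.H75
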