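import Pool.Agent.MP_3aea93_al.H75.Spec

/-! Perfectness of the groups supported in the unit interval. -/

set_option autoImplicit false

namespace Pool.Agent.MP_3aea93_al.H75

open Filter Topology Set

namespace G0

/-- the affine map with positive slope -/
noncomputable def aff (l c : ℝ) (hl : 0 < l) : ℝ ≃o ℝ :=
  (OrderIso.mulLeft₀ l hl).trans (OrderIso.addRight c)

theorem aff_app (l c : ℝ) (hl : 0 < l) (x : ℝ) : aff l c hl x = l * x + c := rfl

/-- support in a symmetric interval -/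
def S (C : Ctx) (K : ℝ) : Subgroup (ℝ ≃o ℝ) := C.P ⊓ Fix {x | x ≤ -K ∨ K ≤ x}

theorem S_mono (C : Ctx) {K K' : ℝ} (h : K ≤ K') : S C K ≤ S C K' := fun _ hf =>
  ⟨hf.1, fun x hx => hf.2 x (by
    rcases hx with hx | hx
    · exact Or.inl (by linarith)
    · exact Or.inr (by linarith))⟩

theorem exists_K (C : Ctx) {g : ℝ ≃o ℝ} (hg : g ∈ ⁅C.Pc, C.Pc⁆) :
    ∃ K : ℝ, 1 ≤ K ∧ g ∈ ⁅S C K, S C K⁆ := by
  rw [Subgroup.commutator_def] at hg
  induction hg using Subgroup.closure_induction with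
  | mem x hx =>
    obtain ⟨a, ha, b, hb, rfl⟩ := hx
    obtain ⟨K, hK⟩ := mem_Germ_ends.1 ha.2
    obtain ⟨K', hK'⟩ := mem_Germ_ends.1 hb.2
    refine ⟨max 1 (max K K'), le_max_left _ _, Subgroup.commutator_mem_commutator ?_ ?_⟩
    · exact S_mono C ((le_max_left K K').trans (le_max_right _ _)) ⟨ha.1, hK⟩
    · exact S_mono C ((le_max_right K K').trans (le_max_right _ _)) ⟨hb.1, hK'⟩
  | one => exact ⟨1, le_rfl, Subgroup.one_mem _⟩
  | mul x y _ _ hx hy =>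
    obtain ⟨K, h1, hK⟩ := hx
    obtain ⟨K', -, hK'⟩ := hy
    refine ⟨max K K', h1.trans (le_max_left _ _), Subgroup.mul_mem _ ?_ ?_⟩
    · exact Subgroup.commutator_mono (S_mono C (le_max_left _ _)) (S_mono C (le_max_left _ _)) hK
    · exact Subgroup.commutator_mono (S_mono C (le_max_right _ _)) (S_mono C (le_max_right _ _)) hK'
  | inv x _ hx =>
    obtain ⟨K, h1, hK⟩ := hx
    exact ⟨K, h1, Subgroup.inv_mem _ hK⟩

theorem exists_squeeze (h1 : RowGlue) (C : Ctx) {p q K : ℝ} (hp : p ∈ C.A) (hq : q ∈ C.A)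
    (h0 : 0 < p) (hpq : p ≤ q) (hq1 : q < 1) (hK : 1 ≤ K) :
    ∃ k ∈ C.P, (∀ x, p ≤ x → x ≤ q → k x = x) ∧ 0 < k (-K) ∧ k K < 1 := by
  have hK1 : 0 < K + 1 := by linarith
  obtain ⟨l, hl, hlt⟩ := C.exists_small (ε := min p (1 - q) / (K + 1))
    (div_pos (lt_min h0 (by linarith)) hK1)
  have hl0 := C.pos l hl
  have hlA := C.sub l hl
  rw [lt_div_iff₀ hK1] at hlt
  have m1 := min_le_left p (1 - q)
  have m2 := min_le_right p (1 - q)
  have a1 : aff l (p - l * p) hl0 ∈ C.P :=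
    Ctx.mem_P_of_aff hl (C.A.sub_mem hp (C.A.mul_mem hlA hp)) fun y => aff_app _ _ _ y
  have a2 : aff l (q - l * q) hl0 ∈ C.P :=
    Ctx.mem_P_of_aff hl (C.A.sub_mem hq (C.A.mul_mem hlA hq)) fun y => aff_app _ _ _ y
  obtain ⟨k1, hk1, e1, e2⟩ := h1 C _ 1 p a1 C.P.one_mem hp (by rw [aff_app, one_app]; ring)
  obtain ⟨k, hk, e3, e4⟩ := h1 C k1 _ q hk1 a2 hq (by rw [e2 q hpq, aff_app, one_app]; ring)
  refine ⟨k, hk, fun x hx hx' => by rw [e3 x hx', e2 x hx, one_app], ?_, ?_⟩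
  · rw [e3 _ (by linarith), e1 _ (by linarith), aff_app]
    nlinarith
  · rw [e4 _ (by linarith), aff_app]
    nlinarith

/-- agreement on the unit interval -/
def Ag (g h : ℝ ≃o ℝ) : Prop := g 0 = 0 ∧ g 1 = 1 ∧ ∀ x, 0 ≤ x → x ≤ 1 → g x = h x

theorem Ag.mul {g h g' h' : ℝ ≃o ℝ} (a : Ag g h) (b : Ag g' h') : Ag (g * g') (h * h') := by
  refine ⟨by rw [mul_app, b.1, a.1], by rw [mul_app, b.2.1, a.2.1], fun x h0 h1 => ?_⟩
  rw [mul_app, mul_app, ← b.2.2 x h0 h1]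
  refine a.2.2 _ ?_ ?_
  · rw [← b.1]; exact g'.monotone h0
  · rw [← b.2.1]; exact g'.monotone h1

theorem Ag.inv {g h : ℝ ≃o ℝ} (a : Ag g h) : Ag g⁻¹ h⁻¹ := by
  have i0 : g⁻¹ 0 = 0 := inv_eq_of a.1
  have i1 : g⁻¹ 1 = 1 := inv_eq_of a.2.1
  refine ⟨i0, i1, fun x h0 h1 => (inv_eq_of ?_).symm⟩
  rw [← a.2.2, apply_inv]
  · rw [← i0]; exact (g⁻¹).monotone h0
  · rw [← i1]; exact (g⁻¹).monotone h1

theorem per_ext {f g : ℝ ≃o ℝ} (hf : f ∈ Per) (hg : g ∈ Per)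
    (h : ∀ x, 0 ≤ x → x ≤ 1 → f x = g x) : f = g := by
  ext x
  have e : x = Int.fract x + (⌊x⌋ : ℤ) := (Int.fract_add_floor x).symm
  rw [e, add_int hf, add_int hg, h _ (Int.fract_nonneg x) (Int.fract_lt_one x).le]

theorem exists_per (h2 : RowPer) (C : Ctx) {h : ℝ ≃o ℝ} (hh : h ∈ C.H0) :
    ∃ g ∈ C.Gx 0, Ag g h := by
  obtain ⟨hP, p, q, hp, hq, hs⟩ := hh
  have z0 : h 0 = 0 := hs 0 (Or.inl hp.le)
  have z1 : h 1 = 1 := hs 1 (Or.inr hq.le)
  obtain ⟨g, hg, e⟩ := h2 C h 0 hP C.A.zero_mem (by rw [zero_add, z0, z1, zero_add])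
  rw [zero_add] at e
  refine ⟨g, ⟨hg, ?_⟩, by rw [e 0 le_rfl zero_le_one, z0], by rw [e 1 zero_le_one le_rfl, z1], e⟩
  have hm : max (q - 1) (-1) < 0 := max_lt (by linarith) (by norm_num)
  have hn : 0 < min p 1 := lt_min hp one_pos
  refine mem_Germ.2 ?_
  filter_upwards [Ioo_mem_nhds hm hn] with x hx
  have x1 := (le_max_left _ _).trans hx.1.le
  have x2 := (le_max_right _ _).trans hx.1.le
  have x3 := hx.2.le.trans (min_le_left _ _)
  have x4 := hx.2.le.trans (min_le_right _ _)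
  rcases le_total 0 x with h0 | h0
  · rw [e x h0 x4, hs x (Or.inl x3)]
  · have e1 : g (x + 1) = g x + 1 := hg.2 x
    rw [e _ (by linarith) (by linarith), hs _ (Or.inr (by linarith))] at e1
    linarith

theorem exists_cut (h1 : RowGlue) (C : Ctx) {f : ℝ ≃o ℝ} (hf : f ∈ C.Gx 0) :
    ∃ h ∈ C.H0, Ag f h := by
  obtain ⟨⟨hP, hper⟩, hG⟩ := hf
  have hG' : ∀ᶠ x in 𝓝 (0 : ℝ), f x = x := hG
  have z0 : f 0 = 0 := hG'.self_of_nhds
  have z1 : f 1 = 1 := by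
    have e : f (0 + 1) = f 0 + 1 := hper 0
    rwa [z0, zero_add] at e
  obtain ⟨ε, hε, hb⟩ := Metric.eventually_nhds_iff.1 hG'
  obtain ⟨k, hk, e1, e2⟩ := h1 C 1 f 0 C.P.one_mem hP C.A.zero_mem (by rw [one_app, z0])
  obtain ⟨h, hh, e3, e4⟩ := h1 C k 1 1 hk C.P.one_mem C.A.one_mem
    (by rw [e2 1 zero_le_one, z1, one_app])
  have m1 := min_le_left (ε / 2) (1 / 2)
  have m2 := min_le_right (ε / 2) (1 / 2)
  have m0 : 0 < min (ε / 2) (1 / 2) := lt_min (by linarith) (by norm_num)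
  refine ⟨h, ⟨hh, min (ε / 2) (1 / 2), 1 - min (ε / 2) (1 / 2), m0, by linarith, fun x hx => ?_⟩,
    z0, z1, fun x h0 h1 => by rw [e3 x h1, e2 x h0]⟩
  rcases hx with hx | hx
  · rw [e3 x (by linarith)]
    rcases le_total x 0 with h0 | h0
    · rw [e1 x h0, one_app]
    · rw [e2 x h0]
      refine hb ?_
      rw [Real.dist_eq, sub_zero, abs_of_nonneg h0]; linarith
  · rcases le_total 1 x with h0 | h0
    · rw [e4 x h0, one_app]
    · rw [e3 x h0, e2 x (by linarith)]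
      have e : f (x - 1 + 1) = f (x - 1) + 1 := hper (x - 1)
      have e' : f (x - 1) = x - 1 := hb (by
        rw [Real.dist_eq, sub_zero, abs_of_nonpos (by linarith)]; linarith)
      rw [sub_add_cancel, e'] at e
      linarith

/-- the maps that agree on the unit interval with an element of a subgroup -/
def W (U : Subgroup (ℝ ≃o ℝ)) : Subgroup (ℝ ≃o ℝ) where
  carrier := {h | ∃ g ∈ U, Ag g h}
  one_mem' := ⟨1, U.one_mem, rfl, rfl, fun _ _ _ => rfl⟩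
  mul_mem' := fun ⟨g, hg, a⟩ ⟨g', hg', b⟩ => ⟨g * g', U.mul_mem hg hg', a.mul b⟩
  inv_mem' := fun ⟨g, hg, a⟩ => ⟨g⁻¹, U.inv_mem hg, a.inv⟩

end G0

open G0

theorem rowH0 (h1 : RowGlue) (h2 : RowPc) : RowH0 := by
  intro C f hf
  obtain ⟨hP, p0, q0, hp0, hq0, hs⟩ := hf
  obtain ⟨p, hp, p1, p2⟩ := C.dense (lt_min hp0 (by norm_num : (0 : ℝ) < 1 / 2))
  obtain ⟨q, hq, q1, q2⟩ := C.dense (max_lt hq0 (by norm_num : (1 / 2 : ℝ) < 1))
  have p3 := p2.le.trans (min_le_left _ _)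
  have p4 := p2.le.trans (min_le_right _ _)
  have q3 := (le_max_left _ _).trans q1.le
  have q4 := (le_max_right _ _).trans q1.le
  have hpq : p ≤ q := p4.trans q4
  have hs' : ∀ x, x ≤ p ∨ q ≤ x → f x = x := fun x hx =>
    hs x (hx.imp (fun h => h.trans p3) q3.trans)
  have hPc : f ∈ C.Pc := ⟨hP, mem_Germ_ends.2 ⟨1, fun x hx => hs' x (by
    rcases hx with hx | hx
    · exact Or.inl (by linarith)
    · exact Or.inr (by linarith))⟩⟩
  obtain ⟨K, hK, hc⟩ := exists_K C (h2 C hPc)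
  obtain ⟨k, hk, e, k0, k1⟩ := exists_squeeze h1 C hp hq p1 hpq q2 hK
  have kp : k p = p := e p le_rfl hpq
  have kq : k q = q := e q hpq le_rfl
  have hcomm : k * f = f * k := by
    ext x
    rw [mul_app, mul_app]
    rcases le_total x p with h | h
    · rw [hs' x (Or.inl h), hs' (k x) (Or.inl (by rw [← kp]; exact k.monotone h))]
    · rcases le_total q x with h' | h'
      · rw [hs' x (Or.inr h'), hs' (k x) (Or.inr (by rw [← kq]; exact k.monotone h'))]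
      · rw [e x h h', e (f x)]
        · rw [← hs' p (Or.inl le_rfl)]; exact f.monotone h
        · rw [← hs' q (Or.inr le_rfl)]; exact f.monotone h'
  have hle : (S C K).map (MulAut.conj k).toMonoidHom ≤ C.H0 := by
    rintro _ ⟨s, hs, rfl⟩
    refine ⟨C.P.mul_mem (C.P.mul_mem hk hs.1) (C.P.inv_mem hk), k (-K), k K, k0, k1,
      fun x hx => ?_⟩
    have hx' : s (k⁻¹ x) = k⁻¹ x := hs.2 _ (by
      rcases hx with hx | hx
      · exact Or.inl (by rw [← inv_apply k (-K)]; exact (k⁻¹).monotone hx)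
      · exact Or.inr (by rw [← inv_apply k K]; exact (k⁻¹).monotone hx))
    change k (s (k⁻¹ x)) = x
    rw [hx', apply_inv]
  have hm : (MulAut.conj k).toMonoidHom f ∈ (⁅S C K, S C K⁆ : Subgroup (ℝ ≃o ℝ)).map
      (MulAut.conj k).toMonoidHom := Subgroup.mem_map_of_mem _ hc
  rw [Subgroup.map_commutator] at hm
  have hf' : (MulAut.conj k).toMonoidHom f = f := by
    change k * f * k⁻¹ = f
    rw [hcomm, mul_inv_cancel_right]
  rw [hf'] at hm
  exact Subgroup.commutator_mono hle hle hm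

theorem rowG0 (h1 : RowGlue) (h2 : RowPer) (h3 : RowH0) : RowG0 := by
  intro C f hf
  obtain ⟨h, hh, a⟩ := exists_cut h1 C hf
  have hW : (⁅C.H0, C.H0⁆ : Subgroup (ℝ ≃o ℝ)) ≤ W ⁅C.Gx 0, C.Gx 0⁆ := by
    rw [Subgroup.commutator_le]
    intro u hu v hv
    obtain ⟨u', hu', au⟩ := exists_per h2 C hu
    obtain ⟨v', hv', av⟩ := exists_per h2 C hv
    exact ⟨_, Subgroup.commutator_mem_commutator hu' hv',
      ((au.mul av).mul au.inv).mul av.inv⟩
  obtain ⟨g, hg, b⟩ := hW (h3 C hh)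
  have hle : (⁅C.Gx 0, C.Gx 0⁆ : Subgroup (ℝ ≃o ℝ)) ≤ C.Gx 0 := by
    rw [Subgroup.commutator_le]
    intro u hu v hv
    exact Subgroup.mul_mem _ (Subgroup.mul_mem _ (Subgroup.mul_mem _ hu hv)
      (Subgroup.inv_mem _ hu)) (Subgroup.inv_mem _ hv)
  have e : f = g := per_ext hf.1.2 (hle hg).1.2 fun x x0 x1 => by
    rw [a.2.2 x x0 x1, b.2.2 x x0 x1]
  rwa [e]

end Pool.Agent.MP_3aea93_al.H75
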