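import Pool.Agent.MP_3aea93_al.H75.Spec

/-! Gluing and periodisation. -/

set_option autoImplicit false

namespace Pool.Agent.MP_3aea93_al.H75

open Filter Topology Set

namespace Glue

/-- the glued function -/
noncomputable def gl (f g : ℝ ≃o ℝ) (c x : ℝ) : ℝ := if x ≤ c then f x else g x

theorem gl_le {f g : ℝ ≃o ℝ} {c x : ℝ} (h : x ≤ c) : gl f g c x = f x := if_pos h

theorem gl_ge {f g : ℝ ≃o ℝ} {c x : ℝ} (e : f c = g c) (h : c ≤ x) : gl f g c x = g x := by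
  rcases h.eq_or_lt with h1 | h1
  · rw [← h1, gl_le le_rfl, e]
  · exact if_neg (not_le.2 h1)

theorem gl_mono {f g : ℝ ≃o ℝ} {c : ℝ} (e : f c = g c) : StrictMono (gl f g c) := by
  intro x y hxy
  rcases le_total y c with h | h
  · rw [gl_le h, gl_le (hxy.le.trans h)]; exact f.strictMono hxy
  · rcases le_or_gt c x with h' | h'
    · rw [gl_ge e h, gl_ge e h']; exact g.strictMono hxy
    · rw [gl_ge e h, gl_le h'.le]
      exact (f.strictMono h').trans_le (e.le.trans (g.monotone h))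

theorem gl_surj {f g : ℝ ≃o ℝ} {c : ℝ} (e : f c = g c) : Function.Surjective (gl f g c) := by
  intro y
  rcases le_total y (f c) with h | h
  · exact ⟨f.symm y, by rw [gl_le (f.symm_apply_le.2 h), f.apply_symm_apply]⟩
  · exact ⟨g.symm y, by rw [gl_ge e (g.le_symm_apply.2 (e.ge.trans h)), g.apply_symm_apply]⟩

/-- the periodised function -/
noncomputable def pe (f : ℝ ≃o ℝ) (c x : ℝ) : ℝ := f (x - (⌊x - c⌋ : ℤ)) + (⌊x - c⌋ : ℤ)

theorem pe_eq {f : ℝ ≃o ℝ} {c x : ℝ} (e : f (c + 1) = f c + 1) (k : ℤ) (h1 : c + k ≤ x)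
    (h2 : x ≤ c + k + 1) : pe f c x = f (x - k) + k := by
  rcases h2.eq_or_lt with h | h
  · have h3 : ⌊x - c⌋ = k + 1 := by
      rw [Int.floor_eq_iff]; push_cast; constructor <;> linarith
    have h4 : x - ((k : ℝ) + 1) = c := by linarith
    have h5 : x - (k : ℝ) = c + 1 := by linarith
    rw [pe, h3]; push_cast; rw [h4, h5, e]; ring
  · have h3 : ⌊x - c⌋ = k := by
      rw [Int.floor_eq_iff]; constructor <;> linarith
    rw [pe, h3]

theorem pe_mono {f : ℝ ≃o ℝ} {c : ℝ} (e : f (c + 1) = f c + 1) : StrictMono (pe f c) := by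
  intro x y hxy
  have h : ⌊x - c⌋ ≤ ⌊y - c⌋ := Int.floor_le_floor (by linarith)
  rcases h.eq_or_lt with h1 | h1
  · rw [pe, pe, h1]
    have h2 := f.strictMono (show x - (⌊y - c⌋ : ℤ) < y - (⌊y - c⌋ : ℤ) by linarith)
    linarith
  · have h2 : ((⌊x - c⌋ : ℤ) : ℝ) + 1 ≤ (⌊y - c⌋ : ℤ) := by exact_mod_cast h1
    have h3 := f.strictMono (show x - (⌊x - c⌋ : ℤ) < c + 1 by
      linarith [Int.lt_floor_add_one (x - c)])
    have h4 := f.monotone (show c ≤ y - (⌊y - c⌋ : ℤ) by linarith [Int.floor_le (y - c)])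
    rw [pe, pe]
    linarith

theorem pe_surj {f : ℝ ≃o ℝ} {c : ℝ} (e : f (c + 1) = f c + 1) : Function.Surjective (pe f c) := by
  intro z
  have h1 : c ≤ f.symm (z - (⌊z - f c⌋ : ℤ)) :=
    f.le_symm_apply.2 (by linarith [Int.floor_le (z - f c)])
  have h2 : f.symm (z - (⌊z - f c⌋ : ℤ)) ≤ c + 1 :=
    f.symm_apply_le.2 (by linarith [Int.lt_floor_add_one (z - f c)])
  refine ⟨f.symm (z - (⌊z - f c⌋ : ℤ)) + (⌊z - f c⌋ : ℤ), ?_⟩
  rw [pe_eq e ⌊z - f c⌋ (by linarith) (by linarith), add_sub_cancel_right, f.apply_symm_apply]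
  ring

theorem pe_per (f : ℝ ≃o ℝ) (c x : ℝ) : pe f c (x + 1) = pe f c x + 1 := by
  have h : ⌊x + 1 - c⌋ = ⌊x - c⌋ + 1 := by
    rw [show x + 1 - c = x - c + 1 by ring, Int.floor_add_one]
  rw [pe, pe, h]; push_cast
  rw [show x + 1 - ((⌊x - c⌋ : ℤ) + 1 : ℝ) = x - (⌊x - c⌋ : ℤ) by ring]; ring

theorem conj_mem {C : Ctx} {f : ℝ ≃o ℝ} (hf : f ∈ C.P) (k : ℤ) :
    tr k * f * (tr k)⁻¹ ∈ C.P :=
  have h : tr (k : ℝ) ∈ C.P := Ctx.tr_mem_P (intCast_mem _ _)
  C.P.mul_mem (C.P.mul_mem h hf) (C.P.inv_mem h)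

theorem conj_app (f : ℝ ≃o ℝ) (k y : ℝ) : (tr k * f * (tr k)⁻¹) y = f (y - k) + k := by
  rw [mul_app, mul_app, tr_inv_app, tr_app]

end Glue

open Glue

theorem rowGlue : RowGlue := by
  intro C f g c hf hg hc e
  refine ⟨(gl_mono e).orderIsoOfSurjective _ (gl_surj e), fun x => ?_, fun x hx => gl_le hx,
    fun x hx => gl_ge e hx⟩
  have h1 : x < c → ∀ᶠ y in 𝓝 x, gl f g c y = f y := fun h =>
    (eventually_lt_nhds h).mono fun y hy => gl_le hy.le
  have h2 : c < x → ∀ᶠ y in 𝓝 x, gl f g c y = g y := fun h =>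
    (eventually_gt_nhds h).mono fun y hy => gl_ge e hy.le
  refine ⟨?_, ?_, fun hx => ?_⟩
  · rcases lt_or_ge x c with h | h
    · exact (hf x).1.congr ((h1 h).filter_mono nhdsWithin_le_nhds)
    · exact (hg x).1.congr (eventually_mem_nhdsWithin.mono fun y hy => gl_ge e (h.trans hy))
  · rcases lt_or_ge c x with h | h
    · exact (hg x).2.1.congr ((h2 h).filter_mono nhdsWithin_le_nhds)
    · exact (hf x).2.1.congr
        (eventually_mem_nhdsWithin.mono fun y hy => gl_le (le_trans (mem_Iic.1 hy) h))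
  · rcases lt_trichotomy x c with h | h | h
    · exact ((hf x).2.2 hx).congr (h1 h)
    · exact absurd (h ▸ hc) hx
    · exact ((hg x).2.2 hx).congr (h2 h)

theorem rowPer : RowPer := by
  intro C f c hf hc e
  refine ⟨(pe_mono e).orderIsoOfSurjective _ (pe_surj e), ⟨fun x => ?_, fun x => pe_per f c x⟩,
    fun x h1 h2 => ?_⟩
  · have key : ∀ (k : ℤ) (y : ℝ), c + k ≤ y → y ≤ c + k + 1 →
        pe f c y = (tr k * f * (tr k)⁻¹) y := fun k y h1 h2 => by
      rw [pe_eq e k h1 h2, conj_app]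
    have a1 : c + (⌊x - c⌋ : ℤ) ≤ x := by linarith [Int.floor_le (x - c)]
    have a2 : x < c + (⌊x - c⌋ : ℤ) + 1 := by linarith [Int.lt_floor_add_one (x - c)]
    refine ⟨?_, ?_, fun hx => ?_⟩
    · refine (conj_mem hf ⌊x - c⌋ x).1.congr ?_
      filter_upwards [eventually_mem_nhdsWithin,
        (eventually_lt_nhds a2).filter_mono nhdsWithin_le_nhds] with y h1 h2
      exact key _ y (a1.trans h1) h2.le
    · have b1 : c + ((⌈x - c⌉ - 1 : ℤ) : ℝ) < x := by
        push_cast; linarith [Int.ceil_lt_add_one (x - c)]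
      have b2 : x ≤ c + ((⌈x - c⌉ - 1 : ℤ) : ℝ) + 1 := by
        push_cast; linarith [Int.le_ceil (x - c)]
      refine (conj_mem hf (⌈x - c⌉ - 1) x).2.1.congr ?_
      filter_upwards [eventually_mem_nhdsWithin,
        (eventually_gt_nhds b1).filter_mono nhdsWithin_le_nhds] with y h1 h2
      exact key _ y h2.le (le_trans (mem_Iic.1 h1) b2)
    · have b1 : c + (⌊x - c⌋ : ℤ) < x := a1.lt_of_ne fun h =>
        hx (h ▸ C.A.add_mem hc (intCast_mem _ _))
      refine ((conj_mem hf ⌊x - c⌋ x).2.2 hx).congr ?_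
      filter_upwards [eventually_gt_nhds b1, eventually_lt_nhds a2] with y h1 h2
      exact key _ y h1.le h2.le
  · have h := pe_eq e 0 (x := x) (by simpa using h1) (by simpa using h2)
    simpa using h

end Pool.Agent.MP_3aea93_al.H75
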