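import Pool.Agent.MP_3aea93_al.H75.Spec

/-! The group of compactly supported maps is perfect. -/

set_option autoImplicit false

namespace Pool.Agent.MP_3aea93_al.H75

open Filter Topology Set

namespace Perf

/-- The group theoretic core. -/
theorem core {G Q : Type} [Group G] [Group Q] (φ : G →* Q) (M T R : Subgroup G) (n : ℕ) (ν : G)
    (hν : ν ∈ R) (hM : ∀ m ∈ M, ∀ g, Commute (φ m) (φ g))
    (hT : ∀ a ∈ T, ∀ b ∈ T, Commute (φ a) (φ b)) (hR : ∀ a ∈ R, ∀ b ∈ R, Commute a b)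
    (hr : ∀ ρ ∈ R, ∀ t ∈ T, ρ * t * ρ⁻¹ ∈ T) (hn : ∀ t ∈ T, t ^ n * (ν * t * ν⁻¹)⁻¹ ∈ M) :
    ∃ S : Subgroup G, (∀ k ∈ T, ∀ ρ ∈ R, k * ρ * k⁻¹ ∈ S) ∧
      ∀ g ∈ S, ∃ ρ ∈ R, g * ρ⁻¹ ∈ T ∧ φ (g * ρ⁻¹) ^ n = φ ν * φ (g * ρ⁻¹) * (φ ν)⁻¹ := by
  let T' : Subgroup G :=
    { carrier := {t | t ∈ T ∧ φ t ^ n = φ ν * φ t * (φ ν)⁻¹}
      one_mem' := ⟨T.one_mem, by simp⟩
      mul_mem' := fun {a b} ha hb => ⟨T.mul_mem ha.1 hb.1, by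
        rw [map_mul, (hT a ha.1 b hb.1).mul_pow, ha.2, hb.2]; group⟩
      inv_mem' := fun {a} ha => ⟨T.inv_mem ha.1, by
        rw [map_inv, inv_pow, ha.2]; group⟩ }
  have hc : ∀ ρ ∈ R, ∀ x : Q, φ ρ * (φ ν * x * (φ ν)⁻¹) * (φ ρ)⁻¹ =
      φ ν * (φ ρ * x * (φ ρ)⁻¹) * (φ ν)⁻¹ := fun ρ hρ x => by
    have e : φ ρ * φ ν = φ ν * φ ρ := ((hR ρ hρ ν hν).map φ).eq
    calc _ = (φ ρ * φ ν) * x * (φ ρ * φ ν)⁻¹ := by group
      _ = _ := by rw [e]; group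
  have hr' : ∀ ρ ∈ R, ∀ t ∈ T', ρ * t * ρ⁻¹ ∈ T' := fun ρ hρ t ht => ⟨hr ρ hρ t ht.1, by
    rw [map_mul, map_mul, map_inv, conj_pow, ht.2, hc ρ hρ]⟩
  let S : Subgroup G :=
    { carrier := {g | ∃ ρ ∈ R, g * ρ⁻¹ ∈ T'}
      one_mem' := ⟨1, R.one_mem, by simp⟩
      mul_mem' := fun {a b} ⟨ρ, hρ, ha⟩ ⟨σ, hσ, hb⟩ => ⟨ρ * σ, R.mul_mem hρ hσ, by
        have := T'.mul_mem ha (hr' ρ hρ _ hb)
        rwa [show a * ρ⁻¹ * (ρ * (b * σ⁻¹) * ρ⁻¹) = a * b * (ρ * σ)⁻¹ by group] at this⟩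
      inv_mem' := fun {a} ⟨ρ, hρ, ha⟩ => ⟨ρ⁻¹, R.inv_mem hρ, by
        have := hr' ρ⁻¹ (R.inv_mem hρ) _ (T'.inv_mem ha)
        rwa [show ρ⁻¹ * (a * ρ⁻¹)⁻¹ * ρ⁻¹⁻¹ = a⁻¹ * ρ⁻¹⁻¹ by group] at this⟩ }
  refine ⟨S, fun k hk ρ hρ => ⟨ρ, hρ, ?_⟩, fun g hg => hg⟩
  have h1 := hr ρ hρ _ (T.inv_mem hk)
  rw [show k * ρ * k⁻¹ * ρ⁻¹ = k * (ρ * k⁻¹ * ρ⁻¹) by group]
  refine ⟨T.mul_mem hk h1, ?_⟩
  obtain ⟨m, hm⟩ : ∃ m, m = φ (k ^ n * (ν * k * ν⁻¹)⁻¹) := ⟨_, rfl⟩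
  have h2 : ∀ g, m * φ g = φ g * m := fun g => hm ▸ (hM _ (hn k hk) g).eq
  have h3 : φ k ^ n = m * (φ ν * φ k * (φ ν)⁻¹) := by
    rw [hm]; simp only [map_mul, map_inv, map_pow]; group
  have h4 := h2 (ν * k * ν⁻¹ * (ρ * (ν * k⁻¹ * ν⁻¹)))
  rw [map_mul, (hT k hk _ h1).mul_pow]
  simp only [map_mul, map_inv] at h4 ⊢
  have h5 : m⁻¹ * (φ ρ)⁻¹ = (φ ρ)⁻¹ * m⁻¹ := by rw [← mul_inv_rev, ← h2, mul_inv_rev]
  rw [conj_pow, inv_pow, h3]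
  calc _ = m * (φ ν * φ k * (φ ν)⁻¹ * (φ ρ * (φ ν * (φ k)⁻¹ * (φ ν)⁻¹))) * m⁻¹ * (φ ρ)⁻¹ := by group
    _ = φ ν * φ k * (φ ν)⁻¹ * (φ ρ * (φ ν * (φ k)⁻¹ * (φ ν)⁻¹) * (φ ρ)⁻¹) := by rw [h4]; group
    _ = _ := by rw [hc ρ hρ]; group

/-- Continuation along an interval on which `g` is affine. -/
theorem cont {b g : ℝ → ℝ} {l c l' c' u v x : ℝ} (hu : u < x) (hv : v < x)
    (h1 : ∀ y ≤ x, b y = g y) (h2 : ∀ y, u ≤ y → b y = l * y + c)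
    (h3 : ∀ y, v ≤ y → y ≤ x → g y = l' * y + c') : ∀ y, l * y + c = l' * y + c' := by
  have hm : max u v < x := max_lt hu hv
  have e1 : l * x + c = l' * x + c' := by rw [← h2 x hu.le, h1 x le_rfl, h3 x hv.le le_rfl]
  have e2 : l * max u v + c = l' * max u v + c' := by
    rw [← h2 _ (le_max_left _ _), h1 _ hm.le, h3 _ (le_max_right _ _) hm.le]
  have e3 : l = l' := mul_right_cancel₀ (sub_pos.2 hm).ne' (by linarith)
  subst e3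
  intro y
  linarith

variable {C : Ctx}

/-- Generation by maps with one breakpoint. -/
theorem gen (S : Subgroup (ℝ ≃o ℝ))
    (hS : ∀ p ∈ C.A, ∀ l ∈ C.L, ∃ r ∈ S, (∀ x ≤ p, r x = x) ∧ ∀ x, p ≤ x → r x = p + l * (x - p))
    {g : ℝ ≃o ℝ} (hg : g ∈ C.P) (h0 : g ∈ Germ atBot) (h1 : C.Aff g atTop) : g ∈ S := by
  let X : Set ℝ := {x | ∃ b ∈ S, ∃ l ∈ C.L, ∃ c u, u < x ∧ (∀ y ≤ x, b y = g y) ∧
    ∀ y, u ≤ y → b y = l * y + c}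
  have step : ∀ x ∈ X, ∀ l' c' v w : ℝ, v < x → x ≤ w → (∀ y, v ≤ y → y ≤ w → g y = l' * y + c') →
      w ∈ X := by
    rintro x ⟨b, hb, l, hl, c, u, hu, e1, e2⟩ l' c' v w hv hw e3
    have := cont hu hv e1 e2 fun y a b => e3 y a (b.trans hw)
    refine ⟨b, hb, l, hl, c, u, hu.trans_le hw, fun y hy => ?_, e2⟩
    rcases le_total y x with h | h
    · exact e1 y h
    · rw [e2 y (hu.le.trans h), this, e3 y (hv.le.trans h) hy]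
  obtain ⟨a, ha⟩ := eventually_atBot.1 (mem_Germ.1 h0)
  have hne : a ∈ X := ⟨1, S.one_mem, 1, C.L.one_mem, 0, a - 1, by linarith,
    fun y hy => (ha y hy).symm, fun y _ => by simp⟩
  have hub : ¬BddAbove X := fun hb => by
    obtain ⟨s, hs⟩ : ∃ s, IsLUB X s := ⟨_, isLUB_csSup ⟨a, hne⟩ hb⟩
    have hsX : s ∈ X := by
      obtain ⟨l, -, c, -, e⟩ := (hg s).2.1
      obtain ⟨v, hv, e'⟩ := mem_nhdsLE_iff_exists_Icc_subset.1 e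
      obtain ⟨x, hx, h2, h3⟩ := hs.exists_between hv
      exact step x hx l c v s h2 h3 fun y a b => e' ⟨a, b⟩
    by_cases hA : s ∈ C.A
    · obtain ⟨l', hl', c', -, e⟩ := (hg s).1
      obtain ⟨w, hw, e'⟩ := mem_nhdsGE_iff_exists_Icc_subset.1 e
      obtain ⟨b, hb, l, hl, c, u, hu, e1, e2⟩ := hsX
      obtain ⟨r, hr, r1, r2⟩ := hS (g s) ((Ctx.mem_A hg s).2 hA) (l' * l⁻¹)
        (C.L.mul_mem hl' (C.inv l hl))
      have es : g s = l' * s + c' := e' ⟨le_rfl, hw.le⟩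
      have e3 : ∀ y, s ≤ y → (r * b) y = l' * y + c' := fun y hy => by
        have h2 := (C.pos l hl).ne'
        rw [mul_app, r2 _ (e1 s le_rfl ▸ b.monotone hy), e2 y (hu.le.trans hy)]
        nth_rewrite 2 [← e1 s le_rfl]
        rw [e2 s hu.le, es]
        field_simp
        ring
      refine absurd (hs.1 ⟨r * b, S.mul_mem hr hb, l', hl', c', s, hw, fun y hy => ?_, e3⟩) hw.not_ge
      rcases le_total y s with h | h
      · rw [mul_app, e1 y h, r1 _ (g.monotone h)]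
      · rw [e3 y h, e' ⟨h, hy⟩]
    · obtain ⟨l, -, c, -, e⟩ := (hg s).2.2 hA
      obtain ⟨v, w, hvw, hn, e'⟩ := exists_Icc_mem_subset_of_mem_nhds e
      obtain ⟨h2, h3⟩ := Icc_mem_nhds_iff.1 hn
      exact absurd (hs.1 (step s hsX l c v w h2 h3.le fun y a b => e' ⟨a, b⟩)) h3.not_ge
  obtain ⟨l', -, c', -, e⟩ := h1
  obtain ⟨q, hq⟩ := eventually_atTop.1 e
  obtain ⟨x, ⟨b, hb, l, -, c, u, hu, e1, e2⟩, hx⟩ := not_bddAbove_iff.1 hub q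
  have := cont hu hx e1 e2 fun y a _ => hq y a
  rw [show g = b from OrderIso.ext (funext fun y => ?_)]
  · exact hb
  rcases le_total y x with h | h
  · exact (e1 y h).symm
  · rw [e2 y (hu.le.trans h), this, hq y (hx.le.trans h)]

variable (C)

/-- affine at the right end -/
def Af : Subgroup (ℝ ≃o ℝ) where
  carrier := {f | C.Aff f atTop}
  one_mem' := ⟨1, C.L.one_mem, 0, C.A.zero_mem, Eventually.of_forall fun y => by simp⟩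
  mul_mem' := fun {f g} hf hg => Ctx.Aff.comp (f := f) (g := g) hf hg g.tendsto_atTop
  inv_mem' := fun {f} hf => Ctx.Aff.symm hf f.symm.tendsto_atTop

/-- identity at the left end, affine at the right end -/
def Pp : Subgroup (ℝ ≃o ℝ) := C.P ⊓ Germ atBot ⊓ Af C

/-- translation germ at the right end -/
def Tg (f : ℝ ≃o ℝ) (c : ℝ) : Prop := ∀ᶠ y in atTop, f y = y + c

theorem Tg.mul {f g : ℝ ≃o ℝ} {c d : ℝ} (hf : Tg f c) (hg : Tg g d) : Tg (f * g) (c + d) := by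
  filter_upwards [g.tendsto_atTop.eventually hf, hg] with y h1 h2
  rw [mul_app, h1, h2]; ring

theorem Tg.inv {f : ℝ ≃o ℝ} {c : ℝ} (hf : Tg f c) : Tg f⁻¹ (-c) := by
  filter_upwards [f⁻¹.tendsto_atTop.eventually hf] with y h1
  rw [apply_inv] at h1
  linarith

theorem Tg.zpow {f : ℝ ≃o ℝ} {c : ℝ} (hf : Tg f c) (i : ℤ) : Tg (f ^ i) (i * c) := by
  induction i using Int.induction_on with
  | zero => exact Eventually.of_forall fun y => by simp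
  | succ i ih =>
    have := ih.mul hf
    rw [← zpow_add_one] at this
    push_cast at this ⊢
    rwa [add_mul, one_mul]
  | pred i ih =>
    have := ih.mul hf.inv
    rw [← zpow_sub_one] at this
    push_cast at this ⊢
    rwa [sub_mul, one_mul, sub_eq_add_neg]

theorem Tg.conj {t ρ : ℝ ≃o ℝ} {c l : ℝ} (ht : Tg t c) (hρ : ∀ x, 0 ≤ x → ρ x = l * x) :
    Tg (ρ * t * ρ⁻¹) (l * c) := by
  have h : ∀ᶠ y in atTop, ρ (t y) = ρ y + l * c := by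
    filter_upwards [ht, eventually_ge_atTop 0, eventually_ge_atTop (-c)] with y h1 h2 h3
    rw [h1, hρ _ (by linarith), hρ _ h2]; ring
  filter_upwards [ρ⁻¹.tendsto_atTop.eventually h] with y h1
  rw [mul_app, mul_app, h1, apply_inv]

/-- translation at the right end -/
def At : Subgroup (ℝ ≃o ℝ) where
  carrier := {f | ∃ c ∈ C.A, Tg f c}
  one_mem' := ⟨0, C.A.zero_mem, Eventually.of_forall fun y => by simp⟩
  mul_mem' := fun ⟨c, hc, hf⟩ ⟨d, hd, hg⟩ => ⟨c + d, C.A.add_mem hc hd, hf.mul hg⟩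
  inv_mem' := fun ⟨c, hc, hf⟩ => ⟨-c, C.A.neg_mem hc, hf.inv⟩

/-- one breakpoint at the origin -/
def Rs : Subgroup (ℝ ≃o ℝ) where
  carrier := {f | (∀ x ≤ 0, f x = x) ∧ ∃ l ∈ C.L, ∀ x, 0 ≤ x → f x = l * x}
  one_mem' := ⟨fun _ _ => rfl, 1, C.L.one_mem, fun x _ => by simp⟩
  mul_mem' := fun {f g} ⟨f0, l, hl, hf⟩ ⟨g0, m, hm, hg⟩ =>
    ⟨fun x hx => by rw [mul_app, g0 x hx, f0 x hx], l * m, C.L.mul_mem hl hm, fun x hx => by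
      rw [mul_app, hg x hx, hf _ (mul_nonneg (C.pos m hm).le hx), mul_assoc]⟩
  inv_mem' := fun {f} ⟨f0, l, hl, hf⟩ =>
    ⟨fun x hx => inv_eq_of (f0 x hx), l⁻¹, C.inv l hl, fun x hx => inv_eq_of (by
      rw [hf _ (mul_nonneg (inv_pos.2 (C.pos l hl)).le hx), mul_inv_cancel_left₀ (C.pos l hl).ne'])⟩

variable {C}

theorem Rs_comm {a b : ℝ ≃o ℝ} (ha : a ∈ Rs C) (hb : b ∈ Rs C) : Commute a b := by
  obtain ⟨a0, l, hl, ha⟩ := ha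
  obtain ⟨b0, m, hm, hb⟩ := hb
  refine OrderIso.ext (funext fun x => ?_)
  rw [mul_app, mul_app]
  rcases le_total x 0 with h | h
  · rw [a0 x h, b0 x h, a0 x h]
  · rw [ha x h, hb x h, ha _ (mul_nonneg (C.pos m hm).le h), hb _ (mul_nonneg (C.pos l hl).le h)]
    ring

theorem mem_Pc {f : ℝ ≃o ℝ} (hf : f ∈ Pp C) (h : Tg f 0) : f ∈ C.Pc :=
  ⟨hf.1.1, eventually_sup.2 ⟨hf.1.2, h.mono fun _ hy => hy.trans (add_zero _)⟩⟩

theorem Pc_le : C.Pc ≤ Pp C := fun _ hf =>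
  ⟨⟨hf.1, (eventually_sup.1 hf.2).1⟩, 1, C.L.one_mem, 0, C.A.zero_mem,
    (eventually_sup.1 hf.2).2.mono fun _ hy => by rw [hy]; ring⟩

theorem mk_Pp {k : ℝ ≃o ℝ} {p q l c : ℝ} (hk : k ∈ C.P) (hl : l ∈ C.L) (hc : c ∈ C.A)
    (h1 : ∀ x, x ≤ p → k x = x) (h2 : ∀ x, q ≤ x → k x = l * x + c) : k ∈ Pp C :=
  ⟨⟨hk, eventually_atBot.2 ⟨p, h1⟩⟩, l, hl, c, hc, eventually_atTop.2 ⟨q, h2⟩⟩

theorem exR (h : RowGlue) {l : ℝ} (hl : l ∈ C.L) :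
    ∃ ρ ∈ Pp C, (∀ x ≤ 0, ρ x = x) ∧ ∀ x, 0 ≤ x → ρ x = l * x := by
  obtain ⟨ρ, h1, h2, h3⟩ := h C 1 (OrderIso.mulLeft₀ l (C.pos l hl)) 0 C.P.one_mem
    (Ctx.mem_P_of_aff hl C.A.zero_mem fun y => (add_zero _).symm) C.A.zero_mem (by simp)
  exact ⟨ρ, mk_Pp h1 hl C.A.zero_mem h2 fun x hx => (h3 x hx).trans (add_zero _).symm, h2, h3⟩

theorem exE (h : RowE) (K : ℝ) {l c : ℝ} (hl : l ∈ C.L) (hc : c ∈ C.A) :
    ∃ e ∈ Pp C, (∀ x ≤ K, e x = x) ∧ ∀ᶠ y in atTop, e y = l * y + c := by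
  obtain ⟨p, hp, h1, -⟩ := C.dense (lt_add_one K)
  obtain ⟨q, hq, h2, -⟩ := C.dense (lt_add_one (max p ((p - c) / l)))
  obtain ⟨e, he, e1, e2⟩ := h C p q l c hp hq hl hc (max_lt_iff.1 h2).1 (by
    have := (div_lt_iff₀ (C.pos l hl)).1 (max_lt_iff.1 h2).2
    linarith)
  exact ⟨e, mk_Pp he hl hc e1 e2, fun x hx => e1 x (hx.trans h1.le), eventually_atTop.2 ⟨q, e2⟩⟩

theorem comm_of {a b : ℝ ≃o ℝ} {p : ℝ} (ha : ∀ x, p ≤ x → a x = x) (hb : ∀ x ≤ p, b x = x) :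
    Commute a b := by
  refine OrderIso.ext (funext fun x => ?_)
  rw [mul_app, mul_app]
  rcases le_total x p with h | h
  · rw [hb x h, hb _ (ha p le_rfl ▸ a.monotone h)]
  · rw [ha x h, ha _ (hb p le_rfl ▸ b.monotone h)]

theorem normal : (C.Pc.subgroupOf (Pp C)).Normal := ⟨fun f hf g => by
  rw [Subgroup.mem_subgroupOf] at hf ⊢
  refine mem_Pc (g * f * g⁻¹).2 ?_
  filter_upwards [(g : ℝ ≃o ℝ)⁻¹.tendsto_atTop.eventually (eventually_sup.1 hf.2).2] with y hy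
  change g.1 (f.1 (g.1⁻¹ y)) = _
  rw [hy, apply_inv, add_zero]⟩

section Quot

variable {Q : Type} [Group Q] (φ : Pp C →* Q)
  (hφ : ∀ a ∈ C.Pc.subgroupOf (Pp C), ∀ b ∈ C.Pc.subgroupOf (Pp C), Commute (φ a) (φ b))

include hφ

theorem central (h : RowE) (m : Pp C) (hm : m ∈ C.Pc.subgroupOf (Pp C)) (g : Pp C) :
    Commute (φ m) (φ g) := by
  obtain ⟨K, hK⟩ := mem_Germ_ends.1 (Subgroup.mem_subgroupOf.1 hm).2
  obtain ⟨l, hl, c, hc, e0⟩ := g.2.2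
  obtain ⟨e, he, e1, e2⟩ := exE h K hl hc
  have h1 : g * (⟨e, he⟩ : Pp C)⁻¹ ∈ C.Pc.subgroupOf (Pp C) := by
    refine Subgroup.mem_subgroupOf.2 (mem_Pc (g * (⟨e, he⟩ : Pp C)⁻¹).2 ?_)
    filter_upwards [e⁻¹.tendsto_atTop.eventually e0, e⁻¹.tendsto_atTop.eventually e2] with y a b
    change g.1 (e⁻¹ y) = _
    rw [a, ← b, apply_inv, add_zero]
  have h2 : Commute m ⟨e, he⟩ := Subtype.ext (comm_of (fun x hx => hK x (Or.inr hx)) e1).eq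
  have := (hφ m hm _ h1).mul_right (h2.map φ)
  rwa [← map_mul, inv_mul_cancel_right] at this

theorem abel (h : RowE) (a : Pp C) (ha : a ∈ (At C).subgroupOf (Pp C)) (b : Pp C)
    (hb : b ∈ (At C).subgroupOf (Pp C)) : Commute (φ a) (φ b) := by
  obtain ⟨c, hc, ha⟩ := Subgroup.mem_subgroupOf.1 ha
  obtain ⟨d, hd, hb⟩ := Subgroup.mem_subgroupOf.1 hb
  obtain ⟨e, he, -, -, i, j, rfl, rfl⟩ := C.cyc c hc d hd 1 one_pos
  obtain ⟨τ, hτ, -, e2⟩ := exE h 0 C.L.one_mem he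
  have e3 : Tg τ e := e2.mono fun y hy => by rw [hy, one_mul]
  have key : ∀ (x : Pp C) (i : ℤ), Tg x (i * e) → ∃ m, (∀ g, Commute m (φ g)) ∧
      φ x = m * φ ⟨τ, hτ⟩ ^ i := fun x i hx => by
    refine ⟨φ (x * ((⟨τ, hτ⟩ : Pp C) ^ i)⁻¹), central φ hφ h _ (Subgroup.mem_subgroupOf.2
      (mem_Pc (x * ((⟨τ, hτ⟩ : Pp C) ^ i)⁻¹).2 ?_)), by simp⟩
    have := hx.mul (e3.zpow i).inv
    rwa [add_neg_cancel] at this
  obtain ⟨m, hm, e4⟩ := key a i ha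
  obtain ⟨m', hm', e5⟩ := key b j hb
  rw [e4]
  refine (hm b).mul_left ?_
  rw [e5]
  exact ((hm' _).symm.zpow_left i).mul_right (Commute.zpow_zpow_self _ i j)

theorem pow_eq (h1 : RowGlue) (h2 : RowE) {n : ℕ} (h : 1 ≤ n) (hn : (n : ℝ) ∈ C.L) (f : Pp C)
    (hf : f ∈ C.Pc.subgroupOf (Pp C)) : φ f ^ (n - 1) = 1 := by
  obtain ⟨ν, hν, n1, n2⟩ := exR h1 hn
  obtain ⟨S, s1, s2⟩ := core φ (C.Pc.subgroupOf (Pp C)) ((At C).subgroupOf (Pp C))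
    ((Rs C).subgroupOf (Pp C)) n ⟨ν, hν⟩ ⟨n1, n, hn, n2⟩ (central φ hφ h2) (abel φ hφ h2)
    (fun a ha b hb => Subtype.ext (Rs_comm ha hb).eq)
    (fun ρ ⟨_, l, hl, hρ⟩ t ⟨c, hc, ht⟩ => ⟨l * c, C.A.mul_mem (C.sub l hl) hc, ht.conj hρ⟩)
    (fun t ⟨c, _, ht⟩ => Subgroup.mem_subgroupOf.2 (mem_Pc (Subtype.property _) (by
      have := (ht.zpow n).mul (ht.conj n2).inv
      rwa [Int.cast_natCast, add_neg_cancel, zpow_natCast] at this)))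
  have hS : (f : ℝ ≃o ℝ) ∈ S.map (Pp C).subtype := by
    refine gen (C := C) _ (fun p hp l hl => ?_) f.2.1.1 f.2.1.2 f.2.2
    obtain ⟨ρ, hρ, r1, r2⟩ := exR h1 hl
    obtain ⟨p', hp', -, h3⟩ := C.dense (sub_one_lt (min 0 p))
    obtain ⟨k, hk, k1, k2⟩ := h2 C p' 0 1 p hp' C.A.zero_mem C.L.one_mem hp (lt_min_iff.1 h3).1
      (by linarith [(lt_min_iff.1 h3).2])
    have hk' := mk_Pp hk C.L.one_mem hp k1 k2
    have k0 : k⁻¹ p = 0 := inv_eq_of (by rw [k2 0 le_rfl]; ring)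
    refine ⟨k * ρ * k⁻¹, ⟨_, s1 ⟨k, hk'⟩ ⟨p, hp, eventually_atTop.2 ⟨0, fun x hx => ?_⟩⟩ ⟨ρ, hρ⟩
      ⟨r1, l, hl, r2⟩, rfl⟩, fun x hx => ?_, fun x hx => ?_⟩
    · exact (k2 x hx).trans (by ring)
    · rw [mul_app, mul_app, r1 _ (k0 ▸ k⁻¹.monotone hx), apply_inv]
    · have h4 : k⁻¹ x = x - p := inv_eq_of (by rw [k2 _ (sub_nonneg.2 hx)]; ring)
      rw [mul_app, mul_app, h4, r2 _ (sub_nonneg.2 hx),
        k2 _ (mul_nonneg (C.pos l hl).le (sub_nonneg.2 hx))]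
      ring
  obtain ⟨f', hf', e⟩ := hS
  obtain rfl : f' = f := Subtype.ext e
  obtain ⟨ρ, ⟨r1, l, hl, r2⟩, ⟨c, -, hc⟩, e1⟩ := s2 f' hf'
  have hf0 : Tg f' 0 := (eventually_sup.1 hf.2).2.mono fun _ hy => hy.trans (add_zero _).symm
  have h3 : Tg ρ (-c + 0) := by
    have := hc.inv.mul hf0
    rwa [show ((Pp C).subtype (f' * ρ⁻¹))⁻¹ * f' = ρ by simp] at this
  obtain ⟨q, hq⟩ := eventually_atTop.1 (h3.and (eventually_ge_atTop 0))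
  have h4 : l = 1 := by
    have a := (hq q le_rfl).1
    have b := (hq (q + 1) (by linarith)).1
    have a' := r2 q (hq q le_rfl).2
    have b' := r2 (q + 1) (hq (q + 1) (by linarith)).2
    change ρ.1 _ = _ at a' b'
    linarith
  obtain rfl : ρ = 1 := Subtype.ext (OrderIso.ext (funext fun x => (le_total x 0).elim (r1 x)
    fun hx => (r2 x hx).trans (by rw [h4, one_mul]; rfl)))
  rw [inv_one, mul_one, ← (central φ hφ h2 f' hf _).eq, mul_inv_cancel_right] at e1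
  rw [pow_sub _ h, e1, pow_one, mul_inv_cancel]

end Quot

end Perf

open Perf in
theorem rowPc (h1 : RowGlue) (h2 : RowE) : RowPc := fun C f hf => by
  let M := C.Pc.subgroupOf (Pp C)
  have : M.Normal := normal
  have hφ : ∀ a ∈ M, ∀ b ∈ M, Commute (QuotientGroup.mk' ⁅M, M⁆ a) (QuotientGroup.mk' ⁅M, M⁆ b) :=
    fun a ha b hb => by
      rw [← commutatorElement_eq_one_iff_commute, ← map_commutatorElement, QuotientGroup.mk'_apply,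
        QuotientGroup.eq_one_iff]
      exact Subgroup.commutator_mem_commutator ha hb
  have h3 := C.gcd (orderOf (QuotientGroup.mk' ⁅M, M⁆ ⟨f, Pc_le hf⟩)) fun n a b =>
    orderOf_dvd_of_pow_eq_one (pow_eq _ hφ h1 h2 (by omega) b ⟨f, Pc_le hf⟩ hf)
  rw [orderOf_eq_one_iff, QuotientGroup.mk'_apply, QuotientGroup.eq_one_iff] at h3
  have h4 := Subgroup.mem_map_of_mem (Pp C).subtype h3
  rw [Subgroup.map_commutator] at h4
  exact Subgroup.commutator_mono (Subgroup.map_subgroupOf_eq_of_le Pc_le).le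
    (Subgroup.map_subgroupOf_eq_of_le Pc_le).le h4

end Pool.Agent.MP_3aea93_al.H75
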