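import Pool.Agent.MP_3aea93_al.H75.Spec

/-! Finite sets of breakpoints and germs. -/

set_option autoImplicit false

namespace Pool.Agent.MP_3aea93_al.H75

open Filter Topology Set

namespace Lit

theorem glob {L : Set ℝ} {F : ℝ → ℝ} {a b : ℝ} (hab : a < b)
    (h : ∀ y ∈ Ioo a b, ∃ l ∈ L, ∃ c : ℝ, ∀ᶠ z in 𝓝 y, F z = l * z + c) :
    ∃ l ∈ L, ∃ c : ℝ, EqOn F (fun z => l * z + c) (Ioo a b) := by
  have hm : (a + b) / 2 ∈ Ioo a b := ⟨by linarith, by linarith⟩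
  obtain ⟨l, hl, c, hc⟩ := h _ hm
  refine ⟨l, hl, c, AnalyticOnNhd.eqOn_of_preconnected_of_eventuallyEq (𝕜 := ℝ) ?_ ?_
    isPreconnected_Ioo hm hc⟩
  · intro y hy
    obtain ⟨l', -, c', hc'⟩ := h y hy
    have h1 : AnalyticAt ℝ (fun z : ℝ => l' * z + c') y := by fun_prop
    exact h1.congr (EventuallyEq.symm hc')
  · intro y _
    fun_prop

theorem const_mem {C : Ctx} {F : ℝ → ℝ} (hA : ∀ x, F x ∈ C.A ↔ x ∈ C.A) {a b l c : ℝ}
    (hab : a < b) (hl : l ∈ C.L) (h : EqOn F (fun z => l * z + c) (Ioo a b)) : c ∈ C.A := by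
  obtain ⟨u, hu, h1, h2⟩ := C.dense hab
  have h3 : c = F u - l * u := by rw [h ⟨h1, h2⟩]; ring
  rw [h3]
  exact C.A.sub_mem ((hA u).2 hu) (C.A.mul_mem (C.sub l hl) hu)

theorem isolated (B : Finset ℝ) (x : ℝ) :
    ∃ ε : ℝ, 0 < ε ∧ ∀ y, |y - x| < ε → y ≠ x → Int.fract y ∉ B := by
  have hfin : ({y : ℝ | Int.fract y ∈ B ∧ |y - x| < 1 ∧ y ≠ x}).Finite := by
    refine ((B ×ˢ Finset.Icc (⌊x⌋ - 1) (⌊x⌋ + 1)).finite_toSet.image
      (fun p : ℝ × ℤ => p.1 + p.2)).subset ?_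
    rintro y ⟨h1, h2, -⟩
    rw [abs_lt] at h2
    refine ⟨(Int.fract y, ⌊y⌋), ?_, Int.fract_add_floor y⟩
    rw [Finset.mem_coe, Finset.mem_product, Finset.mem_Icc]
    refine ⟨h1, ?_, ?_⟩
    · rw [← Int.floor_sub_one]; exact Int.floor_mono (by linarith)
    · rw [← Int.floor_add_one]; exact Int.floor_mono (by linarith)
  have h1 := hfin.isClosed.isOpen_compl.mem_nhds (x := x) (fun h => h.2.2 rfl)
  obtain ⟨ε, hε, h2⟩ := Metric.mem_nhds_iff.1 h1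
  refine ⟨min ε 1, lt_min hε one_pos, fun y hy hne hB => ?_⟩
  exact h2 (show dist y x < ε by rw [Real.dist_eq]; exact hy.trans_le (min_le_left _ _))
    ⟨hB, hy.trans_le (min_le_right _ _), hne⟩

theorem closed {C : Ctx} {F : ℝ ≃o ℝ} (hA : ∀ x, F x ∈ C.A ↔ x ∈ C.A) {a b : ℝ} (hab : a < b)
    (h : ∀ y ∈ Ioo a b, ∃ l ∈ (C.L : Set ℝ), ∃ c : ℝ, ∀ᶠ z in 𝓝 y, F z = l * z + c) :
    ∃ l ∈ C.L, ∃ c ∈ C.A, ∀ z ∈ Icc a b, F z = l * z + c := by
  obtain ⟨l, hl, c, hc⟩ := glob hab h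
  refine ⟨l, hl, c, const_mem hA hab hl hc, fun z hz => ?_⟩
  have h1 := hc.closure F.continuous (by fun_prop)
  rw [closure_Ioo hab.ne] at h1
  exact h1 hz

theorem punct {C : Ctx} {F : ℝ ≃o ℝ} (hF : F ∈ C.P) (x : ℝ) :
    {y | y ≠ x → C.Aff F (𝓝 y)} ∈ 𝓝 x := by
  obtain ⟨⟨l, hl, c, hc, e⟩, ⟨l', hl', c', hc', e'⟩, -⟩ := hF x
  obtain ⟨u, hu, h1⟩ := mem_nhdsGE_iff_exists_Ico_subset.1 e
  obtain ⟨v, hv, h2⟩ := mem_nhdsLE_iff_exists_Ioc_subset.1 e'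
  refine mem_of_superset (Ioo_mem_nhds hv hu) fun y hy hne => ?_
  rcases lt_or_gt_of_ne hne with h | h
  · exact ⟨l', hl', c', hc', mem_of_superset (Ioo_mem_nhds hy.1 h) fun z hz => h2 ⟨hz.1, hz.2.le⟩⟩
  · exact ⟨l, hl, c, hc, mem_of_superset (Ioo_mem_nhds h hy.2) fun z hz => h1 ⟨hz.1.le, hz.2⟩⟩

end Lit

theorem rowLit : RowLit := by
  classical
  intro C F
  constructor
  · rintro ⟨hper, hA, B, hB, hloc⟩
    refine ⟨fun x => ?_, hper⟩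
    obtain ⟨ε, hε, h⟩ := Lit.isolated B x
    refine ⟨?_, ?_, fun hx => ?_⟩
    · obtain ⟨l, hl, c, hc, e⟩ := Lit.closed hA (show x < x + ε by linarith) fun y hy =>
        hloc y (h y (by rw [abs_lt]; constructor <;> linarith [hy.1, hy.2]) hy.1.ne')
      exact ⟨l, hl, c, hc, mem_of_superset (Icc_mem_nhdsGE (show x < x + ε by linarith)) e⟩
    · obtain ⟨l, hl, c, hc, e⟩ := Lit.closed hA (show x - ε < x by linarith) fun y hy =>
        hloc y (h y (by rw [abs_lt]; constructor <;> linarith [hy.1, hy.2]) hy.2.ne)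
      exact ⟨l, hl, c, hc, mem_of_superset (Icc_mem_nhdsLE (show x - ε < x by linarith)) e⟩
    · have h1 : Int.fract x ∉ B := fun h1 => hx (by
        rw [← Int.fract_add_floor x]
        exact C.A.add_mem (hB _ h1) (intCast_mem _ _))
      obtain ⟨l, hl, c, e⟩ := hloc x h1
      obtain ⟨a, b, hab, h2⟩ := mem_nhds_iff_exists_Ioo_subset.1 e
      exact ⟨l, hl, c, Lit.const_mem hA (hab.1.trans hab.2) hl h2, e⟩
  · rintro ⟨hP, hper⟩
    obtain ⟨t, -, ht⟩ := (isCompact_Icc (a := (0 : ℝ)) (b := 1)).elim_nhds_subcover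
      (fun x => {y | y ≠ x → C.Aff F (𝓝 y)}) fun x _ => Lit.punct hP x
    refine ⟨hper, Ctx.mem_A hP, t.filter (· ∈ C.A), fun b hb => (Finset.mem_filter.1 hb).2,
      fun x hx => ?_⟩
    have h1 : C.Aff F (𝓝 (Int.fract x)) := by
      by_cases h2 : Int.fract x ∈ C.A
      · have h3 := ht (show Int.fract x ∈ Icc (0 : ℝ) 1 from
          ⟨Int.fract_nonneg x, (Int.fract_lt_one x).le⟩)
        simp only [mem_iUnion] at h3
        obtain ⟨u, hu, h4⟩ := h3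
        refine h4 fun h5 => hx (Finset.mem_filter.2 ⟨h5 ▸ hu, h2⟩)
      · exact (hP _).2.2 h2
    obtain ⟨l, hl, c, -, e⟩ := h1
    have h2 : Tendsto (fun y : ℝ => y - (⌊x⌋ : ℝ)) (𝓝 x) (𝓝 (Int.fract x)) :=
      (continuous_id.sub continuous_const).tendsto x
    refine ⟨l, hl, c + ⌊x⌋ - l * ⌊x⌋, ?_⟩
    filter_upwards [h2.eventually e] with y hy
    have h3 := add_int (f := F) hper (y - (⌊x⌋ : ℝ)) ⌊x⌋
    rw [sub_add_cancel, hy] at h3
    rw [h3]; ring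

end Pool.Agent.MP_3aea93_al.H75
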