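import Pool.Agent.MP_3aea93_al.H75.Spec

/-! Lifts of maps of the circle: orientation, and maps of finite order with a fixed point. -/

set_option autoImplicit false

namespace Pool.Agent.MP_3aea93_al.H75

open Filter Topology Set

namespace Lift

theorem coe_eq_iff {a b : ℝ} :
    ((a : ℝ) : UnitAddCircle) = ((b : ℝ) : UnitAddCircle) ↔ ∃ k : ℤ, a = b + k := by
  rw [← sub_eq_zero, ← AddCircle.coe_sub, AddCircle.coe_eq_zero_iff]
  constructor
  · rintro ⟨k, hk⟩
    refine ⟨k, ?_⟩
    rw [zsmul_eq_mul, mul_one] at hk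
    linarith
  · rintro ⟨k, hk⟩
    refine ⟨k, ?_⟩
    rw [zsmul_eq_mul, mul_one]
    linarith

theorem int_const {u : ℝ → ℝ} (hu : Continuous u) (h : ∀ x, ∃ k : ℤ, u x = k) (x y : ℝ) :
    u x = u y := by
  by_contra hne
  wlog hlt : u x < u y generalizing x y
  · exact this y x (Ne.symm hne) (lt_of_le_of_ne (not_lt.1 hlt) (Ne.symm hne))
  obtain ⟨a, ha⟩ := h x
  obtain ⟨b, hb⟩ := h y
  have hab : a < b := by rw [ha, hb] at hlt; exact_mod_cast hlt
  have hab' : (a : ℝ) + 1 ≤ b := by exact_mod_cast hab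
  have h0 : (a : ℝ) + 1 / 2 ∈ range u :=
    intermediate_value_univ x y hu ⟨by linarith, by linarith⟩
  obtain ⟨z, hz⟩ := h0
  obtain ⟨c, hc⟩ := h z
  have h1 : (a : ℝ) < c := by linarith
  have h2 : (c : ℝ) < a + 1 := by linarith
  have h1' : a < c := by exact_mod_cast h1
  have h2' : c < a + 1 := by exact_mod_cast h2
  omega

theorem lift_diff {f : Equiv.Perm UnitAddCircle} {F G : ℝ → ℝ} (hF : Continuous F)
    (hG : Continuous G) (lF : IsLift f F) (lG : IsLift f G) : ∃ k : ℤ, ∀ x, F x = G x + k := by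
  have h : ∀ x, ∃ k : ℤ, F x - G x = k := fun x => by
    obtain ⟨k, hk⟩ := coe_eq_iff.1 ((lF x).symm.trans (lG x))
    exact ⟨k, by linarith⟩
  obtain ⟨k, hk⟩ := h 0
  refine ⟨k, fun x => ?_⟩
  have h1 := int_const (hF.sub hG) h x 0
  simp only [Pi.sub_apply] at h1
  linarith

theorem lift_one : IsLift 1 fun x => x := fun _ => rfl

theorem lift_mul {f g : Equiv.Perm UnitAddCircle} {F G : ℝ → ℝ} (lF : IsLift f F)
    (lG : IsLift g G) : IsLift (f * g) fun x => F (G x) := fun x => by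
  rw [Equiv.Perm.mul_apply, lG x, lF (G x)]

theorem lift_add {f : Equiv.Perm UnitAddCircle} {F : ℝ → ℝ} (lF : IsLift f F) (k : ℤ) :
    IsLift f fun x => F x + k := fun x =>
  (lF x).trans (coe_eq_iff.2 ⟨k, rfl⟩).symm

theorem lift_inv {f g : Equiv.Perm UnitAddCircle} {F G : ℝ → ℝ} (hF : Continuous F)
    (hG : Continuous G) (lF : IsLift f F) (lG : IsLift g G) (h : g * f = 1) :
    ∃ k : ℤ, ∀ x, G (F x) = x + k := by
  have h1 := lift_mul lG lF
  rw [h] at h1
  exact lift_diff (hG.comp hF) continuous_id h1 lift_one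

theorem lift_per {f : Equiv.Perm UnitAddCircle} {F : ℝ → ℝ} (hF : Continuous F)
    (hm : StrictMono F) (lF : IsLift f F) (x : ℝ) : F (x + 1) = F x + 1 := by
  have l1 : IsLift f fun x => F (x + 1) := fun x => by
    have h : ((x + 1 : ℝ) : UnitAddCircle) = ((x : ℝ) : UnitAddCircle) :=
      coe_eq_iff.2 ⟨1, by simp⟩
    rw [← h]
    exact lF (x + 1)
  obtain ⟨k, hk⟩ := lift_diff (hF.comp (continuous_add_const 1)) hF l1 lF
  have hk0 : F 1 = F 0 + k := by simpa using hk 0
  have h01 : F 0 < F 1 := hm one_pos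
  have hk1 : (0 : ℝ) < k := by linarith
  have hk2 : 1 ≤ k := by exact_mod_cast hk1
  have hk3 : (1 : ℝ) ≤ k := by exact_mod_cast hk2
  obtain ⟨y, ⟨hy0, hy1⟩, hy⟩ := intermediate_value_Icc (zero_le_one (α := ℝ)) hF.continuousOn
    (show F 0 + 1 ∈ Icc (F 0) (F 1) from ⟨by linarith, by linarith⟩)
  have h1 : f ((y : ℝ) : UnitAddCircle) = f ((0 : ℝ) : UnitAddCircle) := by
    rw [lF y, lF 0]
    exact coe_eq_iff.2 ⟨1, by rw [hy]; simp⟩
  obtain ⟨m, hm'⟩ := coe_eq_iff.1 (f.injective h1)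
  rw [zero_add] at hm'
  have hy2 : 0 < y := hm.lt_iff_lt.1 (by linarith)
  have hm1 : 0 < m := by rw [hm'] at hy2; exact_mod_cast hy2
  have hm2 : m ≤ 1 := by rw [hm'] at hy1; exact_mod_cast hy1
  have hm3 : m = 1 := by omega
  rw [hm3, Int.cast_one] at hm'
  rw [hm'] at hy
  have h2 : F (x + 1) = F x + k := hk x
  linarith

theorem lift_pow {f : Equiv.Perm UnitAddCircle} {F : ℝ → ℝ} (lF : IsLift f F) (j : ℕ) :
    IsLift (f ^ j) F^[j] := by
  induction j with
  | zero => exact lift_one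
  | succ j ih => rw [pow_succ, Function.iterate_succ]; exact lift_mul (F := F^[j]) (G := F) ih lF

theorem eq_of_iterate {F : ℝ → ℝ} (hm : Monotone F) {j : ℕ} (hj : 0 < j)
    (h : ∀ x, F^[j] x = x) (x : ℝ) : F x = x := by
  obtain ⟨i, rfl⟩ : ∃ i, j = i + 1 := ⟨j - 1, by omega⟩
  rcases le_total (F x) x with h1 | h1
  · refine le_antisymm h1 ?_
    have h2 : ∀ n : ℕ, F^[n + 1] x ≤ F x := fun n => by
      induction n with
      | zero => exact le_rfl
      | succ n ih => rw [Function.iterate_succ_apply']; exact hm (ih.trans h1)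
    simpa only [h] using h2 i
  · refine le_antisymm ?_ h1
    have h2 : ∀ n : ℕ, F x ≤ F^[n + 1] x := fun n => by
      induction n with
      | zero => exact le_rfl
      | succ n ih => rw [Function.iterate_succ_apply']; exact hm (h1.trans ih)
    simpa only [h] using h2 i

/-- the elements with an increasing continuous lift -/
def ori {H : Type} [Group H] (ρ : H →* Equiv.Perm UnitAddCircle) (hρ : ∀ h, IsC1 (ρ h)) :
    Subgroup H where
  carrier := {h | ∃ F : ℝ → ℝ, Continuous F ∧ StrictMono F ∧ IsLift (ρ h) F}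
  one_mem' := ⟨fun x => x, continuous_id, strictMono_id, by rw [map_one]; exact lift_one⟩
  mul_mem' := fun {a b} ⟨F, hF, mF, lF⟩ ⟨G, hG, mG, lG⟩ =>
    ⟨fun x => F (G x), hF.comp hG, mF.comp mG, by rw [map_mul]; exact lift_mul lF lG⟩
  inv_mem' := fun {a} ⟨F, hF, mF, lF⟩ => by
    obtain ⟨G, hG, lG⟩ := hρ a⁻¹
    obtain ⟨k, hk⟩ := lift_inv hG.continuous hF lG lF (by rw [← map_mul, mul_inv_cancel, map_one])
    refine ⟨G, hG.continuous, fun x y hxy => mF.lt_iff_lt.1 ?_, lG⟩
    rw [hk, hk]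
    linarith

end Lift

open Lift

theorem rowLift : RowLift := by
  intro H _ ρ hρ
  refine ⟨ori ρ hρ, fun h => ?_, fun h h1 => ?_, fun h hh => ?_⟩
  · obtain ⟨F, hF, lF⟩ := hρ h
    obtain ⟨G, hG, lG⟩ := hρ h⁻¹
    obtain ⟨k, hk⟩ := lift_inv hF.continuous hG.continuous lF lG
      (by rw [← map_mul, inv_mul_cancel, map_one])
    have hi : Function.Injective F := fun x y hxy => by
      have h1 := hk x
      rw [hxy, hk y] at h1
      linarith
    refine ⟨fun x => F (F x), hF.continuous.comp hF.continuous, ?_,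
      by rw [map_mul]; exact lift_mul lF lF⟩
    rcases hF.continuous.strictMono_of_inj hi with h1 | h1
    · exact h1.comp h1
    · exact h1.comp h1
  · exact ⟨fun x => x, continuous_id, strictMono_id, by rw [h1]; exact lift_one⟩
  · obtain ⟨F₀, hF₀, mF₀, lF₀⟩ := hh
    obtain ⟨F, hF, lF⟩ := hρ h
    obtain ⟨G, hG, lG⟩ := hρ h⁻¹
    obtain ⟨m, hm⟩ := lift_diff hF.continuous hF₀ lF lF₀
    have mF : StrictMono F := fun x y hxy => by
      rw [hm, hm]
      linarith [mF₀ hxy]
    obtain ⟨k, hk⟩ := lift_inv hF.continuous hG.continuous lF lG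
      (by rw [← map_mul, inv_mul_cancel, map_one])
    refine ⟨F, ⟨hF, fun x => ?_, lift_per hF.continuous mF lF⟩, lF⟩
    refine lt_of_le_of_ne mF.monotone.deriv_nonneg fun h0 => ?_
    have d1 : HasDerivAt F (deriv F x) x := (hF.differentiable one_ne_zero x).hasDerivAt
    have d2 : HasDerivAt G (deriv G (F x)) (F x) :=
      (hG.differentiable one_ne_zero (F x)).hasDerivAt
    have d3 : HasDerivAt (fun y => G (F y)) (deriv G (F x) * deriv F x) x := d2.comp x d1
    have d4 : HasDerivAt (fun y => G (F y)) 1 x := by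
      rw [show (fun y => G (F y)) = fun y => y + (k : ℝ) from funext hk]
      exact (hasDerivAt_id x).add_const _
    have h5 := d3.unique d4
    rw [← h0, mul_zero] at h5
    exact zero_ne_one h5

theorem rowTors : RowTors := by
  intro f F j z hF mF _ lF hj hf hz
  obtain ⟨x₀, rfl⟩ := QuotientAddGroup.mk_surjective z
  obtain ⟨k, hk⟩ := coe_eq_iff.1 (hz.symm.trans (lF x₀))
  have lG := lift_add lF k
  have hG : Continuous fun x => F x + (k : ℝ) := hF.add continuous_const
  have mG : Monotone fun x => F x + (k : ℝ) := mF.add_const _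
  have l1 := lift_pow lG j
  rw [hf] at l1
  obtain ⟨m, hm⟩ := lift_diff (hG.iterate j) continuous_id l1 lift_one
  have h0 : (fun x => F x + (k : ℝ))^[j] x₀ = x₀ := Function.iterate_fixed hk.symm j
  have hm0 : (m : ℝ) = 0 := by
    have h1 := hm x₀
    rw [h0] at h1
    simp only [id] at h1
    linarith
  have h2 := eq_of_iterate mG hj fun x => by rw [hm x, hm0, add_zero]; rfl
  refine Equiv.ext fun w => ?_
  obtain ⟨x, rfl⟩ := QuotientAddGroup.mk_surjective w
  exact (lG x).trans (congrArg (fun t : ℝ => (t : UnitAddCircle)) (h2 x))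

end Pool.Agent.MP_3aea93_al.H75
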