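import Pool.Agent.MP_3aea93_al.H75.C1B

/-! From the rows to the theorem. -/

set_option autoImplicit false

namespace Pool.Agent.MP_3aea93_al.H75

open Filter Topology Set

namespace Main

theorem coe_eq {x y : ℝ} : (x : UnitAddCircle) = (y : UnitAddCircle) ↔ ∃ k : ℤ, x = y + k := by
  rw [eq_comm, QuotientAddGroup.eq, AddSubgroup.mem_zmultiples_iff]
  constructor
  · rintro ⟨k, hk⟩; exact ⟨k, by rw [zsmul_one] at hk; linarith⟩
  · rintro ⟨k, hk⟩; exact ⟨k, by rw [zsmul_one]; linarith⟩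

theorem tr_zpow (c : ℝ) (k : ℤ) : tr c ^ k = tr (k * c) := by
  induction k using Int.induction_on with
  | zero => ext x; simp [tr_app]
  | succ i ih => ext x; rw [zpow_add_one, ih, mul_app, tr_app, tr_app, tr_app]; push_cast; ring
  | pred i ih =>
    ext x; rw [zpow_sub_one, ih, mul_app, tr_inv_app, tr_app, tr_app]; push_cast; ring

theorem germ_conj {g h : ℝ ≃o ℝ} {x : ℝ} (hh : ∀ᶠ y in 𝓝 x, h y = y) :
    ∀ᶠ y in 𝓝 (g x), (g * h * g⁻¹) y = y := by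
  have h1 : Tendsto (g⁻¹ : ℝ ≃o ℝ) (𝓝 (g x)) (𝓝 x) := by
    have := (g⁻¹ : ℝ ≃o ℝ).continuous.tendsto (g x)
    rwa [inv_apply] at this
  filter_upwards [h1.eventually hh] with y hy
  rw [mul_app, mul_app, hy, apply_inv]

variable {C : Ctx} (ρ : C.G →* Equiv.Perm UnitAddCircle)

/-- the point is fixed by all the elements that are trivial near `x` -/
def RR (ξ x : ℝ) : Prop :=
  ∀ g : C.G, (∀ᶠ y in 𝓝 x, (g : ℝ ≃o ℝ) y = y) → ρ g (ξ : UnitAddCircle) = ξ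

variable {ρ}

theorem mv {g : C.G} {φ : ℝ → ℝ} (h1 : Dif φ) (h2 : IsLift (ρ g) φ) : Mv (RR ρ) φ g := by
  refine ⟨h1, g.2.2, fun ξ x => ⟨fun h k hk => ?_, fun h k hk => ?_⟩⟩
  · have h3 := h (g * k * g⁻¹) (germ_conj hk)
    rw [← h2, map_mul, map_mul, map_inv] at h3
    simpa using h3
  · have h4 := germ_conj (g := (g : ℝ ≃o ℝ)⁻¹) hk
    rw [inv_apply] at h4
    have h3 := h (g⁻¹ * k * g⁻¹⁻¹) h4
    rw [inv_inv, map_mul, map_mul, map_inv] at h3
    rw [← h2]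
    have h5 := congrArg (ρ g) h3
    simpa using h5

theorem closed (h : ∀ g, IsC1 (ρ g)) : IsClosed {p : ℝ × ℝ | RR ρ p.1 p.2} := by
  refine isClosed_of_closure_subset fun p hp g hg => ?_
  obtain ⟨F, hF, hl⟩ := h g
  have h1 : IsClosed {q : ℝ × ℝ | ρ g (q.1 : UnitAddCircle) = q.1} := by
    simp only [hl _]
    exact isClosed_eq (continuous_quotient_mk'.comp (hF.continuous.comp continuous_fst))
      (continuous_quotient_mk'.comp continuous_fst)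
  have h2 : ∀ᶠ q : ℝ × ℝ in 𝓝 p, ∀ᶠ y in 𝓝 q.2, (g : ℝ ≃o ℝ) y = y :=
    (continuous_snd.tendsto p).eventually hg.eventually_nhds
  have h3 := ((mem_closure_iff_frequently.1 hp).and_eventually h2).mono fun q hq => hq.1 g hq.2
  exact h3.mem_of_closed h1

theorem per2 (ξ x : ℝ) (k : ℤ) (h : RR ρ ξ x) : RR ρ ξ (x + k) := by
  intro g hg
  refine h g ?_
  have h1 : Tendsto (fun y : ℝ => y + k) (𝓝 x) (𝓝 (x + k)) := (continuous_add_const _).tendsto x
  filter_upwards [h1.eventually hg] with y hy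
  rw [add_int g.2.2] at hy
  linarith

theorem of_map {O : Subgroup C.G} (h : C.G ≤ O.map C.G.subtype) (g : C.G) : g ∈ O := by
  obtain ⟨k, hk, e⟩ := h g.2
  obtain rfl : k = g := Subtype.ext e
  exact hk

end Main

open Main in
theorem rowMain (hG0 : RowG0) (hCC : RowCC) (hTwo : RowTwo) (hNorm : RowNorm) (hSq : RowSq)
    (hFP : RowFP) (hLift : RowLift) (hTors : RowTors) (hMany : RowMany) (hOne : RowOne) :
    RowMain := by
  intro C ρ h1 hC
  have t1 : tr 1 ∈ C.G := Ctx.tr_mem_G C.A.one_mem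
  have lift : ∀ g : C.G, ∃ φ, Dif φ ∧ IsLift (ρ g) φ := by
    obtain ⟨O, a1, a2, a3⟩ := hLift C.G ρ hC
    refine fun g => a3 g (of_map (hSq C _ ⟨⟨_, t1⟩, a2 _ (h1 _ rfl), rfl⟩ ?_) g)
    exact fun k hk => ⟨_, a1 ⟨k, hk⟩, rfl⟩
  have lift' : ∀ g : C.G, ∃ F : ℝ → ℝ, Continuous F ∧ Monotone F ∧ (∀ x, F (x + 1) = F x + 1) ∧
      IsLift (ρ g) F := fun g =>
    let ⟨φ, a1, a2⟩ := lift g; ⟨φ, a1.c1.continuous, (C1.mono a1).monotone, a1.per, a2⟩
  have base : ∃ ξ : ℝ, RR ρ ξ 0 := by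
    obtain ⟨z, hz⟩ := hFP (C.Gx 0) (ρ.comp (Subgroup.inclusion inf_le_left)) (by
        refine top_le_iff.1 fun g _ => ?_
        have a1 := hG0 C g.2
        rw [← Subgroup.map_subtype_commutator] at a1
        obtain ⟨k, hk, e⟩ := a1
        obtain rfl : k = g := Subtype.ext e
        exact hk) (by
        intro a b
        obtain ⟨t, ht, a1, a2, a3, a4⟩ := hCC C a a.2 b b.2
        exact ⟨⟨t, ht⟩, Subtype.ext a1, Subtype.ext a2, Subtype.ext a3, Subtype.ext a4⟩)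
      fun h => lift' _
    obtain ⟨ξ, rfl⟩ := QuotientAddGroup.mk_surjective z
    exact ⟨ξ, fun g hg => hz ⟨g, g.2, hg⟩⟩
  by_contra hn
  obtain ⟨T, b1, b2, b3⟩ := hMany C
  refine rowC1 (RR ρ) C.A T (closed hC) (fun ξ x k h g hg => ?_) per2 (fun ξ x y c1 c2 => ?_)
    (fun x y h => C.dense h) (fun a ha => ?_) b1 b3 (fun g hg => ?_) fun a ha s hs => ?_
  · rw [coe_eq.2 ⟨k, rfl⟩]; exact h g hg
  · by_contra hk
    push Not at hk
    have fixed : ∀ g : C.G, ρ g (ξ : UnitAddCircle) = ξ := by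
      refine fun g => of_map (O := (MulAction.stabilizer (Equiv.Perm UnitAddCircle)
        (ξ : UnitAddCircle)).comap ρ) (hTwo C _ x y hk ⟨⟨_, t1⟩, ?_, rfl⟩ ?_ ?_) g
      · show ρ _ (ξ : UnitAddCircle) = ξ
        rw [h1 _ rfl]; rfl
      · exact fun k hk => ⟨⟨k, hk.1⟩, c1 ⟨k, hk.1⟩ hk.2, rfl⟩
      · exact fun k hk => ⟨⟨k, hk.1⟩, c2 ⟨k, hk.1⟩ hk.2, rfl⟩
    refine hn fun g => of_map (O := ρ.ker) (hNorm C _ (fun c hc => ?_) ?_) g
    · refine ⟨⟨_, Ctx.tr_mem_G hc⟩, ?_, rfl⟩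
      obtain ⟨e, -, e0, -, i, j, e1, e2⟩ := C.cyc c hc 1 C.A.one_mem 1 one_pos
      have j0 : 0 < j := by
        have : (0 : ℝ) < j := (mul_pos_iff_of_pos_right e0).1 (e2 ▸ one_pos)
        exact_mod_cast this
      obtain ⟨j, rfl⟩ := Int.eq_ofNat_of_zero_le j0.le
      obtain ⟨F, f1, f2, f3, f4⟩ := lift' ⟨_, Ctx.tr_mem_G hc⟩
      refine hTors _ F j _ f1 f2 f3 f4 (by exact_mod_cast j0) ?_ (fixed _)
      have e3 : (⟨_, Ctx.tr_mem_G hc⟩ : C.G) ^ (j : ℤ) = (⟨_, t1⟩ : C.G) ^ i := by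
        refine Subtype.ext ?_
        rw [Subgroup.coe_zpow, Subgroup.coe_zpow, tr_zpow, tr_zpow]
        congr 1
        rw [e1, mul_left_comm, ← e2]
      rw [← map_pow, ← zpow_natCast, e3, map_zpow, h1 _ rfl, one_zpow]
    · rintro k hk _ ⟨s, hs, rfl⟩
      exact ⟨⟨k, hk⟩ * s * ⟨k, hk⟩⁻¹, ρ.normal_ker.conj_mem s hs _, rfl⟩
  · obtain ⟨ξ, hξ⟩ := base
    obtain ⟨φ, a1, a2⟩ := lift ⟨_, Ctx.tr_mem_G ha⟩
    have a3 := ((mv a1 a2).eqv ξ 0).2 hξ
    refine ⟨φ ξ, ?_⟩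
    simpa [tr_app] using a3
  · obtain ⟨φ, a1, a2⟩ := lift ⟨g, b2 hg⟩
    exact ⟨φ, mv a1 a2⟩
  · obtain ⟨g, hg, η, μ, a3, a4, a5, a6, a7⟩ := hOne C a ha s hs
    obtain ⟨φ, a1, a2⟩ := lift ⟨g, hg⟩
    refine ⟨φ, g, mv a1 a2, η, μ, a3, a4, a5, a6, fun ξ y c1 c2 c3 => ?_⟩
    have c4 := c1 ⟨g, hg⟩ (a7 y c2 c3).2
    rw [a2] at c4
    exact coe_eq.1 c4

/-- the map of the circle induced by a periodic map -/
def circ : Per →* Function.End UnitAddCircle where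
  toFun F := Quotient.map' (F : ℝ ≃o ℝ) fun x y h => by
    have h1 : (x : UnitAddCircle) = (y : UnitAddCircle) := Quotient.sound' h
    obtain ⟨k, rfl⟩ := Main.coe_eq.1 h1
    refine Quotient.exact' (show (((F : ℝ ≃o ℝ) (y + k) : ℝ) : UnitAddCircle) =
      (((F : ℝ ≃o ℝ) y : ℝ) : UnitAddCircle) from ?_)
    exact Main.coe_eq.2 ⟨k, add_int F.2 y k⟩
  map_one' := funext fun z => by induction z using QuotientAddGroup.induction_on; rfl
  map_mul' F F' := funext fun z => by induction z using QuotientAddGroup.induction_on; rfl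

theorem circ_lift (F : Per) : IsLift (circ.toHomPerm F) (F : ℝ ≃o ℝ) := fun _ => rfl

theorem lift_uniq {f g : Equiv.Perm UnitAddCircle} {F : ℝ → ℝ} (h1 : IsLift f F) (h2 : IsLift g F) :
    f = g := by
  ext z
  induction z using QuotientAddGroup.induction_on
  rw [h1, h2]

theorem final (hCtx : RowCtx) (hLit : RowLit) (hMain : RowMain) {k : ℕ} (n : Fin k → ℕ)
    (hk : 2 ≤ k) (hn : ∀ i, 1 < n i) (hi : LinearIndependent ℤ fun i => Real.log (n i))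
    (hg : (Finset.univ.gcd fun i => n i - 1) = 1) (ρ : TS n →* Equiv.Perm UnitAddCircle)
    (hρ : ∀ g, IsC1 (ρ g)) (g : TS n) : ρ g = 1 := by
  obtain ⟨C, hA, hL⟩ := hCtx k n hk hn hi hg
  let p : C.G →* Equiv.Perm UnitAddCircle := circ.toHomPerm.comp (Subgroup.inclusion inf_le_right)
  have hp : ∀ F : C.G, IsLift (p F) (F : ℝ ≃o ℝ) := fun F => circ_lift _
  have hm : ∀ F : C.G, p F ∈ TS n := fun F =>
    Subgroup.subset_closure ⟨F, by rw [← hA, ← hL]; exact (hLit C F).2 F.2, hp F⟩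
  have key := hMain C (ρ.comp (p.codRestrict _ hm)) (fun F hF => by
      have h1 : p.codRestrict _ hm F = 1 := Subtype.ext (lift_uniq (hp F) fun x => by
        rw [hF, tr_app]
        exact Main.coe_eq.2 ⟨-1, by push_cast; ring⟩)
      rw [MonoidHom.comp_apply, h1, map_one]) fun F => hρ _
  obtain ⟨g, hg⟩ := g
  induction hg using Subgroup.closure_induction with
  | mem f hf =>
    obtain ⟨F, h1, h2⟩ := hf
    rw [← hA, ← hL] at h1
    have h3 := key ⟨F, (hLit C F).1 h1⟩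
    rw [MonoidHom.comp_apply] at h3
    rw [← h3]
    congr 1
    exact Subtype.ext (lift_uniq h2 (hp ⟨F, (hLit C F).1 h1⟩))
  | one => exact map_one ρ
  | mul f g hf hg h1 h2 =>
    have h3 := map_mul ρ ⟨f, hf⟩ ⟨g, hg⟩
    rw [h1, h2, one_mul] at h3
    exact h3
  | inv f hf h1 =>
    have h3 := map_inv ρ ⟨f, hf⟩
    rw [h1, inv_one] at h3
    exact h3

end Pool.Agent.MP_3aea93_al.H75
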