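import Pool.Agent.MP_3aea93_al.H75.Spec

/-! The ring and the slope group attached to a tuple. -/

set_option autoImplicit false

namespace Pool.Agent.MP_3aea93_al.H75

namespace CtxR

variable {k : ℕ} {n : Fin k → ℕ}

theorem lcm_ne (hn : ∀ i, 1 < n i) : ((Finset.univ.lcm n : ℕ) : ℝ) ≠ 0 := by
  have : Finset.univ.lcm n ≠ 0 := by
    rw [Ne, Finset.lcm_eq_zero_iff]
    rintro ⟨i, -, hi⟩
    have := hn i
    omega
  exact_mod_cast this

/-- the ring -/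
def A (hn : ∀ i, 1 < n i) : Subring ℝ where
  carrier := ring n
  mul_mem' := by
    rintro _ _ ⟨j, z, rfl⟩ ⟨j', z', rfl⟩
    exact ⟨j + j', z * z', by push_cast; rw [div_mul_div_comm, pow_add]⟩
  one_mem' := ⟨0, 1, by simp⟩
  add_mem' := by
    rintro _ _ ⟨j, z, rfl⟩ ⟨j', z', rfl⟩
    refine ⟨j + j', z * (Finset.univ.lcm n : ℕ) ^ j' + z' * (Finset.univ.lcm n : ℕ) ^ j, ?_⟩
    have := lcm_ne hn
    rw [Int.cast_add, Int.cast_mul, Int.cast_mul, Int.cast_pow, Int.cast_pow, Int.cast_natCast]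
    field_simp
    ring
  zero_mem' := ⟨0, 0, by simp⟩
  neg_mem' := by
    rintro _ ⟨j, z, rfl⟩
    exact ⟨j, -z, by push_cast; rw [neg_div]⟩

theorem n_pos (hn : ∀ i, 1 < n i) (i : Fin k) : (0 : ℝ) < n i := by
  have := hn i
  exact_mod_cast (by omega : 0 < n i)

/-- the slopes -/
def L (hn : ∀ i, 1 < n i) : Submonoid ℝ where
  carrier := slopes n
  mul_mem' := by
    rintro _ _ ⟨e, rfl⟩ ⟨e', rfl⟩
    refine ⟨e + e', ?_⟩
    rw [← Finset.prod_mul_distrib]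
    exact Finset.prod_congr rfl fun i _ => by rw [Pi.add_apply, zpow_add₀ (n_pos hn i).ne']
  one_mem' := ⟨0, by simp⟩

theorem inv_mem (hn : ∀ i, 1 < n i) : ∀ l ∈ L hn, l⁻¹ ∈ L hn := by
  rintro _ ⟨e, rfl⟩
  refine ⟨-e, ?_⟩
  rw [← Finset.prod_inv_distrib]
  exact Finset.prod_congr rfl fun i _ => by rw [Pi.neg_apply, zpow_neg]

theorem n_mem (hn : ∀ i, 1 < n i) (i : Fin k) : (n i : ℝ) ∈ L hn := by
  refine ⟨fun j => if j = i then 1 else 0, ?_⟩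
  rw [Finset.prod_eq_single i]
  · simp
  · intro j _ hj; simp [hj]
  · intro h; exact absurd (Finset.mem_univ i) h

theorem sub (hn : ∀ i, 1 < n i) : ∀ l ∈ L hn, l ∈ A hn := by
  rintro _ ⟨e, rfl⟩
  refine Subring.prod_mem _ fun i _ => ?_
  obtain ⟨c, hc⟩ : n i ∣ Finset.univ.lcm n := Finset.dvd_lcm (Finset.mem_univ i)
  have h1 : (n i : ℝ)⁻¹ ∈ A hn := by
    refine ⟨1, c, ?_⟩
    have h0 := lcm_ne hn
    have h2 := (n_pos hn i).ne'
    rw [pow_one, eq_div_iff h0, hc]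
    push_cast
    field_simp
  obtain ⟨t, ht | ht⟩ := (e i).eq_nat_or_neg
  · rw [ht, zpow_natCast]; exact Subring.pow_mem _ (natCast_mem _ _) _
  · rw [ht, zpow_neg, zpow_natCast, ← inv_pow]; exact Subring.pow_mem _ h1 _

theorem cyc (hn : ∀ i, 1 < n i) (i : Fin k) : ∀ a ∈ A hn, ∀ b ∈ A hn, ∀ ε : ℝ, 0 < ε →
    ∃ e ∈ A hn, 0 < e ∧ e < ε ∧ ∃ i j : ℤ, a = i * e ∧ b = j * e := by
  rintro _ ⟨j, z, rfl⟩ _ ⟨j', z', rfl⟩ ε hε
  have h0 := lcm_ne hn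
  have h1 : (1 : ℝ) < (Finset.univ.lcm n : ℕ) := by
    have h2 : n i ≤ Finset.univ.lcm n :=
      Nat.le_of_dvd (Nat.pos_of_ne_zero (by exact_mod_cast h0)) (Finset.dvd_lcm (Finset.mem_univ i))
    have := hn i
    exact_mod_cast (by omega : 1 < Finset.univ.lcm n)
  obtain ⟨t, ht⟩ := pow_unbounded_of_one_lt ε⁻¹ h1
  refine ⟨((1 : ℤ) : ℝ) / ((Finset.univ.lcm n : ℕ) : ℝ) ^ (j + j' + t), ⟨_, 1, rfl⟩, ?_, ?_,
    z * (Finset.univ.lcm n : ℕ) ^ (j' + t), z' * (Finset.univ.lcm n : ℕ) ^ (j + t), ?_, ?_⟩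
  · rw [Int.cast_one]; positivity
  · rw [Int.cast_one, one_div]
    exact inv_lt_of_inv_lt₀ hε (ht.trans_le (pow_le_pow_right₀ h1.le (by omega)))
  · rw [Int.cast_mul, Int.cast_pow, Int.cast_natCast, Int.cast_one]
    field_simp
    ring
  · rw [Int.cast_mul, Int.cast_pow, Int.cast_natCast, Int.cast_one]
    field_simp
    ring

theorem unit_slope (hn : ∀ i, 1 < n i) (hli : LinearIndependent ℤ fun i => Real.log (n i))
    (i0 i1 : Fin k) (h01 : i0 ≠ i1) (l : ℕ) [Fact l.Prime] (hl : l ∣ n i0) :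
    ∃ κ : ℚ, (κ : ℝ) ∈ L hn ∧ 1 < κ ∧ padicValRat l κ = 0 := by
  set a := padicValNat l (n i0) with ha
  set b := padicValNat l (n i1) with hb
  have p0 : n i0 ≠ 0 := by have := hn i0; omega
  have p1 : n i1 ≠ 0 := by have := hn i1; omega
  have q0 : (n i0 : ℚ) ≠ 0 := by exact_mod_cast p0
  have q1 : (n i1 : ℚ) ≠ 0 := by exact_mod_cast p1
  have ha0 : a ≠ 0 := by
    have := one_le_padicValNat_of_dvd p0 hl
    omega
  set κ : ℚ := (n i1 : ℚ) ^ a / (n i0 : ℚ) ^ b with hκ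
  have hL : (κ : ℝ) ∈ L hn := by
    rw [hκ]; push_cast; rw [div_eq_mul_inv]
    exact (L hn).mul_mem ((L hn).pow_mem (n_mem hn i1) _)
      (inv_mem hn _ ((L hn).pow_mem (n_mem hn i0) _))
  have hv : padicValRat l κ = 0 := by
    rw [hκ, padicValRat.div (pow_ne_zero _ q1) (pow_ne_zero _ q0), padicValRat.pow,
      padicValRat.pow, padicValRat.of_nat, padicValRat.of_nat, ← ha, ← hb]
    ring
  have hpos : 0 < κ := by rw [hκ]; positivity
  have hne : κ ≠ 1 := by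
    intro h1
    rw [hκ, div_eq_one_iff_eq (pow_ne_zero _ q0)] at h1
    have h2 : (n i1 : ℝ) ^ a = (n i0 : ℝ) ^ b := by exact_mod_cast h1
    have h3 := congrArg Real.log h2
    rw [Real.log_pow, Real.log_pow] at h3
    have h4 := Fintype.linearIndependent_iff.1 hli
      (fun i => (if i = i1 then (a : ℤ) else 0) - (if i = i0 then (b : ℤ) else 0))
      (by simp [sub_mul, Finset.sum_sub_distrib, h3]) i1
    simp only [if_true, if_neg h01.symm, sub_zero] at h4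
    exact ha0 (by exact_mod_cast h4)
  rcases lt_or_gt_of_ne hne with h | h
  · refine ⟨κ⁻¹, ?_, (one_lt_inv₀ hpos).2 h, by rw [padicValRat.inv, hv, neg_zero]⟩
    rw [Rat.cast_inv]; exact inv_mem hn _ hL
  · exact ⟨κ, hL, h, hv⟩

theorem two (hn : ∀ i, 1 < n i) (hli : LinearIndependent ℤ fun i => Real.log (n i))
    (i0 i1 : Fin k) (h01 : i0 ≠ i1) :
    ∃ (p : ℕ) (u v : ℚ), p.Prime ∧ (u : ℝ) ∈ L hn ∧ (v : ℝ) ∈ L hn ∧ u < 1 ∧ 1 < v ∧
      1 < padicNorm p u ∧ 1 < padicNorm p v := by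
  obtain ⟨l, hl, hd⟩ := Nat.exists_prime_and_dvd (hn i0).ne'
  have := Fact.mk hl
  obtain ⟨κ, hL, h1, hv⟩ := unit_slope hn hli i0 i1 h01 l hd
  obtain ⟨t, ht⟩ := pow_unbounded_of_one_lt (n i0 : ℚ) h1
  have p0 : n i0 ≠ 0 := by have := hn i0; omega
  have q1 : (1 : ℚ) < n i0 := by exact_mod_cast hn i0
  have q0 : (0 : ℚ) < n i0 := by linarith
  have k0 : κ ≠ 0 := (one_pos.trans h1).ne'
  have ha := one_le_padicValNat_of_dvd p0 hd
  have hl1 : (1 : ℚ) < l := by exact_mod_cast hl.one_lt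
  have norm : ∀ x : ℚ, x ≠ 0 → padicValRat l x < 0 → 1 < padicNorm l x := by
    intro x hx h
    rw [padicNorm.eq_zpow_of_nonzero hx]
    exact one_lt_zpow₀ hl1 (by omega)
  have hu : ((n i0 : ℚ)⁻¹ : ℚ) ≠ 0 := inv_ne_zero q0.ne'
  have hvu : padicValRat l (n i0 : ℚ)⁻¹ < 0 := by
    rw [padicValRat.inv, padicValRat.of_nat]; omega
  have hiL : (((n i0 : ℚ)⁻¹ : ℚ) : ℝ) ∈ L hn := by
    push_cast; exact inv_mem hn _ (n_mem hn i0)
  refine ⟨l, (n i0 : ℚ)⁻¹, κ ^ t * (n i0 : ℚ)⁻¹, hl, hiL, ?_, inv_lt_one_of_one_lt₀ q1, ?_,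
    norm _ hu hvu, norm _ (mul_ne_zero (pow_ne_zero _ k0) hu) ?_⟩
  · rw [Rat.cast_mul, Rat.cast_pow]
    exact (L hn).mul_mem ((L hn).pow_mem hL _) hiL
  · rw [← div_eq_mul_inv, one_lt_div q0]; exact ht
  · rw [padicValRat.mul (pow_ne_zero _ k0) hu, padicValRat.pow, hv, mul_zero, zero_add]
    exact hvu

end CtxR

theorem rowCtx : RowCtx := by
  intro k n hk hn hli hg
  refine ⟨⟨CtxR.A hn, CtxR.L hn, ?_, CtxR.inv_mem hn, CtxR.sub hn, CtxR.cyc hn ⟨0, by omega⟩, ?_,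
    CtxR.two hn hli ⟨0, by omega⟩ ⟨1, by omega⟩ (by simp)⟩, rfl, rfl⟩
  · rintro _ ⟨e, rfl⟩
    exact Finset.prod_pos fun i _ => zpow_pos (CtxR.n_pos hn i) _
  · intro d hd
    refine Nat.dvd_one.1 ?_
    rw [← hg]
    exact Finset.dvd_gcd fun i _ => hd (n i) (hn i) (CtxR.n_mem hn i)

end Pool.Agent.MP_3aea93_al.H75
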