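import Pool.Agent.MP_3aea93_al.H75.Spec

/-! The relation, the set of its accumulation points, and maps of class C1. -/

set_option autoImplicit false

namespace Pool.Agent.MP_3aea93_al.H75.C1

open Filter Topology Set

/-- closed periodic relations that are graphs modulo one -/
structure Rel (R : ℝ → ℝ → Prop) : Prop where
  cl : IsClosed {p : ℝ × ℝ | R p.1 p.2}
  p1 : ∀ ξ x (k : ℤ), R ξ x → R (ξ + k) x
  p2 : ∀ ξ x (k : ℤ), R ξ x → R ξ (x + k)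
  uq : ∀ ξ x y, R ξ x → R ξ y → ∃ k : ℤ, y = x + k

/-- points where the partner is not locally constant -/
def Y (R : ℝ → ℝ → Prop) : Set ℝ :=
  {ξ | ∃ x, R ξ x ∧ ∀ r : ℝ, 0 < r → ∃ ξ' x', |ξ' - ξ| < r ∧ R ξ' x' ∧ ∀ k : ℤ, x' ≠ x + k}

variable {R : ℝ → ℝ → Prop}

theorem int_zero {k : ℤ} (h : |(k : ℝ)| < 1) : k = 0 := by
  have h1 : |k| < 1 := by exact_mod_cast h
  exact Int.abs_lt_one_iff.1 h1

theorem Rel.eq (h : Rel R) {ξ x y : ℝ} (h1 : R ξ x) (h2 : R ξ y) (h3 : |y - x| < 1) : y = x := by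
  obtain ⟨k, rfl⟩ := h.uq ξ x y h1 h2
  rw [add_sub_cancel_left] at h3
  rw [int_zero h3]; simp

theorem Rel.closed (h : Rel R) {B : Set ℝ} (hB : IsCompact B) : IsClosed {t | ∃ y ∈ B, R t y} := by
  have : CompactSpace B := isCompact_iff_compactSpace.1 hB
  have h1 : IsClosed {p : ℝ × B | R p.1 p.2} :=
    h.cl.preimage (f := fun p : ℝ × B => (p.1, (p.2 : ℝ))) (by fun_prop)
  have h2 := isClosedMap_fst_of_compactSpace _ h1
  convert h2 using 1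
  ext t
  constructor
  · rintro ⟨y, hy, e⟩; exact ⟨(t, ⟨y, hy⟩), e, rfl⟩
  · rintro ⟨p, e, rfl⟩; exact ⟨p.2, p.2.2, e⟩

theorem Rel.u1 (h : Rel R) {η : ℝ} (hη : 0 < η) : ∃ r : ℝ, 0 < r ∧ ∀ ξ x ξ' x', R ξ x → R ξ' x' →
    |ξ' - ξ| < r → ∃ k : ℤ, |x' - x - k| < η := by
  let K : Set ((ℝ × ℝ) × ℝ × ℝ) := ((Icc 0 1 ×ˢ Icc 0 1) ×ˢ Icc (-1) 2 ×ˢ Icc 0 2) ∩
    ({q | R q.1.1 q.1.2} ∩ {q | R q.2.1 q.2.2} ∩ {q | q.2.2 - q.1.2 ∈ Icc η (1 - η)})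
  have hK : IsCompact K := by
    refine ((isCompact_Icc.prod isCompact_Icc).prod (isCompact_Icc.prod isCompact_Icc)).inter_right
      (((h.cl.preimage continuous_fst).inter (h.cl.preimage continuous_snd)).inter ?_)
    exact isClosed_Icc.preimage (by fun_prop)
  obtain ⟨r, hr, h1⟩ := hK.exists_forall_le' (f := fun q => |q.2.1 - q.1.1|) (by fun_prop) (a := 0)
    (by
      rintro ⟨⟨ξ, x⟩, ξ', x'⟩ ⟨-, ⟨h1, h2⟩, h3, h4⟩
      refine abs_pos.2 fun e => ?_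
      obtain rfl : ξ' = ξ := sub_eq_zero.1 e
      have h5 := h.eq h1 h2 (abs_lt.2 ⟨by simp only at h3 ⊢; linarith, by simp only at h4 ⊢; linarith⟩)
      simp only at h3 h5
      linarith)
  refine ⟨min r 1, lt_min hr one_pos, fun ξ x ξ' x' e e' hd => ?_⟩
  by_contra hn
  push Not at hn
  have a1 := Int.fract_nonneg ξ
  have a2 := Int.fract_lt_one ξ
  have a3 := Int.fract_nonneg x
  have a4 := Int.fract_lt_one x
  have a5 := Int.fract_nonneg (x' - x)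
  have a6 := Int.fract_lt_one (x' - x)
  have a7 := abs_lt.1 (hd.trans_le (min_le_right _ _))
  have b1 := hn ⌊x' - x⌋
  have b2 := hn (⌊x' - x⌋ + 1)
  rw [Int.self_sub_floor, abs_of_nonneg a5] at b1
  have b3 : x' - x - ((⌊x' - x⌋ + 1 : ℤ) : ℝ) = Int.fract (x' - x) - 1 := by
    rw [← Int.self_sub_floor]; push_cast; ring
  rw [b3, abs_of_nonpos (by linarith)] at b2
  have c1 : R (Int.fract ξ) (Int.fract x) := by
    have := h.p2 _ _ (-⌊x⌋) (h.p1 _ _ (-⌊ξ⌋) e)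
    simpa [← sub_eq_add_neg] using this
  have c2 : R (ξ' - ⌊ξ⌋) (Int.fract x + Int.fract (x' - x)) := by
    have := h.p2 _ _ (-⌊x⌋ - ⌊x' - x⌋) (h.p1 _ _ (-⌊ξ⌋) e')
    convert this using 1
    · push_cast; ring
    · rw [← Int.self_sub_floor, ← Int.self_sub_floor]; push_cast; ring
  have c3 : Int.fract ξ = ξ - ⌊ξ⌋ := (Int.self_sub_floor ξ).symm
  have c4 := h1 ((Int.fract ξ, Int.fract x), ξ' - ⌊ξ⌋, Int.fract x + Int.fract (x' - x))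
    ⟨⟨⟨⟨a1, a2.le⟩, a3, a4.le⟩, ⟨by simp only; linarith, by simp only; linarith⟩,
      by simp only; linarith, by simp only; linarith⟩, ⟨c1, c2⟩,
      by simp only; linarith, by simp only; linarith⟩
  simp only at c4
  rw [c3, show ξ' - ⌊ξ⌋ - (ξ - ⌊ξ⌋) = ξ' - ξ by ring] at c4
  exact absurd (hd.trans_le (min_le_left _ _)) (not_lt.2 c4)

theorem Rel.Y_add (h : Rel R) {ξ : ℝ} (hξ : ξ ∈ Y R) (k : ℤ) : ξ + k ∈ Y R := by
  obtain ⟨x, e, h1⟩ := hξ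
  refine ⟨x, h.p1 _ _ k e, fun r hr => ?_⟩
  obtain ⟨ξ', x', a, b, c⟩ := h1 r hr
  exact ⟨ξ' + k, x', by rwa [add_sub_add_right_eq_sub], h.p1 _ _ k b, c⟩

theorem Rel.Y_closed (h : Rel R) : IsClosed (Y R) := by
  refine isClosed_of_closure_subset fun ξ hξ => ?_
  have h1 : Y R ⊆ {t | ∃ y ∈ Icc (0 : ℝ) 1, R t y} := by
    rintro t ⟨x, e, -⟩
    refine ⟨Int.fract x, ⟨Int.fract_nonneg x, (Int.fract_lt_one x).le⟩, ?_⟩
    simpa [← sub_eq_add_neg] using h.p2 _ _ (-⌊x⌋) e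
  obtain ⟨x, -, e⟩ := closure_minimal h1 (h.closed isCompact_Icc) hξ
  refine ⟨x, e, fun r hr => ?_⟩
  obtain ⟨ξ₁, ⟨x₁, e₁, h2⟩, h3⟩ := Metric.mem_closure_iff.1 hξ (r / 2) (by linarith)
  rw [Real.dist_eq, abs_sub_comm] at h3
  by_cases h4 : ∀ k : ℤ, x₁ ≠ x + k
  · exact ⟨ξ₁, x₁, by linarith, e₁, h4⟩
  · push Not at h4
    obtain ⟨k, rfl⟩ := h4
    obtain ⟨ξ', x', a, b, c⟩ := h2 (r / 2) (by linarith)
    refine ⟨ξ', x', ?_, b, fun j hj => c (j - k) (by rw [hj]; push_cast; ring)⟩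
    have := abs_sub_le ξ' ξ₁ ξ
    linarith

theorem dist_int {z : ℝ} (h : ∀ k : ℤ, z ≠ k) : ∃ d : ℝ, 0 < d ∧ ∀ k : ℤ, d ≤ |z - k| := by
  have a1 := Int.floor_le z
  have a2 := Int.lt_floor_add_one z
  have a3 : (⌊z⌋ : ℝ) < z := lt_of_le_of_ne a1 (h _).symm
  refine ⟨min (z - ⌊z⌋) (⌊z⌋ + 1 - z), lt_min (by linarith) (by linarith), fun k => ?_⟩
  rcases le_or_gt k ⌊z⌋ with hk | hk
  · have : (k : ℝ) ≤ ⌊z⌋ := by exact_mod_cast hk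
    exact (min_le_left _ _).trans (le_abs.2 (Or.inl (by linarith)))
  · have : (⌊z⌋ : ℝ) + 1 ≤ k := by exact_mod_cast hk
    exact (min_le_right _ _).trans (le_abs.2 (Or.inr (by linarith)))

theorem Rel.u2 (h : Rel R) {r : ℝ} (hr : 0 < r) : ∃ β : ℝ, 0 < β ∧ ∀ ξ ∈ Y R, ∀ x, R ξ x →
    ∃ ξ' x', |ξ' - ξ| < r ∧ R ξ' x' ∧ ∀ k : ℤ, β ≤ |x' - x - k| := by
  have hK : IsCompact (Icc (0 : ℝ) 1 ∩ Y R) := isCompact_Icc.inter_right h.Y_closed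
  have key : ∃ β : ℝ, 0 < β ∧ ∀ ξ ∈ Icc (0 : ℝ) 1 ∩ Y R, ∀ x, R ξ x →
      ∃ ξ' x', |ξ' - ξ| < r ∧ R ξ' x' ∧ ∀ k : ℤ, β ≤ |x' - x - k| := by
    refine hK.induction_on (p := fun s => ∃ β : ℝ, 0 < β ∧ ∀ ξ ∈ s, ∀ x, R ξ x →
      ∃ ξ' x', |ξ' - ξ| < r ∧ R ξ' x' ∧ ∀ k : ℤ, β ≤ |x' - x - k|) ⟨1, one_pos, by simp⟩ ?_ ?_ ?_
    · rintro s t hst ⟨β, h1, h2⟩
      exact ⟨β, h1, fun ξ hξ => h2 ξ (hst hξ)⟩
    · rintro s t ⟨β, h1, h2⟩ ⟨β', h1', h2'⟩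
      refine ⟨min β β', lt_min h1 h1', fun ξ hξ x e => ?_⟩
      rcases hξ with hξ | hξ
      · obtain ⟨a, b, c, d, f⟩ := h2 ξ hξ x e
        exact ⟨a, b, c, d, fun k => (min_le_left _ _).trans (f k)⟩
      · obtain ⟨a, b, c, d, f⟩ := h2' ξ hξ x e
        exact ⟨a, b, c, d, fun k => (min_le_right _ _).trans (f k)⟩
    · rintro ξ₀ ⟨-, x₀, e₀, h1⟩
      obtain ⟨ξ', x', a, b, c⟩ := h1 (r / 2) (by linarith)
      obtain ⟨d, hd, h2⟩ := dist_int (z := x' - x₀) fun k hk => c k (by linarith)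
      obtain ⟨r₁, hr₁, h3⟩ := h.u1 (η := d / 2) (by linarith)
      refine ⟨Metric.ball ξ₀ (min (r / 2) r₁), mem_nhdsWithin_of_mem_nhds
        (Metric.ball_mem_nhds _ (lt_min (by linarith) hr₁)), d / 2, by linarith, ?_⟩
      intro ξ hξ x e
      rw [Metric.mem_ball, Real.dist_eq, lt_min_iff] at hξ
      obtain ⟨k₀, hk₀⟩ := h3 _ _ _ _ e₀ e hξ.2
      refine ⟨ξ', x', ?_, b, fun k => ?_⟩
      · have := abs_sub_le ξ' ξ₀ ξ
        rw [abs_sub_comm ξ₀ ξ] at this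
        linarith [hξ.1]
      · have h4 := h2 (k + k₀)
        have h5 := abs_add_le (x' - x - k) (x - x₀ - k₀)
        rw [show x' - x - k + (x - x₀ - k₀) = x' - x₀ - ((k + k₀ : ℤ) : ℝ) by push_cast; ring] at h5
        linarith
  obtain ⟨β, hβ, h1⟩ := key
  refine ⟨β, hβ, fun ξ hξ x e => ?_⟩
  have h2 : ξ + ((-⌊ξ⌋ : ℤ) : ℝ) ∈ Icc (0 : ℝ) 1 := by
    push_cast
    constructor <;> linarith [Int.floor_le ξ, Int.lt_floor_add_one ξ]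
  obtain ⟨a, b, c, d, f⟩ := h1 _ ⟨h2, h.Y_add hξ _⟩ x (h.p1 _ _ _ e)
  refine ⟨a + (⌊ξ⌋ : ℤ), b, ?_, h.p1 _ _ _ d, f⟩
  convert c using 2
  push_cast; ring

theorem Rel.Y_nonempty (h : Rel R) {D : Set ℝ} (hD : ∀ x y : ℝ, x < y → ∃ a ∈ D, x < a ∧ a < y)
    (hR : ∀ a ∈ D, ∃ ξ, R ξ a) : (Y R).Nonempty := by
  have h1 : ∀ n : ℕ, ∃ a ξ : ℝ, 0 < a ∧ a < 1 / ((n : ℝ) + 1) ∧ ξ ∈ Icc (0 : ℝ) 1 ∧ R ξ a := by
    intro n
    obtain ⟨a, ha, h2, h3⟩ := hD 0 (1 / ((n : ℝ) + 1)) (by positivity)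
    obtain ⟨ξ, e⟩ := hR a ha
    refine ⟨a, Int.fract ξ, h2, h3, ⟨Int.fract_nonneg _, (Int.fract_lt_one _).le⟩, ?_⟩
    simpa [← sub_eq_add_neg] using h.p1 _ _ (-⌊ξ⌋) e
  choose a ξ h2 h3 h4 h5 using h1
  obtain ⟨z, -, φ, hφ, hz⟩ := isCompact_Icc.tendsto_subseq h4
  have ha : Tendsto a atTop (𝓝 0) :=
    squeeze_zero (fun n => (h2 n).le) (fun n => (h3 n).le) tendsto_one_div_add_atTop_nhds_zero_nat
  have h6 : R z 0 := h.cl.mem_of_tendsto (hz.prodMk_nhds (ha.comp hφ.tendsto_atTop))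
    (Eventually.of_forall fun n => h5 (φ n))
  refine ⟨z, 0, h6, fun r hr => ?_⟩
  obtain ⟨n, hn⟩ := (Metric.tendsto_atTop.1 hz r hr)
  refine ⟨ξ (φ n), a (φ n), hn n le_rfl, h5 _, fun k hk => ?_⟩
  have h7 : 1 / ((φ n : ℝ) + 1) ≤ 1 := by
    rw [div_le_one (by positivity)]
    linarith [(Nat.cast_nonneg (φ n) : (0 : ℝ) ≤ φ n)]
  have h8 := h2 (φ n)
  have h9 := h3 (φ n)
  rw [hk, zero_add] at h8 h9
  have h10 := int_zero (k := k) (abs_lt.2 ⟨by linarith, by linarith⟩)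
  rw [h10] at h8
  simp at h8

/-! ### Maps of class C1 -/

variable {φ : ℝ → ℝ}

theorem mono (h : Dif φ) : StrictMono φ := strictMono_of_deriv_pos h.pos

theorem diff (h : Dif φ) : Differentiable ℝ φ := h.c1.differentiable one_ne_zero

theorem deriv_int (h : Dif φ) (x : ℝ) (k : ℤ) : deriv φ (x + k) = deriv φ x := by
  have h1 : (fun y => φ (y + k)) = fun y => φ y + k := funext fun y => add_int h.per y k
  rw [← deriv_comp_add_const, h1, deriv_add_const]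

/-- the derivative varies by a factor at most `κ` on intervals of length `r` -/
def Mod (φ : ℝ → ℝ) (κ r : ℝ) : Prop := ∀ a b, |a - b| ≤ r → deriv φ a ≤ κ * deriv φ b

theorem modulus (h : Dif φ) {κ : ℝ} (hκ : 1 < κ) : ∀ᶠ r in 𝓝[>] (0 : ℝ), Mod φ κ r := by
  have hc : Continuous (deriv φ) := h.c1.continuous_deriv le_rfl
  obtain ⟨m, hm, h1⟩ := (isCompact_Icc (a := (-1 : ℝ)) (b := 2)).exists_forall_le'
    hc.continuousOn (a := 0) fun b _ => h.pos b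
  have h2 := Metric.uniformContinuousOn_iff.1
    ((isCompact_Icc (a := (-1 : ℝ)) (b := 2)).uniformContinuousOn_of_continuous hc.continuousOn)
    ((κ - 1) * m) (mul_pos (by linarith) hm)
  obtain ⟨δ, hδ, h2⟩ := h2
  have h3 : Ioo (0 : ℝ) (min δ 1) ∈ 𝓝[>] (0 : ℝ) := Ioo_mem_nhdsGT (lt_min hδ one_pos)
  filter_upwards [h3] with r hr a b hab
  have a1 := Int.floor_le b
  have a2 := Int.lt_floor_add_one b
  have a3 := abs_le.1 (hab.trans (hr.2.le.trans (min_le_right _ _)))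
  have b1 : b + ((-⌊b⌋ : ℤ) : ℝ) ∈ Icc (-1 : ℝ) 2 := by push_cast; constructor <;> linarith
  have b2 : a + ((-⌊b⌋ : ℤ) : ℝ) ∈ Icc (-1 : ℝ) 2 := by push_cast; constructor <;> linarith
  have b3 := h2 _ b2 _ b1 (by
    rw [Real.dist_eq, add_sub_add_right_eq_sub]
    exact hab.trans_lt (hr.2.trans_le (min_le_left _ _)))
  have b4 := h1 _ b1
  rw [deriv_int h, deriv_int h, Real.dist_eq] at b3
  rw [deriv_int h] at b4
  have b5 := (abs_lt.1 b3).2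
  nlinarith

theorem upper (h : Dif φ) {κ r : ℝ} (hm : Mod φ κ r) {ξ ξ' : ℝ} (hd : |ξ' - ξ| ≤ r) :
    |φ ξ' - φ ξ| ≤ κ * deriv φ ξ * |ξ' - ξ| := by
  have h0 : 0 ≤ r := (abs_nonneg _).trans hd
  refine (convex_Icc (ξ - r) (ξ + r)).norm_image_sub_le_of_norm_deriv_le (𝕜 := ℝ)
    (fun x _ => diff h x) (fun x hx => ?_) ⟨by linarith, by linarith⟩
    ⟨by linarith [(abs_le.1 hd).1], by linarith [(abs_le.1 hd).2]⟩
  rw [Real.norm_eq_abs, abs_of_pos (h.pos x)]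
  exact hm x ξ (abs_le.2 ⟨by linarith [hx.1], by linarith [hx.2]⟩)

theorem lower (h : Dif φ) {κ r : ℝ} (hκ : 0 < κ) (hm : Mod φ κ r) (ξ : ℝ) {m : ℝ} (h0 : 0 ≤ m)
    (hd : m ≤ r) : deriv φ ξ / κ * m ≤ φ (ξ + m) - φ ξ := by
  have h1 := (convex_Icc ξ (ξ + m)).mul_sub_le_image_sub_of_le_deriv (f := φ)
    (diff h).continuous.continuousOn (diff h).differentiableOn (C := deriv φ ξ / κ)
    (fun x hx => by
      have hx' := interior_subset hx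
      rw [div_le_iff₀ hκ, mul_comm]
      exact hm ξ x (abs_le.2 ⟨by linarith [hx'.2], by linarith [hx'.1]⟩))
    ξ ⟨le_rfl, by linarith⟩ (ξ + m) ⟨by linarith, le_rfl⟩ (by linarith)
  rwa [add_sub_cancel_left] at h1

variable {g : ℝ ≃o ℝ}

theorem Y_fwd (h : Mv R φ g) {ξ : ℝ} (hξ : ξ ∈ Y R) : φ ξ ∈ Y R := by
  obtain ⟨x, e, h1⟩ := hξ
  refine ⟨g x, (h.eqv _ _).2 e, fun r hr => ?_⟩
  obtain ⟨δ, hδ, h2⟩ := Metric.continuous_iff.1 (diff h.dif).continuous ξ r hr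
  obtain ⟨ξ', x', a, b, c⟩ := h1 δ hδ
  refine ⟨φ ξ', g x', h2 ξ' a, (h.eqv _ _).2 b, fun k hk => c k (g.injective ?_)⟩
  rw [hk, add_int h.per]

theorem Y_bwd (h : Mv R φ g) {ξ : ℝ} (hξ : φ ξ ∈ Y R) : ξ ∈ Y R := by
  obtain ⟨x, e, h1⟩ := hξ
  obtain ⟨x, rfl⟩ := g.surjective x
  refine ⟨x, (h.eqv _ _).1 e, fun r hr => ?_⟩
  have a1 : φ (ξ - r) < φ ξ := mono h.dif (by linarith)
  have a2 : φ ξ < φ (ξ + r) := mono h.dif (by linarith)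
  obtain ⟨ζ, x', a, b, c⟩ := h1 (min (φ ξ - φ (ξ - r)) (φ (ξ + r) - φ ξ))
    (lt_min (by linarith) (by linarith))
  obtain ⟨x', rfl⟩ := g.surjective x'
  rw [lt_min_iff, abs_lt, abs_lt] at a
  obtain ⟨ξ', h2, rfl⟩ := intermediate_value_Ioo (a := ξ - r) (b := ξ + r) (by linarith)
    (diff h.dif).continuous.continuousOn (show ζ ∈ Ioo _ _ from ⟨by linarith [a.1.1], by linarith [a.2.2]⟩)
  refine ⟨ξ', x', abs_lt.2 ⟨by linarith [h2.1], by linarith [h2.2]⟩, (h.eqv _ _).1 b,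
    fun k hk => c k ?_⟩
  rw [hk, add_int h.per]

/-- the points of `Y` in an interval have partners in `B` -/
def JP (R : ℝ → ℝ → Prop) (ξ ℓ : ℝ) (B : ℝ → Prop) : Prop :=
  ∀ u ∈ Y R, ξ ≤ u → u < ξ + ℓ → ∃ y, B y ∧ R u y

theorem JP.mono {ξ ℓ ℓ' : ℝ} {B B' : ℝ → Prop} (h : JP R ξ ℓ B) (h1 : ℓ' ≤ ℓ)
    (h2 : ∀ y, B y → B' y) : JP R ξ ℓ' B' := fun u hu a b =>
  let ⟨y, c, d⟩ := h u hu a (by linarith); ⟨y, h2 y c, d⟩

theorem JP.step (hR : Rel R) (h : Mv R φ g) {ξ ℓ : ℝ} {B B' : ℝ → Prop} (hJ : JP R ξ ℓ B)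
    (h0 : 0 ≤ ℓ) (n : ℤ) (hB : ∀ y, B y → B' (g (y + n))) :
    JP R (φ ξ) (φ (ξ + ℓ) - φ ξ) B' := by
  intro u hu a b
  obtain ⟨t, h2, rfl⟩ := intermediate_value_Ico (a := ξ) (b := ξ + ℓ) (by linarith)
    (diff h.dif).continuous.continuousOn (show u ∈ Ico _ _ from ⟨a, by linarith⟩)
  obtain ⟨y, c, d⟩ := hJ t (Y_bwd h hu) h2.1 h2.2
  exact ⟨_, hB y c, (h.eqv _ _).2 (hR.p2 _ _ n d)⟩

theorem count (E : Finset ℝ) (u : ℝ → ℝ) {δ : ℝ} (hδ : 0 < δ)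
    (h : ∀ y ∈ E, ∀ y' ∈ E, y ≠ y' → ∀ k : ℤ, ¬ (u y ≤ u y' + k ∧ u y' + k < u y + δ)) :
    (E.card : ℝ) ≤ 1 / δ + 1 := by
  have key : ∀ y ∈ E, ∀ y' ∈ E, Int.fract (u y) ≤ Int.fract (u y') →
      ⌊Int.fract (u y) / δ⌋₊ = ⌊Int.fract (u y') / δ⌋₊ → y = y' := by
    intro y hy y' hy' h1 h2
    by_contra hn
    have a1 := Nat.floor_le (div_nonneg (Int.fract_nonneg (u y)) hδ.le)
    have a2 := Nat.lt_floor_add_one (Int.fract (u y') / δ)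
    rw [← h2, div_lt_iff₀ hδ] at a2
    rw [le_div_iff₀ hδ] at a1
    have a3 := Int.self_sub_floor (u y)
    have a4 := Int.self_sub_floor (u y')
    refine h y hy y' hy' hn (⌊u y⌋ - ⌊u y'⌋) ?_
    push_cast
    constructor <;> linarith
  have h1 : E.card ≤ (Finset.range (⌊1 / δ⌋₊ + 1)).card := by
    refine Finset.card_le_card_of_injOn (fun y => ⌊Int.fract (u y) / δ⌋₊) (fun y _ => ?_) ?_
    · rw [Finset.coe_range, mem_Iio, Nat.lt_succ_iff]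
      exact Nat.floor_le_floor (div_le_div_of_nonneg_right (Int.fract_lt_one _).le hδ.le)
    · intro y hy y' hy' e
      rcases le_total (Int.fract (u y)) (Int.fract (u y')) with c | c
      · exact key y hy y' hy' c e
      · exact (key y' hy' y hy c e.symm).symm
  rw [Finset.card_range] at h1
  have h2 : (E.card : ℝ) ≤ (⌊1 / δ⌋₊ : ℝ) + 1 := by exact_mod_cast h1
  linarith [Nat.floor_le (show 0 ≤ 1 / δ by positivity)]

end Pool.Agent.MP_3aea93_al.H75.C1
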