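import Pool.Agent.MP_3aea93_al.H75.C1A

/-! The C1 argument. -/

set_option autoImplicit false

namespace Pool.Agent.MP_3aea93_al.H75

open Filter Topology Set

namespace C1

variable {R : ℝ → ℝ → Prop}

theorem slope_bd {T : Set (ℝ ≃o ℝ)} {η K a : ℝ} (hK : 1 ≤ K) {t : ℕ} {x σ : ℝ}
    (h : Reach T η K a t x σ) : K⁻¹ ≤ σ ∧ σ ≤ K := by
  cases h with
  | nil => exact ⟨inv_le_one_of_one_le₀ hK, hK⟩
  | step _ _ _ _ h1 h2 => exact ⟨h1, h2⟩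

/-- a nearby point whose partner is at a definite distance -/
def Comp (R : ℝ → ℝ → Prop) (ξ x d lo hi : ℝ) : Prop :=
  ∃ ξ' x', |ξ' - ξ| ≤ d ∧ R ξ' x' ∧ lo ≤ |x' - x| ∧ |x' - x| ≤ hi

theorem path (hR : Rel R) {T : Set (ℝ ≃o ℝ)} {η K a κ r β η' ξ₀ ℓ θ : ℝ} (hK : 1 ≤ K) (hκ : 1 < κ)
    (hr : 0 < r) (hβ : 0 < β) (hη' : 0 < η') (hη : η' ≤ η)
    (hT : ∀ g ∈ T, ∃ φ, Mv R φ g ∧ Mod φ κ r)
    (hf : ∀ ξ ∈ Y R, ∀ x, R ξ x → Comp R ξ x r β (η' / K ^ 2))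
    (h0 : ξ₀ ∈ Y R) (ha : R ξ₀ a) (hl : 0 < ℓ) (hlr : ℓ ≤ r) (hθ : 0 ≤ θ) (hKθ : K * θ ≤ η)
    (hJ : JP R ξ₀ ℓ fun y => |y - a| ≤ θ) {t : ℕ} {x σ : ℝ} (h : Reach T η K a t x σ) :
    ∃ ξ ∈ Y R, R ξ x ∧ ∃ Q : ℝ, 0 < Q ∧ Q ≤ 1 ∧
      JP R ξ (ℓ * Q / κ ^ (2 * t)) (fun y => |y - x| ≤ σ * θ) ∧
      Comp R ξ x (r * Q) (σ * β / K) (σ * η' / K) := by
  have hK0 : 0 < K := by linarith
  have fresh : ∀ ξ ∈ Y R, ∀ x σ : ℝ, R ξ x → K⁻¹ ≤ σ → σ ≤ K →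
      Comp R ξ x (r * 1) (σ * β / K) (σ * η' / K) := by
    intro ξ hξ x σ e h1 h2
    obtain ⟨ξ', x', a1, a2, a3, a4⟩ := hf ξ hξ x e
    refine ⟨ξ', x', by linarith, a2, le_trans ?_ a3, a4.trans ?_⟩
    · rw [div_le_iff₀ hK0]; nlinarith
    · have h3 : η' / K ^ 2 = K⁻¹ * η' / K := by field_simp
      rw [h3]
      gcongr
  induction h with
  | nil =>
    refine ⟨ξ₀, h0, ha, 1, one_pos, le_rfl, hJ.mono (by simp) fun y hy => by simpa using hy, ?_⟩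
    exact fresh ξ₀ h0 a 1 ha (inv_le_one_of_one_le₀ hK) hK
  | @step t x σ l g n h1 h2 h3 h4 h5 ih =>
    obtain ⟨ξ, hξ, e, Q, hQ, hQ1, hJ', ξ', x', c1, c2, c3, c4⟩ := ih
    obtain ⟨φ, hφ, hm⟩ := hT g h2
    obtain ⟨s1, s2⟩ := slope_bd hK h1
    have hσ : 0 < σ := lt_of_lt_of_le (by positivity) s1
    have hl0 : 0 < l := by
      have : 0 < l * σ := lt_of_lt_of_le (by positivity) h4
      exact (mul_pos_iff_of_pos_right hσ).1 this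
    have hκ0 : 0 < κ := by linarith
    have hp : 1 ≤ κ ^ (2 * t) := one_le_pow₀ hκ.le
    have hD := hφ.dif.pos ξ
    have m0 : 0 < ℓ * Q / κ ^ (2 * t) := by positivity
    have m1 : ℓ * Q / κ ^ (2 * t) ≤ r := by
      rw [div_le_iff₀ (by positivity)]
      nlinarith
    have e' : R (φ ξ) (g (x + n)) := (hφ.eqv _ _).2 (hR.p2 _ _ n e)
    have hJ2 : JP R (φ ξ) (ℓ * (Q * κ * deriv φ ξ) / κ ^ (2 * (t + 1)))
        fun y => |y - g (x + n)| ≤ l * σ * θ := by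
      refine (hJ'.step hR hφ m0.le n (B' := fun y => |y - g (x + n)| ≤ l * σ * θ) ?_).mono ?_
        fun _ hy => hy
      · intro y hy
        have h6 : |y - x| ≤ η := hy.trans ((mul_le_mul_of_nonneg_right s2 hθ).trans hKθ)
        rw [h3 y h6, add_sub_cancel_left, abs_mul, abs_of_pos hl0, mul_assoc]
        exact mul_le_mul_of_nonneg_left hy hl0.le
      · refine le_trans (le_of_eq ?_) (lower hφ.dif hκ0 hm ξ m0.le m1)
        rw [show 2 * (t + 1) = 2 * t + 2 by ring, pow_add]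
        field_simp
    by_cases hc : Q * κ * deriv φ ξ ≤ 1
    · refine ⟨φ ξ, Y_fwd hφ hξ, e', Q * κ * deriv φ ξ, by positivity, hc, hJ2, φ ξ', g (x' + n),
        ?_, (hφ.eqv _ _).2 (hR.p2 _ _ n c2), ?_⟩
      · refine (upper hφ.dif hm (c1.trans (by nlinarith))).trans ?_
        calc κ * deriv φ ξ * |ξ' - ξ| ≤ κ * deriv φ ξ * (r * Q) := by gcongr
          _ = r * (Q * κ * deriv φ ξ) := by ring
      · have h6 : |x' - x| ≤ η := by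
          refine c4.trans (le_trans ?_ hη)
          rw [div_le_iff₀ hK0]; nlinarith
        rw [h3 x' h6, add_sub_cancel_left, abs_mul, abs_of_pos hl0, mul_assoc, mul_assoc,
          mul_div_assoc, mul_div_assoc l]
        exact ⟨mul_le_mul_of_nonneg_left c3 hl0.le, mul_le_mul_of_nonneg_left c4 hl0.le⟩
    · refine ⟨φ ξ, Y_fwd hφ hξ, e', 1, one_pos, le_rfl, hJ2.mono ?_ fun _ hy => hy,
        fresh _ (Y_fwd hφ hξ) _ _ e' h4 h5⟩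
      gcongr
      exact (not_le.1 hc).le

theorem cross (hR : Rel R) {α β s a x₀ xα xβ : ℝ} (hαβ : α ≤ β)
    (hall : ∀ t ∈ Icc α β, ∃ y, |y - x₀| ≤ 1 / 8 ∧ R t y) (h1 : R α xα) (h2 : R β xβ)
    (h3 : |xα - x₀| ≤ 1 / 8) (h4 : |xβ - x₀| ≤ 1 / 8) (h5 : s * (xα - a) < 0)
    (h6 : 0 < s * (xβ - a)) : ∃ ξ, R ξ a ∧ |a - x₀| ≤ 1 / 8 ∧
      (∃ ℓ : ℝ, 0 < ℓ ∧ ∀ u, ξ ≤ u → u < ξ + ℓ → ∃ y, |y - x₀| ≤ 1 / 8 ∧ R u y ∧ 0 ≤ s * (y - a)) ∧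
      ∀ r : ℝ, 0 < r → ∃ t, ξ - r < t ∧ t < ξ ∧ ∃ y, |y - x₀| ≤ 1 / 8 ∧ R t y ∧ s * (y - a) < 0 := by
  have near : ∀ {t y y' : ℝ}, R t y → R t y' → |y - x₀| ≤ 1 / 8 → |y' - x₀| ≤ 1 / 8 → y' = y := by
    intro t y y' a1 a2 a3 a4
    rw [abs_le] at a3 a4
    exact hR.eq a1 a2 (abs_lt.2 ⟨by linarith [a3.2, a4.1], by linarith [a3.1, a4.2]⟩)
  have hB : IsCompact {y : ℝ | |y - x₀| ≤ 1 / 8} := by
    have : {y : ℝ | |y - x₀| ≤ 1 / 8} = Metric.closedBall x₀ (1 / 8) := by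
      ext y; simp [Real.dist_eq]
    rw [this]; exact isCompact_closedBall _ _
  have k1 := hR.closed (hB.inter_right (t := {y | s * (y - a) ≤ 0})
    (isClosed_le (by fun_prop) continuous_const))
  have k2 := hR.closed (hB.inter_right (t := {y | 0 ≤ s * (y - a)})
    (isClosed_le continuous_const (by fun_prop)))
  set S : Set ℝ := {t | t ∈ Icc α β ∧ ∃ y, |y - x₀| ≤ 1 / 8 ∧ R t y ∧ s * (y - a) < 0} with hS
  have n1 : α ∈ S := ⟨⟨le_rfl, hαβ⟩, xα, h3, h1, h5⟩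
  have n2 : BddAbove S := ⟨β, fun t ht => ht.1.2⟩
  have n3 : sSup S ∈ closure S := csSup_mem_closure ⟨α, n1⟩ n2
  have n4 : α ≤ sSup S := le_csSup n2 n1
  have n5 : sSup S ≤ β := csSup_le ⟨α, n1⟩ fun t ht => ht.1.2
  obtain ⟨y₁, ⟨y1, y2⟩, y3⟩ := closure_minimal (s := S) (by
    rintro t ⟨_, y, b1, b2, b3⟩; exact ⟨y, ⟨b1, b3.le⟩, b2⟩) k1 n3
  replace y1 : |y₁ - x₀| ≤ 1 / 8 := y1
  replace y2 : s * (y₁ - a) ≤ 0 := y2
  have n6 : sSup S < β := by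
    refine lt_of_le_of_ne n5 fun e => ?_
    rw [e] at y3
    rw [near h2 y3 h4 y1] at y2
    exact absurd h6 (not_lt.2 y2)
  have n7 : ∀ u, sSup S < u → u ≤ β → ∃ y, |y - x₀| ≤ 1 / 8 ∧ R u y ∧ 0 ≤ s * (y - a) := by
    intro u b1 b2
    obtain ⟨y, b3, b4⟩ := hall u ⟨by linarith, b2⟩
    refine ⟨y, b3, b4, not_lt.1 fun b5 => ?_⟩
    exact absurd (le_csSup n2 ⟨⟨by linarith, b2⟩, y, b3, b4, b5⟩) (not_le.2 b1)
  have n8 : sSup S ∈ closure (Ioc (sSup S) β) := by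
    rw [closure_Ioc n6.ne]; exact ⟨le_rfl, n5⟩
  obtain ⟨y₂, ⟨z1, z2⟩, z3⟩ := closure_minimal (s := Ioc (sSup S) β) (by
    intro t ht
    obtain ⟨y, b1, b2, b3⟩ := n7 t ht.1 ht.2
    exact ⟨y, ⟨b1, b3⟩, b2⟩) k2 n8
  replace z1 : |y₂ - x₀| ≤ 1 / 8 := z1
  replace z2 : 0 ≤ s * (y₂ - a) := z2
  obtain rfl : y₂ = y₁ := near y3 z3 y1 z1
  have hs : s ≠ 0 := fun e => by simp [e] at h5
  have n9 : y₂ = a := by
    have := le_antisymm y2 z2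
    exact sub_eq_zero.1 ((mul_eq_zero.1 this).resolve_left hs)
  subst n9
  refine ⟨sSup S, z3, z1, ⟨β - sSup S, by linarith, fun u b1 b2 => ?_⟩, fun r hr => ?_⟩
  · rcases b1.eq_or_lt with rfl | b1
    · exact ⟨y₂, z1, z3, z2⟩
    · exact n7 u b1 (by linarith)
  · obtain ⟨t, ht, b1⟩ := exists_lt_of_lt_csSup ⟨α, n1⟩ (show sSup S - r < sSup S by linarith)
    refine ⟨t, b1, lt_of_le_of_ne (le_csSup n2 ht) fun e => ?_, ht.2⟩
    obtain ⟨y, b2, b3, b4⟩ := ht.2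
    rw [e] at b3
    rw [near z3 b3 z1 b2] at b4
    simp at b4

theorem shift (hR : Rel R) {φ : ℝ → ℝ} {g : ℝ ≃o ℝ} (h : Mv R φ g) (k : ℤ) :
    Mv R (fun ξ => φ ξ - k) g := by
  refine ⟨⟨h.dif.c1.sub contDiff_const, fun x => ?_, fun x => ?_⟩, h.per, fun ξ x => ?_⟩
  · rw [deriv_sub_const]; exact h.dif.pos x
  · rw [h.dif.per]; ring
  · rw [← h.eqv ξ x]
    constructor
    · intro e; simpa using hR.p1 _ _ k e
    · intro e; simpa [← sub_eq_add_neg] using hR.p1 _ _ (-k) e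

/-- intervals that shrink slowly and whose partners shrink fast -/
def Start (R : ℝ → ℝ → Prop) : Prop := ∃ ξ ∈ Y R, ∃ a, R ξ a ∧ ∀ κ : ℝ, 1 < κ → ∃ c : ℝ, 0 < c ∧
  ∀ N : ℕ, JP R ξ (c / κ ^ N) fun y => |y - a| ≤ (1 / 2) ^ N

theorem start_gap (hR : Rel R) (h0 : (Y R).Nonempty) {v : ℝ} (hv : v ∉ Y R) : Start R := by
  obtain ⟨z, hz⟩ := h0
  have n1 : (Y R ∩ Iic v).Nonempty := by
    refine ⟨z + ((⌊v - z⌋ : ℤ) : ℝ), hR.Y_add hz _, ?_⟩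
    rw [mem_Iic]; linarith [Int.floor_le (v - z)]
  have n2 : BddAbove (Y R ∩ Iic v) := ⟨v, fun t ht => ht.2⟩
  have n3 := (hR.Y_closed.inter isClosed_Iic).csSup_mem n1 n2
  set ξ := sSup (Y R ∩ Iic v) with hξ
  have n4 : ξ < v := lt_of_le_of_ne n3.2 fun e => hv (e ▸ n3.1)
  obtain ⟨a, ha, -⟩ := id n3.1
  refine ⟨ξ, n3.1, a, ha, fun κ hκ => ⟨v - ξ, by linarith, fun N u hu b1 b2 => ?_⟩⟩
  have b3 : (v - ξ) / κ ^ N ≤ v - ξ := div_le_self (by linarith) (one_le_pow₀ hκ.le)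
  have b4 : u ≤ ξ := le_csSup n2 ⟨hu, show u ≤ v by linarith⟩
  obtain rfl : u = ξ := le_antisymm b4 b1
  exact ⟨a, by simp, ha⟩

theorem start_of (hR : Rel R) (hY : ∀ ξ, ξ ∈ Y R) {s a x₀ ξ η μ : ℝ} (hs : s = 1 ∨ s = -1)
    {φ : ℝ → ℝ} {g : ℝ ≃o ℝ} (hφ : Mv R φ g) (hη : 0 < η) (hμ : 0 < μ) (hμ2 : μ ≤ 1 / 2)
    (h1 : ∀ y, 0 ≤ s * (y - a) → s * (y - a) ≤ η → g y = a + μ * (y - a))
    (h2 : ∀ ξ y, R ξ y → -η < s * (y - a) → s * (y - a) < 0 → ∃ k : ℤ, φ ξ = ξ + k)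
    (e : R ξ a) (ha : |a - x₀| ≤ 1 / 8)
    (h3 : ∃ ℓ : ℝ, 0 < ℓ ∧ ∀ u, ξ ≤ u → u < ξ + ℓ → ∃ y, |y - x₀| ≤ 1 / 8 ∧ R u y ∧ 0 ≤ s * (y - a))
    (h4 : ∀ r : ℝ, 0 < r →
      ∃ t, ξ - r < t ∧ t < ξ ∧ ∃ y, |y - x₀| ≤ 1 / 8 ∧ R t y ∧ s * (y - a) < 0) : Start R := by
  have habs : ∀ z : ℝ, |s * z| = |z| := by rcases hs with rfl | rfl <;> simp
  obtain ⟨r₁, hr₁, u1⟩ := hR.u1 (η := min η (1 / 4)) (lt_min hη (by norm_num))
  have near : ∀ t y, |t - ξ| < r₁ → R t y → |y - x₀| ≤ 1 / 8 → |s * (y - a)| < min η (1 / 4) := by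
    intro t y b1 b2 b3
    obtain ⟨k, hk⟩ := u1 _ _ _ _ e b2 b1
    have b4 := abs_lt.1 (hk.trans_le (min_le_right _ _))
    rw [abs_le] at ha b3
    have b5 := int_zero (k := k) (abs_lt.2 ⟨by linarith [b4.2, ha.2, b3.1], by linarith [b4.1, ha.1, b3.2]⟩)
    rw [habs]
    simpa [b5] using hk
  have fixp : ∀ r : ℝ, 0 < r → ∃ t, ξ - r < t ∧ t < ξ ∧ ∃ k : ℤ, φ t = t + k := by
    intro r hr
    obtain ⟨t, b1, b2, y, b3, b4, b5⟩ := h4 (min r r₁) (lt_min hr hr₁)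
    have b6 := near t y (abs_lt.2 ⟨by linarith [min_le_right r r₁], by linarith⟩) b4 b3
    exact ⟨t, by linarith [min_le_left r r₁], b2,
      h2 t y b4 (by linarith [(abs_lt.1 b6).1, min_le_left η (1 / 4)]) b5⟩
  have hc : Continuous fun t => φ t - t := (diff hφ.dif).continuous.sub continuous_id
  obtain ⟨δ, hδ, c1⟩ := Metric.continuous_iff.1 hc ξ (1 / 2) (by norm_num)
  obtain ⟨t₀, a1, a2, k, a3⟩ := fixp δ hδ
  have fq : ∃ᶠ t in 𝓝[≠] ξ, φ t - k - t = 0 := by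
    rw [(nhdsWithin_hasBasis Metric.nhds_basis_ball {ξ}ᶜ).frequently_iff]
    intro r hr
    obtain ⟨t, b1, b2, j, b3⟩ := fixp (min r δ) (lt_min hr hδ)
    have b4 := c1 t (by rw [Real.dist_eq]; exact abs_lt.2 ⟨by linarith [min_le_right r δ], by linarith⟩)
    have b5 := c1 t₀ (by rw [Real.dist_eq]; exact abs_lt.2 ⟨by linarith, by linarith⟩)
    rw [Real.dist_eq, abs_lt] at b4 b5
    have b6 := int_zero (k := j - k) (by
      push_cast; exact abs_lt.2 ⟨by linarith [b4.1, b5.2], by linarith [b4.2, b5.1]⟩)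
    refine ⟨t, ⟨?_, b2.ne⟩, ?_⟩
    · rw [Metric.mem_ball, Real.dist_eq]
      exact abs_lt.2 ⟨by linarith [min_le_left r δ], by linarith⟩
    · rw [b3, sub_eq_zero.1 b6]; ring
  have hψ := shift hR hφ k
  set ψ : ℝ → ℝ := fun ξ => φ ξ - k with hψd
  have d1 : HasDerivAt (fun t => ψ t - t) (deriv ψ ξ - 1) ξ :=
    ((diff hψ.dif) ξ).hasDerivAt.sub (hasDerivAt_id ξ)
  have d2 : deriv ψ ξ = 1 := by
    by_contra hn
    exact fq (d1.eventually_ne (c := 0) (sub_ne_zero.2 hn))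
  have d3 : ψ ξ = ξ := by
    by_contra hn
    have := d1.continuousAt.eventually_ne (y := 0) (sub_ne_zero.2 hn)
    exact fq (this.filter_mono nhdsWithin_le_nhds)
  obtain ⟨ℓ, hℓ, h3⟩ := h3
  refine ⟨ξ, hY ξ, a, e, fun κ hκ => ?_⟩
  obtain ⟨r, hm, hr⟩ := ((modulus hψ.dif hκ).and self_mem_nhdsWithin).exists
  have hr : 0 < r := hr
  have hκ0 : 0 < κ := by linarith
  have hc0 : 0 < min (min ℓ r₁) r := lt_min (lt_min hℓ hr₁) hr
  refine ⟨min (min ℓ r₁) r, hc0, fun N => ?_⟩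
  have key : JP R ξ (min (min ℓ r₁) r / κ ^ N)
      fun y => 0 ≤ s * (y - a) ∧ s * (y - a) ≤ min η (1 / 4) * (1 / 2) ^ N := by
    induction N with
    | zero =>
      intro u _ b1 b2
      rw [pow_zero, div_one] at b2
      have b3 := (min_le_left _ r).trans (min_le_left ℓ r₁)
      have b4 := (min_le_left _ r).trans (min_le_right ℓ r₁)
      obtain ⟨y, b5, b6, b7⟩ := h3 u b1 (by linarith)
      have b8 := near u y (abs_lt.2 ⟨by linarith, by linarith⟩) b6 b5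
      exact ⟨y, ⟨b7, by simpa using (abs_lt.1 b8).2.le⟩, b6⟩
    | succ N ih =>
      have m0 : 0 ≤ min (min ℓ r₁) r / κ ^ N := by positivity
      have m1 : min (min ℓ r₁) r / κ ^ N ≤ r :=
        (div_le_self hc0.le (one_le_pow₀ hκ.le)).trans (min_le_right _ _)
      have m2 := lower hψ.dif hκ0 hm ξ m0 m1
      have m3 := ih.step hR hψ m0 0
        (B' := fun y => 0 ≤ s * (y - a) ∧ s * (y - a) ≤ min η (1 / 4) * (1 / 2) ^ (N + 1)) (by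
          rintro y ⟨b1, b2⟩
          have b3 : ((1 : ℝ) / 2) ^ N ≤ 1 := pow_le_one₀ (by norm_num) (by norm_num)
          have b4 : 0 < min η (1 / 4) := lt_min hη (by norm_num)
          have b5 : s * (y - a) ≤ η := by nlinarith [min_le_left η (1 / 4)]
          rw [Int.cast_zero, add_zero, h1 y b1 b5, add_sub_cancel_left, mul_left_comm, pow_succ]
          exact ⟨by positivity, by nlinarith⟩)
      rw [d3] at m3
      rw [d2, d3] at m2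
      refine m3.mono (le_trans (le_of_eq ?_) m2) fun _ hy => hy
      rw [pow_succ]; field_simp
  refine key.mono le_rfl fun y hy => ?_
  rw [← habs, abs_of_nonneg hy.1]
  refine hy.2.trans ?_
  have b1 : min η (1 / 4) ≤ 1 := (min_le_right _ _).trans (by norm_num)
  have b2 : 0 < ((1 : ℝ) / 2) ^ N := by positivity
  nlinarith

theorem start (hR : Rel R) {D : Set ℝ} (hD : ∀ x y : ℝ, x < y → ∃ a ∈ D, x < a ∧ a < y)
    (hDR : ∀ a ∈ D, ∃ ξ, R ξ a)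
    (h : ∀ a ∈ D, ∀ s : ℝ, s = 1 ∨ s = -1 → ∃ φ g, Mv R φ g ∧ ∃ η μ : ℝ, 0 < η ∧ 0 < μ ∧
      μ ≤ 1 / 2 ∧ (∀ y, 0 ≤ s * (y - a) → s * (y - a) ≤ η → g y = a + μ * (y - a)) ∧
      ∀ ξ y, R ξ y → -η < s * (y - a) → s * (y - a) < 0 → ∃ k : ℤ, φ ξ = ξ + k) : Start R := by
  by_cases hY : ∀ ξ, ξ ∈ Y R
  swap
  · push Not at hY
    obtain ⟨v, hv⟩ := hY
    exact start_gap hR (hR.Y_nonempty hD hDR) hv
  obtain ⟨x₀, e₀, h1⟩ := hY 0
  obtain ⟨r, hr, u1⟩ := hR.u1 (η := 1 / 8) (by norm_num)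
  have near : ∀ t x, |t - 0| < r → R t x → ∃ k : ℤ, |x + k - x₀| ≤ 1 / 8 := by
    intro t x b1 b2
    obtain ⟨k, hk⟩ := u1 _ _ _ _ e₀ b2 b1
    refine ⟨-k, ?_⟩
    rw [show x + ((-k : ℤ) : ℝ) - x₀ = x - x₀ - k by push_cast; ring]
    exact hk.le
  obtain ⟨ξ', x', b1, b2, b3⟩ := h1 r hr
  obtain ⟨k, hk⟩ := near ξ' x' b1 b2
  have b4 := hR.p2 _ _ k b2
  have b5 : x' + k ≠ x₀ := fun e => b3 (-k) (by rw [← e]; push_cast; ring)
  have all : ∀ t, |t - 0| < r → ∃ y, |y - x₀| ≤ 1 / 8 ∧ R t y := by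
    intro t ht
    obtain ⟨x, e, -⟩ := hY t
    obtain ⟨j, hj⟩ := near t x ht e
    exact ⟨_, hj, hR.p2 _ _ j e⟩
  have main : ∀ α β xα xβ : ℝ, α ≤ β → |α - 0| < r → |β - 0| < r → R α xα → R β xβ →
      |xα - x₀| ≤ 1 / 8 → |xβ - x₀| ≤ 1 / 8 → xα ≠ xβ → Start R := by
    intro α β xα xβ c1 c2 c3 c4 c5 c6 c7 c8
    have c9 : ∃ a ∈ D, ∃ s : ℝ, (s = 1 ∨ s = -1) ∧ s * (xα - a) < 0 ∧ 0 < s * (xβ - a) := by
      rcases lt_or_gt_of_ne c8 with c | c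
      · obtain ⟨a, ha, d1, d2⟩ := hD _ _ c
        exact ⟨a, ha, 1, Or.inl rfl, by linarith, by linarith⟩
      · obtain ⟨a, ha, d1, d2⟩ := hD _ _ c
        exact ⟨a, ha, -1, Or.inr rfl, by linarith, by linarith⟩
    obtain ⟨a, ha, s, hs, d1, d2⟩ := c9
    obtain ⟨ξ, f1, f2, f3, f4⟩ := cross hR c1 (fun t ht => all t (abs_lt.2
      ⟨by linarith [ht.1, (abs_lt.1 c2).1], by linarith [ht.2, (abs_lt.1 c3).2]⟩)) c4 c5 c6 c7 d1 d2
    obtain ⟨φ, g, g1, η, μ, g2, g3, g4, g5, g6⟩ := h a ha s hs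
    exact start_of hR hY hs g1 g2 g3 g4 g5 g6 f1 f2 f3 f4
  rcases le_total 0 ξ' with c | c
  · exact main 0 ξ' x₀ _ c (by simpa using hr) b1 e₀ b4 (by simp) hk b5.symm
  · exact main ξ' 0 _ x₀ c b1 (by simpa using hr) b4 e₀ hk (by simp) b5

theorem final (hR : Rel R) {T : Set (ℝ ≃o ℝ)} (hT : T.Finite) (hM : Many T)
    (hφ : ∀ g ∈ T, ∃ φ, Mv R φ g) (hS : Start R) : False := by
  obtain ⟨η, K, M, hη, hK, hM1, hM⟩ := hM
  obtain ⟨ξ₀, h0, a, ha, hS⟩ := hS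
  have hK0 : 0 < K := by linarith
  obtain ⟨κ, hκ, hκ2⟩ : ∃ κ : ℝ, 1 < κ ∧ κ ^ (M + 2) < 3 / 2 := by
    have h1 : ∀ᶠ κ in 𝓝 (1 : ℝ), κ ^ (M + 2) < 3 / 2 :=
      (continuous_pow (M + 2)).continuousAt.eventually_lt continuousAt_const (by norm_num)
    obtain ⟨κ, h2, h3⟩ := ((h1.filter_mono (nhdsWithin_le_nhds (s := Ioi 1))).and
      self_mem_nhdsWithin).exists
    exact ⟨κ, h3, h2⟩
  have hκ0 : 0 < κ := by linarith
  obtain ⟨c, hc, hS⟩ := hS κ hκ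
  choose! φ hφ using hφ
  set η' : ℝ := min η (1 / 4) with hη'
  have hη0 : 0 < η' := lt_min hη (by norm_num)
  obtain ⟨r₁, hr₁, u1⟩ := hR.u1 (η := η' / K ^ 2) (by positivity)
  obtain ⟨r, ⟨hm, hr⟩⟩ : ∃ r : ℝ, (∀ g ∈ T, Mod (φ g) κ r) ∧ r ∈ Ioo 0 r₁ :=
    (((eventually_all_finite hT).2 fun g hg => modulus (hφ g hg).dif hκ).and
      (Ioo_mem_nhdsGT hr₁)).exists
  obtain ⟨β, hβ, u2⟩ := hR.u2 hr.1
  have hf : ∀ ξ ∈ Y R, ∀ x, R ξ x → Comp R ξ x r β (η' / K ^ 2) := by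
    intro ξ hξ x e
    obtain ⟨ξ', x', b1, b2, b3⟩ := u2 ξ hξ x e
    obtain ⟨k, hk⟩ := u1 _ _ _ _ e b2 (b1.trans hr.2)
    have b4 : x' + ((-k : ℤ) : ℝ) - x = x' - x - k := by push_cast; ring
    exact ⟨ξ', _, b1.le, hR.p2 _ _ (-k) b2, b4 ▸ b3 k, b4 ▸ hk.le⟩
  obtain ⟨r₂, hr₂, u3⟩ := hR.u1 (η := min (β / K ^ 2) (1 / 4)) (lt_min (by positivity) (by norm_num))
  obtain ⟨N₁, hN₁⟩ := exists_pow_lt_of_lt_one (x := min η 1 / K) (y := (1 / 2 : ℝ))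
    (div_pos (lt_min hη one_pos) hK0) (by norm_num)
  rw [lt_div_iff₀ hK0] at hN₁
  have hc0 : 0 < min c r := lt_min hc hr.1
  have bound : ∀ t : ℕ, (2 : ℝ) ^ t ≤ κ ^ N₁ * r / (min c r * r₂) * (3 / 2) ^ t + 1 := by
    intro t
    obtain ⟨E, hE, hE1, hE2⟩ := hM a t
    have p1 : 1 ≤ κ ^ (N₁ + M * t) := one_le_pow₀ hκ.le
    have p2 : ((1 : ℝ) / 2) ^ (M * t) ≤ ((M : ℝ) ^ t)⁻¹ := by
      rw [pow_mul, ← inv_pow]
      refine pow_le_pow_left₀ (by positivity) ?_ t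
      rw [one_div, inv_pow]
      refine inv_anti₀ (by exact_mod_cast hM1) ?_
      exact_mod_cast Nat.lt_two_pow_self.le
    have p3 : ((1 : ℝ) / 2) ^ (M * t) ≤ 1 := pow_le_one₀ (by norm_num) (by norm_num)
    have p4 : 0 < ((1 : ℝ) / 2) ^ (M * t) := by positivity
    have p5 : K * ((1 : ℝ) / 2) ^ (N₁ + M * t) < min η 1 * (1 / 2) ^ (M * t) := by
      rw [pow_add, ← mul_assoc, mul_comm K]
      exact mul_lt_mul_of_pos_right hN₁ p4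
    have p6 : K * ((1 : ℝ) / 2) ^ (N₁ + M * t) ≤ η := by nlinarith [min_le_left η 1]
    have p7 : K * ((1 : ℝ) / 2) ^ (N₁ + M * t) < ((M : ℝ) ^ t)⁻¹ := by nlinarith [min_le_right η 1]
    have hl : 0 < min c r / κ ^ (N₁ + M * t) := by positivity
    have key : ∀ y ∈ E, ∃ ξ ∈ Y R, R ξ y ∧ JP R ξ (min c r / κ ^ (N₁ + M * t) * (r₂ / r) / κ ^ (2 * t))
        fun z => |z - y| < ((M : ℝ) ^ t)⁻¹ := by
      intro y hy
      obtain ⟨σ, hσ⟩ := hE1 y hy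
      obtain ⟨s1, s2⟩ := slope_bd hK hσ
      obtain ⟨ξ, b1, b2, Q, b3, -, b5, ξ', x', c1, c2, c3, c4⟩ := path hR hK hκ hr.1 hβ hη0
        (min_le_left _ _) (fun g hg => ⟨φ g, hφ g hg, hm g hg⟩) hf h0 ha hl
        ((div_le_self hc0.le p1).trans (min_le_right _ _)) (by positivity) p6
        ((hS (N₁ + M * t)).mono (by gcongr; exact min_le_left _ _) fun _ hy => hy) hσ
      have q1 : r₂ ≤ r * Q := by
        refine le_trans (not_lt.1 fun hn => ?_) c1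
        obtain ⟨k, hk⟩ := u3 _ _ _ _ b2 c2 hn
        have q2 : |x' - y| ≤ 1 / 4 := by
          refine c4.trans (le_trans ?_ (min_le_right η _))
          rw [div_le_iff₀ hK0]; nlinarith
        have q3 := abs_lt.1 (hk.trans_le (min_le_right _ _))
        rw [abs_le] at q2
        have q4 := int_zero (k := k) (abs_lt.2 ⟨by linarith [q2.1, q3.2], by linarith [q2.2, q3.1]⟩)
        rw [q4, Int.cast_zero, sub_zero] at hk
        have q5 : β / K ^ 2 ≤ σ * β / K := by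
          have h3 : β / K ^ 2 = K⁻¹ * β / K := by field_simp
          rw [h3]
          gcongr
        linarith [hk.trans_le (min_le_left _ _)]
      refine ⟨ξ, b1, b2, b5.mono ?_ fun z hz => hz.trans_lt (lt_of_le_of_lt ?_ p7)⟩
      · gcongr
        rw [div_le_iff₀ hr.1]; linarith
      · gcongr
    choose! u hu1 hu2 hu3 using key
    have hr0 := hr.1
    have hcount := count E u (δ := min c r / κ ^ (N₁ + M * t) * (r₂ / r) / κ ^ (2 * t))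
      (by positivity) (by
        rintro y hy y' hy' hne k ⟨b1, b2⟩
        obtain ⟨z, b3, b4⟩ := hu3 y hy _ (hR.Y_add (hu1 y' hy') k) b1 b2
        obtain ⟨j, hj⟩ := hR.uq _ _ _ b4 (hR.p1 _ _ k (hu2 y' hy'))
        have b5 := hE2 y' hy' y hy hne.symm j
        rw [hj, show z + j - y - j = z - y by ring] at b5
        linarith)
    rw [hE] at hcount
    push_cast at hcount
    refine hcount.trans (add_le_add_left ?_ 1)
    have p8 : 1 / (min c r / κ ^ (N₁ + M * t) * (r₂ / r) / κ ^ (2 * t)) =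
        κ ^ N₁ * r / (min c r * r₂) * (κ ^ (M + 2)) ^ t := by
      rw [← pow_mul, add_mul, pow_add, pow_add]
      field_simp
    rw [p8]
    gcongr
  set B : ℝ := κ ^ N₁ * r / (min c r * r₂) with hB
  have lim : Tendsto (fun t : ℕ => B * (3 / 4 : ℝ) ^ t + (1 / 2 : ℝ) ^ t) atTop (𝓝 (B * 0 + 0)) :=
    ((tendsto_pow_atTop_nhds_zero_of_lt_one (by norm_num) (by norm_num)).const_mul B).add
      (tendsto_pow_atTop_nhds_zero_of_lt_one (by norm_num) (by norm_num))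
  obtain ⟨t, ht⟩ := (lim.eventually (gt_mem_nhds (by norm_num : B * 0 + 0 < 1))).exists
  have h1 := bound t
  have h2 : (2 : ℝ) ^ t * (B * (3 / 4 : ℝ) ^ t + (1 / 2 : ℝ) ^ t) = B * (3 / 2) ^ t + 1 := by
    rw [mul_add, mul_left_comm, ← mul_pow, ← mul_pow]; norm_num
  have h3 : (0 : ℝ) < 2 ^ t := by positivity
  nlinarith

end C1

theorem rowC1 : RowC1 := fun _ _ _ h1 h2 h3 h4 h5 h6 h7 h8 h9 h10 =>
  C1.final ⟨h1, h2, h3, h4⟩ h7 h8 h9 (C1.start ⟨h1, h2, h3, h4⟩ h5 h6 h10)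

end Pool.Agent.MP_3aea93_al.H75
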