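import Pool.Agent.MP_3aea93_al.H75.Stmt

/-! Groups of piecewise linear maps of the line. -/

set_option autoImplicit false

namespace Pool.Agent.MP_3aea93_al.H75

open Filter Topology Set

/-- the ring of breakpoints and the group of slopes -/
structure Ctx where
  A : Subring ℝ
  L : Submonoid ℝ
  pos : ∀ l ∈ L, 0 < l
  inv : ∀ l ∈ L, l⁻¹ ∈ L
  sub : ∀ l ∈ L, l ∈ A
  cyc : ∀ a ∈ A, ∀ b ∈ A, ∀ ε : ℝ, 0 < ε →
    ∃ e ∈ A, 0 < e ∧ e < ε ∧ ∃ i j : ℤ, a = i * e ∧ b = j * e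
  gcd : ∀ d : ℕ, (∀ n : ℕ, 2 ≤ n → (n : ℝ) ∈ L → d ∣ n - 1) → d = 1
  two : ∃ (p : ℕ) (u v : ℚ), p.Prime ∧ (u : ℝ) ∈ L ∧ (v : ℝ) ∈ L ∧ u < 1 ∧ 1 < v ∧
    1 < padicNorm p u ∧ 1 < padicNorm p v

namespace Ctx

variable (C : Ctx)

theorem dense {x y : ℝ} (h : x < y) : ∃ a ∈ C.A, x < a ∧ a < y := by
  obtain ⟨e, he, h0, h1, -⟩ := C.cyc 0 C.A.zero_mem 0 C.A.zero_mem (y - x) (by linarith)
  refine ⟨((⌊x / e⌋ + 1 : ℤ) : ℝ) * e, C.A.mul_mem (intCast_mem _ _) he, ?_, ?_⟩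
  · rw [← div_lt_iff₀ h0]; push_cast; exact Int.lt_floor_add_one _
  · have h2 := Int.floor_le (x / e)
    rw [le_div_iff₀ h0] at h2
    push_cast; linarith

theorem exists_nat : ∃ n : ℕ, 2 ≤ n ∧ (n : ℝ) ∈ C.L := by
  by_contra h
  exact absurd (C.gcd 0 fun n h1 h2 => absurd ⟨n, h1, h2⟩ h) (by norm_num)

theorem exists_small {ε : ℝ} (h : 0 < ε) : ∃ l ∈ C.L, l < ε := by
  obtain ⟨n, h1, h2⟩ := C.exists_nat
  have h3 : (2 : ℝ) ≤ n := by exact_mod_cast h1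
  obtain ⟨j, hj⟩ := exists_pow_lt_of_lt_one h (inv_lt_one_of_one_lt₀ (by linarith : (1 : ℝ) < n))
  exact ⟨_, C.L.pow_mem (C.inv _ h2) j, hj⟩

/-- `f` is affine along the filter `F` -/
def Aff (f : ℝ → ℝ) (F : Filter ℝ) : Prop := ∃ l ∈ C.L, ∃ c ∈ C.A, ∀ᶠ y in F, f y = l * y + c

variable {C}

theorem Aff.mono {f : ℝ → ℝ} {F F' : Filter ℝ} (h : C.Aff f F) (h' : F' ≤ F) : C.Aff f F' :=
  let ⟨l, hl, c, hc, e⟩ := h; ⟨l, hl, c, hc, e.filter_mono h'⟩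

theorem Aff.congr {f g : ℝ → ℝ} {F : Filter ℝ} (h : C.Aff f F) (h' : ∀ᶠ y in F, g y = f y) :
    C.Aff g F :=
  let ⟨l, hl, c, hc, e⟩ := h; ⟨l, hl, c, hc, (e.and h').mono fun _ hy => hy.2.trans hy.1⟩

theorem Aff.comp {f g : ℝ → ℝ} {F F' : Filter ℝ} (hf : C.Aff f F') (hg : C.Aff g F)
    (h : Tendsto g F F') : C.Aff (fun y => f (g y)) F := by
  obtain ⟨l, hl, c, hc, e⟩ := hf
  obtain ⟨l', hl', c', hc', e'⟩ := hg
  refine ⟨l * l', C.L.mul_mem hl hl', l * c' + c, C.A.add_mem (C.A.mul_mem (C.sub l hl) hc') hc, ?_⟩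
  filter_upwards [h.eventually e, e'] with y h1 h2
  rw [h1, h2]; ring

theorem Aff.symm {f : ℝ ≃o ℝ} {F F' : Filter ℝ} (hf : C.Aff f F') (h : Tendsto f.symm F F') :
    C.Aff f.symm F := by
  obtain ⟨l, hl, c, hc, e⟩ := hf
  refine ⟨l⁻¹, C.inv l hl, -(l⁻¹ * c), C.A.neg_mem (C.A.mul_mem (C.sub _ (C.inv l hl)) hc), ?_⟩
  filter_upwards [h.eventually e] with y h1
  rw [f.apply_symm_apply] at h1
  have h2 := (C.pos l hl).ne'
  field_simp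
  linarith

theorem Aff.mem_iff {f : ℝ → ℝ} {x : ℝ} (h : C.Aff f (𝓝[≥] x)) : f x ∈ C.A ↔ x ∈ C.A := by
  obtain ⟨l, hl, c, hc, e⟩ := h
  rw [e.self_of_nhdsWithin (mem_Ici.2 le_rfl)]
  refine ⟨fun h => ?_, fun h => C.A.add_mem (C.A.mul_mem (C.sub l hl) h) hc⟩
  have h2 := (C.pos l hl).ne'
  have h3 : x = l⁻¹ * (l * x + c - c) := by field_simp; ring
  rw [h3]
  exact C.A.mul_mem (C.sub _ (C.inv l hl)) (C.A.sub_mem h hc)

theorem tendsto_ge (g : ℝ ≃o ℝ) (x : ℝ) : Tendsto g (𝓝[≥] x) (𝓝[≥] g x) :=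
  g.continuous.continuousWithinAt.tendsto_nhdsWithin fun _ hy => g.monotone hy

theorem tendsto_le (g : ℝ ≃o ℝ) (x : ℝ) : Tendsto g (𝓝[≤] x) (𝓝[≤] g x) :=
  g.continuous.continuousWithinAt.tendsto_nhdsWithin fun _ hy => g.monotone hy

variable (C)

/-- piecewise linear maps with a discrete set of breakpoints -/
def P : Subgroup (ℝ ≃o ℝ) where
  carrier := {f | ∀ x, C.Aff f (𝓝[≥] x) ∧ C.Aff f (𝓝[≤] x) ∧ (x ∉ C.A → C.Aff f (𝓝 x))}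
  one_mem' := fun _ =>
    have h : ∀ F, C.Aff (1 : ℝ ≃o ℝ) F := fun _ =>
      ⟨1, C.L.one_mem, 0, C.A.zero_mem, Eventually.of_forall fun y => by simp⟩
    ⟨h _, h _, fun _ => h _⟩
  mul_mem' := fun {f g} hf hg x =>
    ⟨(hf (g x)).1.comp (hg x).1 (tendsto_ge g x), (hf (g x)).2.1.comp (hg x).2.1 (tendsto_le g x),
      fun hx => ((hf (g x)).2.2 fun h => hx ((hg x).1.mem_iff.1 h)).comp ((hg x).2.2 hx)
        (g.continuous.tendsto x)⟩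
  inv_mem' := fun {f} hf x =>
    ⟨(hf (f.symm x)).1.symm (tendsto_ge f.symm x), (hf (f.symm x)).2.1.symm (tendsto_le f.symm x),
      fun hx => ((hf (f.symm x)).2.2 fun h => hx (by
        have h1 := (hf (f.symm x)).1.mem_iff.2 h
        rwa [f.apply_symm_apply] at h1)).symm (f.symm.continuous.tendsto x)⟩

variable {C}

theorem mem_P {f : ℝ ≃o ℝ} : f ∈ C.P ↔
    ∀ x, C.Aff f (𝓝[≥] x) ∧ C.Aff f (𝓝[≤] x) ∧ (x ∉ C.A → C.Aff f (𝓝 x)) := Iff.rfl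

theorem mem_A {f : ℝ ≃o ℝ} (hf : f ∈ C.P) (x : ℝ) : f x ∈ C.A ↔ x ∈ C.A := (hf x).1.mem_iff

theorem mem_P_of_aff {f : ℝ ≃o ℝ} {l c : ℝ} (hl : l ∈ C.L) (hc : c ∈ C.A)
    (h : ∀ y, f y = l * y + c) : f ∈ C.P := fun _ =>
  have h' : ∀ F, C.Aff f F := fun _ => ⟨l, hl, c, hc, Eventually.of_forall h⟩
  ⟨h' _, h' _, fun _ => h' _⟩

end Ctx

theorem inv_eq_of {f : ℝ ≃o ℝ} {x y : ℝ} (h : f x = y) : f⁻¹ y = x := by
  rw [← h]; exact f.symm_apply_apply x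

theorem apply_inv (f : ℝ ≃o ℝ) (x : ℝ) : f (f⁻¹ x) = x := f.apply_symm_apply x

theorem inv_apply (f : ℝ ≃o ℝ) (x : ℝ) : f⁻¹ (f x) = x := f.symm_apply_apply x

theorem mul_app (f g : ℝ ≃o ℝ) (x : ℝ) : (f * g) x = f (g x) := rfl

theorem one_app (x : ℝ) : (1 : ℝ ≃o ℝ) x = x := rfl

/-- translation -/
def tr (c : ℝ) : ℝ ≃o ℝ := OrderIso.addRight c

theorem tr_app (c x : ℝ) : tr c x = x + c := rfl

theorem tr_inv_app (c x : ℝ) : (tr c)⁻¹ x = x - c := inv_eq_of (by rw [tr_app]; ring)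

/-- the maps that fix every point of a set -/
def Fix (S : Set ℝ) : Subgroup (ℝ ≃o ℝ) where
  carrier := {f | ∀ x ∈ S, f x = x}
  one_mem' := fun _ _ => rfl
  mul_mem' := fun {f g} hf hg x hx => by rw [mul_app, hg x hx, hf x hx]
  inv_mem' := fun {_} hf x hx => inv_eq_of (hf x hx)

/-- the maps that are the identity along a filter -/
def Germ (F : Filter ℝ) : Subgroup (ℝ ≃o ℝ) where
  carrier := {f | ∀ᶠ x in F, f x = x}
  one_mem' := Eventually.of_forall fun _ => rfl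
  mul_mem' := fun {f g} hf hg => by
    filter_upwards [hf, hg] with x h1 h2
    rw [mul_app, h2, h1]
  inv_mem' := fun {_} hf => hf.mono fun _ h => inv_eq_of h

theorem mem_Germ {F : Filter ℝ} {f : ℝ ≃o ℝ} : f ∈ Germ F ↔ ∀ᶠ x in F, f x = x := Iff.rfl

theorem mem_Fix {S : Set ℝ} {f : ℝ ≃o ℝ} : f ∈ Fix S ↔ ∀ x ∈ S, f x = x := Iff.rfl

/-- the maps supported in a compact subset of the open unit interval -/
def Sup : Subgroup (ℝ ≃o ℝ) where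
  carrier := {f | ∃ p q : ℝ, 0 < p ∧ q < 1 ∧ ∀ x, x ≤ p ∨ q ≤ x → f x = x}
  one_mem' := ⟨1, 0, one_pos, one_pos, fun _ _ => rfl⟩
  mul_mem' := fun {f g} ⟨p, q, h1, h2, hf⟩ ⟨p', q', h1', h2', hg⟩ =>
    ⟨min p p', max q q', lt_min h1 h1', max_lt h2 h2', fun x hx => by
      rw [mul_app, hg x (hx.imp (fun h => h.trans (min_le_right _ _)) (le_max_right _ _).trans),
        hf x (hx.imp (fun h => h.trans (min_le_left _ _)) (le_max_left _ _).trans)]⟩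
  inv_mem' := fun {_} ⟨p, q, h1, h2, hf⟩ => ⟨p, q, h1, h2, fun x hx => inv_eq_of (hf x hx)⟩

theorem mem_Sup {f : ℝ ≃o ℝ} :
    f ∈ Sup ↔ ∃ p q : ℝ, 0 < p ∧ q < 1 ∧ ∀ x, x ≤ p ∨ q ≤ x → f x = x := Iff.rfl

theorem mem_Germ_ends {f : ℝ ≃o ℝ} :
    f ∈ Germ (atBot ⊔ atTop) ↔ ∃ K : ℝ, ∀ x, x ≤ -K ∨ K ≤ x → f x = x := by
  rw [mem_Germ, eventually_sup, eventually_atBot, eventually_atTop]
  constructor
  · rintro ⟨⟨a, ha⟩, b, hb⟩
    refine ⟨max (-a) b, fun x hx => ?_⟩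
    rcases hx with h | h
    · exact ha x (by linarith [le_max_left (-a) b])
    · exact hb x ((le_max_right _ _).trans h)
  · rintro ⟨K, hK⟩
    exact ⟨⟨-K, fun x hx => hK x (Or.inl hx)⟩, K, fun x hx => hK x (Or.inr hx)⟩

/-- the maps that commute with `x + 1` -/
def Per : Subgroup (ℝ ≃o ℝ) where
  carrier := {f | ∀ x, f (x + 1) = f x + 1}
  one_mem' := fun _ => rfl
  mul_mem' := fun {f g} hf hg x => by rw [mul_app, mul_app, hg, hf]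
  inv_mem' := fun {f} hf x => inv_eq_of (by rw [hf, apply_inv])

theorem mem_Per {f : ℝ ≃o ℝ} : f ∈ Per ↔ ∀ x, f (x + 1) = f x + 1 := Iff.rfl

theorem add_int {f : ℝ → ℝ} (hf : ∀ x, f (x + 1) = f x + 1) (x : ℝ) (k : ℤ) :
    f (x + k) = f x + k := by
  induction k using Int.induction_on with
  | zero => simp
  | succ i ih => push_cast at ih ⊢; rw [← add_assoc, hf, ih, add_assoc]
  | pred i ih =>
    have h := hf (x + (-(i : ℝ) - 1))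
    push_cast at ih ⊢
    rw [show x + (-(i : ℝ) - 1) + 1 = x + -(i : ℝ) by ring, ih] at h
    linarith

namespace Ctx

variable (C : Ctx)

/-- lifts of the elements of the circle group -/
def G : Subgroup (ℝ ≃o ℝ) := C.P ⊓ Per

/-- the elements of `G` that are the identity near `x` -/
def Gx (x : ℝ) : Subgroup (ℝ ≃o ℝ) := C.G ⊓ Germ (𝓝 x)

/-- compact support -/
def Pc : Subgroup (ℝ ≃o ℝ) := C.P ⊓ Germ (atBot ⊔ atTop)

/-- support in a compact subset of the open unit interval -/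
def H0 : Subgroup (ℝ ≃o ℝ) := C.P ⊓ Sup

variable {C}

theorem tr_mem_P {c : ℝ} (hc : c ∈ C.A) : tr c ∈ C.P :=
  mem_P_of_aff C.L.one_mem hc fun y => by rw [tr_app, one_mul]

theorem tr_mem_G {c : ℝ} (hc : c ∈ C.A) : tr c ∈ C.G :=
  ⟨tr_mem_P hc, fun x => by rw [tr_app, tr_app]; ring⟩

end Ctx

/-- lifts of orientation preserving diffeomorphisms of class C1 -/
structure Dif (φ : ℝ → ℝ) : Prop where
  c1 : ContDiff ℝ 1 φ
  pos : ∀ x, 0 < deriv φ x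
  per : ∀ x, φ (x + 1) = φ x + 1

/-- `φ` covers `g` for the relation `R` -/
structure Mv (R : ℝ → ℝ → Prop) (φ : ℝ → ℝ) (g : ℝ ≃o ℝ) : Prop where
  dif : Dif φ
  per : ∀ x, g (x + 1) = g x + 1
  eqv : ∀ ξ x, R (φ ξ) (g x) ↔ R ξ x

/-- words with bounded slopes: time, end point, slope -/
inductive Reach (T : Set (ℝ ≃o ℝ)) (η K a : ℝ) : ℕ → ℝ → ℝ → Prop
  | nil : Reach T η K a 0 a 1
  | step {t : ℕ} {x σ l : ℝ} {g : ℝ ≃o ℝ} (n : ℤ) : Reach T η K a t x σ → g ∈ T →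
      (∀ y, |y - x| ≤ η → g (y + n) = g (x + n) + l * (y - x)) → K⁻¹ ≤ l * σ → l * σ ≤ K →
      Reach T η K a (t + 1) (g (x + n)) (l * σ)

/-- exponentially many separated end points -/
def Many (T : Set (ℝ ≃o ℝ)) : Prop :=
  ∃ (η K : ℝ) (M : ℕ), 0 < η ∧ 1 ≤ K ∧ 1 ≤ M ∧ ∀ (a : ℝ) (t : ℕ), ∃ E : Finset ℝ, E.card = 2 ^ t ∧
    (∀ y ∈ E, ∃ σ, Reach T η K a t y σ) ∧
    ∀ y ∈ E, ∀ y' ∈ E, y ≠ y' → ∀ k : ℤ, ((M : ℝ) ^ t)⁻¹ ≤ |y - y' - k|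

end Pool.Agent.MP_3aea93_al.H75
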