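import Pool.Agent.MP_3aea93_al.H75.Spec

/-! Perfect groups with commuting conjugates fix a point of the circle. -/

set_option autoImplicit false

namespace Pool.Agent.MP_3aea93_al.H75

open CircleDeg1Lift

namespace FP

/-- a continuous lift -/
def Lf (f : Equiv.Perm UnitAddCircle) (u : CircleDeg1Lift) : Prop := Continuous u ∧ IsLift f u

/-- the shift by an integer -/
def sh (k : ℤ) (u : CircleDeg1Lift) : CircleDeg1Lift :=
  (translate (Multiplicative.ofAdd (k : ℝ)) : CircleDeg1Liftˣ) * u

variable {f g : Equiv.Perm UnitAddCircle} {u v w : CircleDeg1Lift}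

theorem sh_app (k : ℤ) (u : CircleDeg1Lift) (x : ℝ) : sh k u x = k + u x := rfl

theorem tau_sh (k : ℤ) (u : CircleDeg1Lift) :
    translationNumber (sh k u) = k + translationNumber u := by
  rw [sh, translationNumber_mul_of_commute (commute_iff_commute.2 (u.commute_int_add k).symm),
    translationNumber_translate]

theorem coe_int (k : ℤ) : ((k : ℝ) : UnitAddCircle) = 0 :=
  (AddCircle.coe_eq_zero_iff _).2 ⟨k, by simp⟩

theorem Lf.sh (h : Lf f u) (k : ℤ) : Lf f (sh k u) :=
  ⟨continuous_const.add h.1, fun x => by rw [sh_app, AddCircle.coe_add, coe_int, zero_add, h.2 x]⟩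

theorem Lf.mul (h : Lf f u) (h' : Lf g v) : Lf (f * g) (u * v) :=
  ⟨h.1.comp h'.1, fun x => by rw [Equiv.Perm.mul_apply, h'.2, h.2, mul_apply]⟩

theorem Lf.uniq (h : Lf f u) (h' : Lf f v) : ∃ k : ℤ, v = FP.sh k u := by
  have m : ∀ x, v x - u x ∈ Set.range (Int.cast : ℤ → ℝ) := fun x => by
    have : ((v x - u x : ℝ) : UnitAddCircle) = 0 := by
      rw [AddCircle.coe_sub, ← h.2, ← h'.2, sub_self]
    obtain ⟨k, e⟩ := (AddCircle.coe_eq_zero_iff _).1 this
    exact ⟨k, by simpa using e⟩
  obtain ⟨k, e⟩ := m 0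
  refine ⟨k, CircleDeg1Lift.ext fun x => ?_⟩
  have : v x - u x = v 0 - u 0 := isPreconnected_univ.constant_of_mapsTo
    Int.isClosedEmbedding_coe_real.isInducing.isDiscrete_range (h'.1.sub h.1).continuousOn
    (fun y _ => m y) (Set.mem_univ x) (Set.mem_univ 0)
  rw [sh_app, e, ← this]
  ring

theorem Lf.eq (h : Lf f u) (h' : Lf f v) (e : translationNumber u = translationNumber v) :
    v = u := by
  obtain ⟨k, rfl⟩ := h.uniq h'
  rw [tau_sh] at e
  exact CircleDeg1Lift.ext fun x => by rw [sh_app]; linarith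

theorem Lf.comm (h : Lf f u) (h' : Lf g v) (c : Commute f g) : Commute u v := by
  obtain ⟨k, e⟩ := (h'.mul h).uniq (c.eq ▸ h.mul h')
  have := translationNumber_eq_of_semiconjBy (f := u) (g₁ := v) (g₂ := FP.sh k v) e
  rw [tau_sh] at this
  exact e.trans (CircleDeg1Lift.ext fun x => by rw [sh_app]; linarith)

theorem Lf.conj {u' : CircleDeg1Lift} (h : Lf f u) (h' : Lf g w) (k : Lf (g * f * g⁻¹) u') :
    ∃ u'', Lf (g * f * g⁻¹) u'' ∧ SemiconjBy w u u'' := by
  have a := k.mul h'
  rw [inv_mul_cancel_right] at a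
  obtain ⟨n, e⟩ := a.uniq (h'.mul h)
  exact ⟨_, k.sh n, e⟩

/-- the defect -/
noncomputable def df (u v : CircleDeg1Lift) : ℝ :=
  translationNumber (u * v) - translationNumber u - translationNumber v

theorem df_le (u v : CircleDeg1Lift) : |df u v| ≤ 4 := by
  have a := abs_le.1 (u * v).dist_map_zero_translationNumber_le
  have b := abs_le.1 u.dist_map_zero_translationNumber_le
  have c := abs_le.1 v.dist_map_zero_translationNumber_le
  have d := abs_lt.1 (u.dist_map_map_zero_lt v)
  rw [mul_apply] at a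
  rw [df, abs_le]
  constructor <;> linarith

end FP

open H75.FP in
theorem rowFP : RowFP := by
  intro H _ ρ per cc lf
  have ex : ∀ h, ∃ u, Lf (ρ h) u := fun h =>
    let ⟨F, a, b, c, d⟩ := lf h
    ⟨⟨⟨F, b⟩, c⟩, a, d⟩
  choose F hF using ex
  have lm : ∀ {a b u v}, Lf (ρ a) u → Lf (ρ b) v → Lf (ρ (a * b)) (u * v) :=
    fun hu hv => by rw [map_mul]; exact hu.mul hv
  have dbl : ∀ (n : ℕ) a b u v, Lf (ρ a) u → Lf (ρ b) v → 2 ^ n * |df u v| ≤ 4 := by
    intro n
    induction n with
    | zero => exact fun _ _ u v _ _ => by simpa using df_le u v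
    | succ n ih =>
      intro a b u v hu hv
      obtain ⟨t, c1, c2, c3, c4⟩ := cc a b
      have cj : ∀ {a u}, Lf (ρ a) u → ∃ u', Lf (ρ (t * a * t⁻¹)) u' ∧ SemiconjBy (F t) u u' :=
        fun {a u} h => by
          have k := hF (t * a * t⁻¹)
          rw [map_mul, map_mul, map_inv] at k ⊢
          exact h.conj (hF t) k
      obtain ⟨u', hu', su⟩ := cj hu
      obtain ⟨v', hv', sv⟩ := cj hv
      have d1 := hu.comm hu' (c1.map ρ)
      have d2 := hu.comm hv' (c2.map ρ)
      have d3 := hv.comm hu' (c3.map ρ)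
      have d4 := hv.comm hv' (c4.map ρ)
      have e : df (u * u') (v * v') = 2 * df u v := by
        rw [df, df, d3.symm.mul_mul_mul_comm, translationNumber_mul_of_commute d1,
          translationNumber_mul_of_commute d4, translationNumber_mul_of_commute
            ((d1.mul_right d2).mul_left (d3.mul_right d4)),
          ← translationNumber_eq_of_semiconjBy su, ← translationNumber_eq_of_semiconjBy sv,
          ← translationNumber_eq_of_semiconjBy (su.mul_right sv)]
        ring
      have := ih _ _ _ _ (lm hu hu') (lm hv hv')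
      rw [e, abs_mul, abs_two] at this
      rw [pow_succ]
      linarith
  have add : ∀ {a b u v}, Lf (ρ a) u → Lf (ρ b) v →
      translationNumber (u * v) = translationNumber u + translationNumber v :=
    fun {a b u v} hu hv => by
      have : df u v = 0 := by
        by_contra e
        obtain ⟨n, hn⟩ := pow_unbounded_of_one_lt (4 / |df u v|) (one_lt_two (α := ℝ))
        rw [div_lt_iff₀ (abs_pos.2 e)] at hn
        exact hn.not_ge (dbl n a b u v hu hv)
      rw [df] at this
      linarith
  let φ : H →* Multiplicative UnitAddCircle := MonoidHom.mk'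
    (fun h => Multiplicative.ofAdd (translationNumber (F h) : UnitAddCircle)) fun a b => by
      obtain ⟨k, e⟩ := (lm (hF a) (hF b)).uniq (hF (a * b))
      rw [e, tau_sh, add (hF a) (hF b), AddCircle.coe_add, coe_int, zero_add, AddCircle.coe_add,
        ofAdd_add]
  have ex : ∀ h, ∃ u, Lf (ρ h) u ∧ translationNumber u = 0 := fun h => by
    have k : φ h = 1 := Abelianization.commutator_subset_ker φ (per ▸ Subgroup.mem_top h)
    obtain ⟨n, e⟩ := (AddCircle.coe_eq_zero_iff _).1 (ofAdd_eq_one.1 k)
    exact ⟨_, (hF h).sh (-n), by rw [tau_sh, ← e]; simp⟩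
  choose G hG h0 using ex
  let ψ : H →* CircleDeg1Lift :=
    { toFun := G
      map_one' := Lf.eq (f := ρ 1) ⟨continuous_id, fun x => by rw [map_one]; rfl⟩ (hG 1)
        (by rw [h0, translationNumber_one])
      map_mul' := fun a b => (lm (hG a) (hG b)).eq (hG _)
        (by rw [add (hG a) (hG b), h0, h0, h0, add_zero]) }
  obtain ⟨E, hE⟩ := semiconj_of_group_action_of_forall_translationNumber_eq 1 ψ fun g =>
    translationNumber_one.trans (h0 g).symm
  exact ⟨(E 0 : ℝ), fun h => ((hG h).2 _).trans (congrArg _ (hE h 0).symm)⟩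

end Pool.Agent.MP_3aea93_al.H75
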