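import Pool.Agent.MP_3aea93_al.H75.Spec

/-! Words with bounded slopes have exponentially many end points. -/

set_option autoImplicit false

namespace Pool.Agent.MP_3aea93_al.H75

open Filter Topology Set

namespace Many

theorem chart (h1 : RowE) (h2 : RowPer) (C : Ctx) {a w l c : ℝ} (ha : a ∈ C.A) (hw : w ∈ C.A)
    (hl : l ∈ C.L) (hc : c ∈ C.A) (w1 : w < 1) (w2 : l * w < 1) :
    ∃ g ∈ C.G, ∀ y, a ≤ y → y ≤ a + w → g y = l * y + c := by
  have l0 := C.pos l hl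
  have w3 : w < l⁻¹ := by
    rw [← one_div, lt_div_iff₀ l0]
    linarith
  obtain ⟨k, hk, k1, k2⟩ := h1 C (a + w) (a + 1) 1 (l⁻¹ - 1) (C.A.add_mem ha hw)
    (C.A.add_mem ha C.A.one_mem) C.L.one_mem (C.A.sub_mem (C.sub _ (C.inv l hl)) C.A.one_mem)
    (by linarith) (by linarith)
  obtain ⟨α, hα⟩ : ∃ α : ℝ ≃o ℝ, ∀ y, α y = l * y + c :=
    ⟨tr c * OrderIso.mulLeft₀ l l0, fun y => rfl⟩
  by_cases w0 : 0 ≤ w
  · obtain ⟨g, hg, e⟩ := h2 C (α * k) a (C.P.mul_mem (Ctx.mem_P_of_aff hl hc hα) hk) ha (by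
      rw [mul_app, mul_app, k2 _ le_rfl, k1 a (by linarith), hα, hα]
      field_simp
      ring)
    exact ⟨g, hg, fun y y1 y2 => by rw [e y y1 (by linarith), mul_app, k1 y y2, hα]⟩
  · exact ⟨1, C.G.one_mem, fun y y1 y2 => absurd (by linarith) w0⟩

/-- A finite set of maps that realises the moves. -/
theorem moves (h1 : RowE) (h2 : RowPer) (C : Ctx) {u v : ℝ} (hu : u ∈ C.L) (hv : v ∈ C.L)
    (u1 : u < 1) (v1 : 1 < v) : ∃ (T : Set (ℝ ≃o ℝ)) (η : ℝ), T.Finite ∧ T ⊆ C.G ∧ 0 < η ∧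
      ∀ (K a : ℝ) (t : ℕ) (x σ l : ℝ) (j : Fin 2), l = u ∨ l = v → Reach T η K a t x σ →
        K⁻¹ ≤ l * σ → l * σ ≤ K → Reach T η K a (t + 1) (l * (Int.fract x + (j : ℕ))) (l * σ) := by
  have v0 : 0 < v := by linarith
  obtain ⟨e, he, e0, e1⟩ := C.dense (x := 0) (y := (3 * v)⁻¹) (by positivity)
  have e2 : v * (3 * e) < 1 := by
    rw [← one_div, lt_div_iff₀ (by positivity)] at e1
    linarith
  have e3 : 3 * e < 1 := by nlinarith
  have e4 : u * (3 * e) < 1 := by nlinarith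
  have h3 : (3 : ℝ) * e ∈ C.A := C.A.mul_mem (by exact_mod_cast natCast_mem C.A 3) he
  have key : ∀ z : ℕ × Bool × Fin 2, ∃ g ∈ C.G, ∀ y, z.1 * e - e ≤ y → y ≤ z.1 * e - e + 3 * e →
      g y = (if z.2.1 then u else v) * y + (if z.2.1 then u else v) * (z.2.2 : ℕ) := by
    rintro ⟨i, b, j⟩
    have ha : (i : ℝ) * e - e ∈ C.A := C.A.sub_mem (C.A.mul_mem (natCast_mem _ _) he) he
    cases b
    · exact chart h1 h2 C ha h3 hv (C.A.mul_mem (C.sub _ hv) (natCast_mem _ _)) e3 e2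
    · exact chart h1 h2 C ha h3 hu (C.A.mul_mem (C.sub _ hu) (natCast_mem _ _)) e3 e4
  choose g hg eg using key
  refine ⟨g '' (Set.Iic ⌊1 / e⌋₊ ×ˢ Set.univ), e,
    ((Set.finite_Iic _).prod Set.finite_univ).image _, ?_, e0, ?_⟩
  · rintro _ ⟨z, -, rfl⟩
    exact hg z
  intro K a t x σ l j hl hr k1 k2
  obtain ⟨b, hb⟩ : ∃ b : Bool, (if b then u else v) = l := by
    rcases hl with rfl | rfl
    · exact ⟨true, rfl⟩
    · exact ⟨false, rfl⟩
  have f0 := Int.fract_nonneg x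
  have f1 := Int.fract_lt_one x
  have i1 : (⌊Int.fract x / e⌋₊ : ℝ) * e ≤ Int.fract x := by
    rw [← le_div_iff₀ e0]
    exact Nat.floor_le (by positivity)
  have i2 : Int.fract x < (⌊Int.fract x / e⌋₊ : ℝ) * e + e := by
    have := Nat.lt_floor_add_one (Int.fract x / e)
    rw [div_lt_iff₀ e0] at this
    linarith
  have ex : x + ((-⌊x⌋ : ℤ) : ℝ) = Int.fract x := by
    rw [Int.fract]; push_cast; ring
  have e5 := eg (⌊Int.fract x / e⌋₊, b, j)
  simp only [hb] at e5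
  have e6 : g (⌊Int.fract x / e⌋₊, b, j) (x + ((-⌊x⌋ : ℤ) : ℝ)) = l * (Int.fract x + (j : ℕ)) := by
    rw [ex, e5 _ (by linarith) (by linarith)]
    ring
  rw [← e6]
  refine Reach.step (-⌊x⌋) hr ⟨_, ⟨?_, trivial⟩, rfl⟩ (fun y hy => ?_) k1 k2
  · exact Nat.floor_mono (div_le_div_of_nonneg_right f1.le e0.le)
  · have := abs_le.1 hy
    rw [e6, e5 _ (by linarith [this.1]) (by linarith [this.2]), ← ex]
    ring

theorem norm_add_int {p : ℕ} [Fact p.Prime] {d : ℚ} (hd : 1 < padicNorm p d) (z : ℤ) :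
    1 < padicNorm p (d + z) := by
  have h := padicNorm.of_int (p := p) z
  rw [padicNorm.add_eq_max_of_ne (by linarith : padicNorm p d ≠ padicNorm p z)]
  exact hd.trans_le (le_max_left _ _)

/-- The separation invariant. -/
def Sep (p M t : ℕ) (y y' : ℝ) : Prop :=
  ∃ d : ℚ, y - y' = d ∧ 1 < padicNorm p d ∧ ∃ z : ℤ, d * (M : ℚ) ^ t = z

theorem Sep.ne {p M t : ℕ} {y y' : ℝ} (h : Sep p M t y y') : y ≠ y' := by
  obtain ⟨d, e, h1, -⟩ := h
  rintro rfl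
  have : d = 0 := by
    rw [sub_self] at e
    exact_mod_cast e.symm
  rw [this, padicNorm.zero] at h1
  linarith

theorem Sep.far {p M t : ℕ} [Fact p.Prime] (hM : 1 ≤ M) {y y' : ℝ} (h : Sep p M t y y') (k : ℤ) :
    ((M : ℝ) ^ t)⁻¹ ≤ |y - y' - k| := by
  obtain ⟨d, e, h1, z, hz⟩ := h
  have h2 := norm_add_int h1 (-k)
  have h3 : d + ((-k : ℤ) : ℚ) ≠ 0 := by
    intro h
    rw [h, padicNorm.zero] at h2
    linarith
  have M0 : (0 : ℚ) < (M : ℚ) ^ t := by positivity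
  have h4 : (d + ((-k : ℤ) : ℚ)) * (M : ℚ) ^ t = ((z - k * (M : ℤ) ^ t : ℤ) : ℚ) := by
    push_cast
    rw [← hz]
    ring
  have h5 : z - k * (M : ℤ) ^ t ≠ 0 := by
    intro h
    rw [h, Int.cast_zero] at h4
    exact mul_ne_zero h3 M0.ne' h4
  have h6 : (1 : ℝ) ≤ |((z - k * (M : ℤ) ^ t : ℤ) : ℝ)| := by exact_mod_cast Int.one_le_abs h5
  have h7 : (y - y' - k) * (M : ℝ) ^ t = ((z - k * (M : ℤ) ^ t : ℤ) : ℝ) := by
    have := congrArg (fun q : ℚ => (q : ℝ)) h4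
    simp only [Rat.cast_intCast] at this
    rw [← this, e]
    push_cast
    ring
  have M1 : (0 : ℝ) < (M : ℝ) ^ t := by positivity
  rw [← h7, abs_mul, abs_of_pos M1] at h6
  rw [← one_div, div_le_iff₀ M1]
  exact h6

theorem sep_child {p M t : ℕ} [Fact p.Prime] {l : ℚ} (hl : 1 < padicNorm p l) {m : ℤ}
    (hm : l * M = m) {y y' : ℝ} {j j' : Fin 2} (h : Sep p M t y y' ∨ y = y' ∧ j ≠ j') :
    Sep p M (t + 1) (l * (Int.fract y + (j : ℕ))) (l * (Int.fract y' + (j' : ℕ))) := by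
  rcases h with ⟨d, e, h1, z, hz⟩ | ⟨rfl, hj⟩
  · refine ⟨l * (d + ((⌊y'⌋ - ⌊y⌋ + (j : ℕ) - (j' : ℕ) : ℤ) : ℚ)), ?_, ?_,
      m * (z + (⌊y'⌋ - ⌊y⌋ + (j : ℕ) - (j' : ℕ)) * (M : ℤ) ^ t), ?_⟩
    · rw [Int.fract, Int.fract]
      push_cast
      rw [← e]
      ring
    · rw [padicNorm.mul]
      exact one_lt_mul_of_lt_of_le hl (norm_add_int h1 _).le
    · push_cast
      rw [← hm, ← hz]
      ring
  · refine ⟨l * (((j : ℕ) : ℚ) - (j' : ℕ)), ?_, ?_,
      m * ((((j : ℕ) : ℤ) - (j' : ℕ)) * (M : ℤ) ^ t), ?_⟩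
    · push_cast
      ring
    · rw [padicNorm.mul]
      refine one_lt_mul_of_lt_of_le hl ?_
      fin_cases j <;> fin_cases j' <;> simp at hj ⊢
    · push_cast
      rw [← hm]
      ring

end Many

open Many in
theorem rowMany (h1 : RowE) (h2 : RowPer) : RowMany := by
  intro C
  obtain ⟨p, u, v, hp, hu, hv, u1, v1, nu, nv⟩ := C.two
  have : Fact p.Prime := ⟨hp⟩
  have u1' : (u : ℝ) < 1 := by exact_mod_cast u1
  have v1' : (1 : ℝ) < v := by exact_mod_cast v1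
  have u0 : (0 : ℝ) < u := C.pos _ hu
  obtain ⟨T, η, hT, hG, η0, st⟩ := moves h1 h2 C hu hv u1' v1'
  have hM : 1 ≤ u.den * v.den := Nat.mul_pos u.den_pos v.den_pos
  have K1 : (max (v : ℝ) (u : ℝ)⁻¹)⁻¹ ≤ u :=
    inv_le_of_inv_le₀ u0 (le_max_right _ _)
  refine ⟨T, hT, hG, η, max (v : ℝ) (u : ℝ)⁻¹, u.den * v.den, η0,
    v1'.le.trans (le_max_left _ _), hM, fun a t => ?_⟩
  have main : ∃ (σ : ℝ) (E : Finset ℝ), u ≤ σ ∧ σ ≤ v ∧ E.card = 2 ^ t ∧
      (∀ y ∈ E, Reach T η (max (v : ℝ) (u : ℝ)⁻¹) a t y σ) ∧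
      ∀ y ∈ E, ∀ y' ∈ E, y ≠ y' → Sep p (u.den * v.den) t y y' := by
    induction t with
    | zero =>
      refine ⟨1, {a}, u1'.le, v1'.le, rfl, fun y hy => ?_, fun y hy y' hy' h => ?_⟩
      · rw [Finset.mem_singleton.1 hy]
        exact Reach.nil
      · exact absurd ((Finset.mem_singleton.1 hy).trans (Finset.mem_singleton.1 hy').symm) h
    | succ t ih =>
      obtain ⟨σ, E, s1, s2, hc, hr, hs⟩ := ih
      obtain ⟨l, m, hl, l1, l2, l3, l4⟩ : ∃ (l : ℚ) (m : ℤ), ((l : ℝ) = u ∨ (l : ℝ) = v) ∧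
          u ≤ l * σ ∧ l * σ ≤ v ∧ 1 < padicNorm p l ∧ l * ((u.den * v.den : ℕ) : ℚ) = m := by
        rcases le_total 1 σ with h | h
        · refine ⟨u, u.num * v.den, Or.inl rfl, by nlinarith, by nlinarith, nu, ?_⟩
          push_cast
          rw [← mul_assoc, Rat.mul_den_eq_num]
        · refine ⟨v, v.num * u.den, Or.inr rfl, by nlinarith, by nlinarith, nv, ?_⟩
          push_cast
          rw [mul_comm (u.den : ℚ), ← mul_assoc, Rat.mul_den_eq_num]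
      have hsep : ∀ z ∈ E ×ˢ (Finset.univ : Finset (Fin 2)),
          ∀ z' ∈ E ×ˢ (Finset.univ : Finset (Fin 2)), z ≠ z' → Sep p (u.den * v.den) (t + 1)
            (l * (Int.fract z.1 + (z.2 : ℕ))) (l * (Int.fract z'.1 + (z'.2 : ℕ))) := by
        rintro ⟨y, j⟩ hz ⟨y', j'⟩ hz' hne
        refine sep_child l3 l4 ?_
        by_cases e : y = y'
        · exact Or.inr ⟨e, fun e' => hne (Prod.ext e e')⟩
        · exact Or.inl (hs y (Finset.mem_product.1 hz).1 y' (Finset.mem_product.1 hz').1 e)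
      classical
      refine ⟨l * σ, (E ×ˢ (Finset.univ : Finset (Fin 2))).image
        fun z => (l : ℝ) * (Int.fract z.1 + (z.2 : ℕ)), l1, l2, ?_, ?_, ?_⟩
      · rw [Finset.card_image_of_injOn, Finset.card_product, hc, Finset.card_univ,
          Fintype.card_fin, pow_succ]
        intro z hz z' hz' e
        by_contra hne
        exact (hsep z hz z' hz' hne).ne e
      · intro y hy
        obtain ⟨z, hz, rfl⟩ := Finset.mem_image.1 hy
        exact st _ a t z.1 σ l z.2 hl (hr _ (Finset.mem_product.1 hz).1) (K1.trans l1)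
          (l2.trans (le_max_left _ _))
      · intro y hy y' hy' hne
        obtain ⟨z, hz, rfl⟩ := Finset.mem_image.1 hy
        obtain ⟨z', hz', rfl⟩ := Finset.mem_image.1 hy'
        exact hsep z hz z' hz' fun e => hne (by rw [e])
  obtain ⟨σ, E, -, -, hc, hr, hs⟩ := main
  exact ⟨E, hc, fun y hy => ⟨σ, hr y hy⟩, fun y hy y' hy' hne k => (hs y hy y' hy' hne).far hM k⟩

end Pool.Agent.MP_3aea93_al.H75
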