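import Pool.Agent.MP_3aea93_al.H75.Spec

/-! Normal generation by translations, squares, one sided contractions. -/

set_option autoImplicit false

namespace Pool.Agent.MP_3aea93_al.H75

open Filter Topology Set

namespace Norm

variable {C : Ctx}

theorem conj_mem {c : ℝ} (hc : c ∈ C.A) {f : ℝ ≃o ℝ} (hf : f ∈ C.Gx c) :
    (tr c)⁻¹ * f * tr c ∈ C.Gx 0 := by
  refine ⟨C.G.mul_mem (C.G.mul_mem (C.G.inv_mem (Ctx.tr_mem_G hc)) hf.1) (Ctx.tr_mem_G hc), ?_⟩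
  have h1 : Tendsto (fun x : ℝ => x + c) (𝓝 0) (𝓝 c) := by
    have := (continuous_add_const c).tendsto (0 : ℝ)
    simpa using this
  have h2 : ∀ᶠ x in 𝓝 c, f x = x := hf.2
  refine mem_Germ.2 ((h1.eventually h2).mono fun x hx => ?_)
  rw [mul_app, mul_app, tr_app, hx, tr_inv_app]; ring

theorem commute_of {f h : ℝ ≃o ℝ} (H : ∀ x, f x = x ∨ h x = x) : f * h = h * f := by
  refine DFunLike.ext _ _ fun x => ?_
  rw [mul_app, mul_app]
  by_cases h1 : f x = x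
  · by_cases h2 : h x = x
    · rw [h1, h2, h1]
    · rw [h1]
      exact (H (h x)).resolve_right fun e => h2 (h.injective e)
  · have h2 := (H x).resolve_left h1
    rw [h2]
    exact ((H (f x)).resolve_left fun e => h1 (f.injective e)).symm

theorem fix_near {a : ℝ ≃o ℝ} (ha : a ∈ C.Gx 0) :
    ∃ ε : ℝ, 0 < ε ∧ ∀ (x : ℝ) (k : ℤ), |x - k| < ε → a x = x := by
  have h2 : ∀ᶠ x in 𝓝 (0 : ℝ), a x = x := ha.2
  obtain ⟨ε, h0, h⟩ := Metric.eventually_nhds_iff.1 h2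
  refine ⟨ε, h0, fun x k hx => ?_⟩
  have h3 := h (y := x - k) (by rwa [Real.dist_eq, sub_zero])
  have h4 := add_int (f := a) ha.1.2 (x - k) k
  rw [sub_add_cancel, h3] at h4
  rw [h4]; ring

theorem gx_le (h3 : RowG0) {S : Subgroup (ℝ ≃o ℝ)}
    (H : ∀ a ∈ C.Gx 0, ∀ b ∈ C.Gx 0, a * b * a⁻¹ * b⁻¹ ∈ S) : C.Gx 0 ≤ S :=
  (h3 C).trans (Subgroup.commutator_le.2 fun a ha b hb => H a ha b hb)

/-- an affine map -/
noncomputable def aff (l : ℝ) (hl : 0 < l) (c : ℝ) : ℝ ≃o ℝ :=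
  (OrderIso.mulLeft₀ l hl).trans (OrderIso.addRight c)

theorem aff_app (l : ℝ) (hl : 0 < l) (c x : ℝ) : aff l hl c x = l * x + c := rfl

theorem displace (h1 : RowExt) (h2 : RowPer) {ε : ℝ} (hε : 0 < ε) :
    ∃ g ∈ C.G, ∃ d ∈ C.A, ∀ x : ℝ, (∃ k : ℤ, |x - k| < ε) ∨
      ∃ k : ℤ, |g⁻¹ (g x - d) - k| < ε := by
  obtain ⟨e, he, e0, e1⟩ := C.dense (lt_min hε (by norm_num : (0 : ℝ) < 1 / 2))
  have e2 : e < ε := e1.trans_le (min_le_left _ _)
  have e3 : e < 1 / 2 := e1.trans_le (min_le_right _ _)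
  obtain ⟨l, hl, l1⟩ := C.exists_small (by norm_num : (0 : ℝ) < 1 / 2)
  have l0 := C.pos l hl
  obtain ⟨d, hd, d0, d1⟩ := C.dense (show l < 1 - l by linarith)
  obtain ⟨k, hk, k1, k2⟩ := h1 C 0 e (1 - e) 1 l 0 C.A.zero_mem he (C.A.sub_mem C.A.one_mem he)
    C.A.one_mem hl C.A.zero_mem e0 (by linarith) (by linarith) (by positivity) (by nlinarith)
  obtain ⟨g, hg, g1⟩ := h2 C k 0 hk C.A.zero_mem
    (by rw [k1 _ (Or.inr (by norm_num)), k1 _ (Or.inl le_rfl)])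
  refine ⟨g, hg, d, hd, fun x => ?_⟩
  have f0 := Int.floor_le x
  have f1 := Int.lt_floor_add_one x
  by_cases c1 : x - ⌊x⌋ < e
  · exact Or.inl ⟨⌊x⌋, by rw [abs_lt]; constructor <;> linarith⟩
  by_cases c2 : 1 - e < x - ⌊x⌋
  · exact Or.inl ⟨⌊x⌋ + 1, by push_cast; rw [abs_lt]; constructor <;> linarith⟩
  push Not at c1 c2
  refine Or.inr ⟨⌊x⌋, ?_⟩
  have hp : ∀ y, g (y + 1) = g y + 1 := hg.2
  have a1 : g x = l * (x - ⌊x⌋) + ⌊x⌋ := by
    have := add_int (f := g) hp (x - ⌊x⌋) ⌊x⌋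
    rw [sub_add_cancel, g1 (x - ⌊x⌋) (by linarith) (by linarith), k2 _ c1 c2] at this
    rw [this]; ring
  have a2 : g (⌊x⌋ : ℝ) = ⌊x⌋ := by
    have := add_int (f := g) hp 0 ⌊x⌋
    rw [zero_add, g1 0 le_rfl (by norm_num), k1 _ (Or.inl le_rfl), zero_add] at this
    exact this
  have a3 : g (⌊x⌋ - e) = l * (1 - e) + ⌊x⌋ - 1 := by
    have := add_int (f := g) hp (1 - e) (⌊x⌋ - 1)
    rw [g1 (1 - e) (by linarith) (by linarith), k2 (1 - e) (by linarith) le_rfl] at this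
    push_cast at this
    rw [show (⌊x⌋ : ℝ) - e = 1 - e + (⌊x⌋ - 1) by ring, this]; ring
  have b1 : g⁻¹ (g x - d) < ⌊x⌋ := by
    rw [← g.lt_iff_lt, apply_inv, a1, a2]; nlinarith
  have b2 : ⌊x⌋ - e < g⁻¹ (g x - d) := by
    rw [← g.lt_iff_lt, apply_inv, a1, a3]; nlinarith
  rw [abs_lt]; constructor <;> linarith

end Norm

open Pool.Agent.MP_3aea93_al.H75.Norm

theorem rowSq (h3 : RowG0) (h4 : RowGen) : RowSq := by
  intro C S h1 h2
  have hc : ∀ a ∈ C.G, ∀ b ∈ C.G, a * b * a⁻¹ * b⁻¹ ∈ S := fun a ha b hb => by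
    have e : a * b * a⁻¹ * b⁻¹ = a * a * (a⁻¹ * b * (a⁻¹ * b)) * (b⁻¹ * b⁻¹) := by group
    rw [e]
    exact S.mul_mem (S.mul_mem (h2 a ha) (h2 _ (C.G.mul_mem (C.G.inv_mem ha) hb)))
      (h2 _ (C.G.inv_mem hb))
  have h0 : C.Gx 0 ≤ S := gx_le h3 fun a ha b hb => hc a ha.1 b hb.1
  refine h4 C S h1 fun c hc' f hf => ?_
  have h5 := conj_mem hc' hf
  have e : f = tr c * ((tr c)⁻¹ * f * tr c) * (tr c)⁻¹ * ((tr c)⁻¹ * f * tr c)⁻¹ *
      ((tr c)⁻¹ * f * tr c) := by group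
  rw [e]
  exact S.mul_mem (hc _ (Ctx.tr_mem_G hc') _ h5.1) (h0 h5)

theorem rowNorm (h1 : RowExt) (h2 : RowPer) (h3 : RowG0) (h4 : RowGen) : RowNorm := by
  intro C S ht hn
  have h0 : C.Gx 0 ≤ S := gx_le h3 fun a ha b hb => by
    obtain ⟨ε₁, p1, q1⟩ := fix_near ha
    obtain ⟨ε₂, p2, q2⟩ := fix_near hb
    obtain ⟨g, hg, d, hd, H⟩ := displace (C := C) h1 h2 (lt_min p1 p2)
    have t1 : g⁻¹ * tr d * g ∈ S := by
      have := hn _ (C.G.inv_mem hg) _ (ht d hd)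
      rwa [inv_inv] at this
    generalize hT : g⁻¹ * tr d * g = t at t1
    have t2 : ∀ x, t⁻¹ x = g⁻¹ (g x - d) := fun x => by
      refine inv_eq_of ?_
      rw [← hT, mul_app, mul_app, apply_inv, tr_app, sub_add_cancel, inv_apply]
    have t3 : t * a * t⁻¹ * b = b * (t * a * t⁻¹) := commute_of fun x => by
      rcases H x with ⟨k, hk⟩ | ⟨k, hk⟩
      · exact Or.inr (q2 x k (hk.trans_le (min_le_right _ _)))
      · refine Or.inl ?_
        rw [← t2] at hk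
        rw [mul_app, mul_app, q1 _ k (hk.trans_le (min_le_left _ _)), apply_inv]
    have s1 : a * t * a⁻¹ * t⁻¹ ∈ S := S.mul_mem (hn a ha.1 t t1) (S.inv_mem t1)
    have e : a * b * a⁻¹ * b⁻¹ =
        (a * t * a⁻¹ * t⁻¹) * (b * (a * t * a⁻¹ * t⁻¹)⁻¹ * b⁻¹) := by
      calc a * b * a⁻¹ * b⁻¹
          = a * (t * a * t⁻¹)⁻¹ * (t * a * t⁻¹ * b) * a⁻¹ * b⁻¹ := by group
        _ = a * (t * a * t⁻¹)⁻¹ * (b * (t * a * t⁻¹)) * a⁻¹ * b⁻¹ := by rw [t3]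
        _ = _ := by group
    rw [e]
    exact S.mul_mem s1 (hn b hb.1 _ (S.inv_mem s1))
  refine h4 C S (ht 1 C.A.one_mem) fun c hc f hf => ?_
  have e : f = tr c * ((tr c)⁻¹ * f * tr c) * (tr c)⁻¹ := by group
  rw [e]
  exact S.mul_mem (S.mul_mem (ht c hc) (h0 (conj_mem hc hf))) (S.inv_mem (ht c hc))

theorem rowOne (h0 : RowGlue) (h1 : RowE) (h2 : RowPer) : RowOne := by
  intro C a ha s hs
  obtain ⟨η, hη, η0, η1⟩ := C.dense (by norm_num : (0 : ℝ) < 1 / 4)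
  obtain ⟨μ, hμ, μ1⟩ := C.exists_small (by norm_num : (0 : ℝ) < 1 / 2)
  have μ0 := C.pos μ hμ
  have hc : a - μ * a ∈ C.A := C.A.sub_mem ha (C.A.mul_mem (C.sub μ hμ) ha)
  rcases hs with rfl | rfl
  · have hi := C.inv μ hμ
    have i1 : 1 < μ⁻¹ := (one_lt_inv₀ μ0).2 (by linarith)
    obtain ⟨k, hk, k1, k2⟩ := h1 C (a + η) (a + η + η) μ⁻¹ (a - μ⁻¹ * a) (C.A.add_mem ha hη)
      (C.A.add_mem (C.A.add_mem ha hη) hη) hi (C.A.sub_mem ha (C.A.mul_mem (C.sub _ hi) ha))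
      (by linarith) (by nlinarith)
    have hα : aff μ μ0 (a - μ * a) ∈ C.P := Ctx.mem_P_of_aff hμ hc (aff_app _ _ _)
    obtain ⟨h, hh, p1, p2⟩ := h0 C 1 (aff μ μ0 (a - μ * a) * k) a C.P.one_mem (C.P.mul_mem hα hk) ha
      (by rw [one_app, mul_app, k1 a (by linarith), aff_app]; ring)
    obtain ⟨g, hg, g1⟩ := h2 C h (a - η) hh (C.A.sub_mem ha hη) (by
      rw [p1 (a - η) (by linarith), one_app, p2 _ (by linarith), mul_app, k2 _ (by linarith),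
        aff_app]
      field_simp
      ring)
    refine ⟨g, hg, η, μ, η0, μ0, μ1.le, fun y y1 y2 => ?_, fun y y1 y2 => ⟨hg, ?_⟩⟩
    · rw [g1 y (by linarith) (by linarith), p2 y (by linarith), mul_app, k1 y (by linarith),
        aff_app]
      ring
    · refine mem_Germ.2 ?_
      filter_upwards [Ioo_mem_nhds (show a - η < y by linarith) (show y < a by linarith)] with x hx
      rw [g1 x hx.1.le (by linarith [hx.2]), p1 x hx.2.le, one_app]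
  · obtain ⟨k, hk, k1, k2⟩ := h1 C (a - η - η) (a - η) μ (a - μ * a)
      (C.A.sub_mem (C.A.sub_mem ha hη) hη) (C.A.sub_mem ha hη) hμ hc (by linarith) (by nlinarith)
    obtain ⟨h, hh, p1, p2⟩ := h0 C k 1 a hk C.P.one_mem ha
      (by rw [one_app, k2 a (by linarith)]; ring)
    obtain ⟨g, hg, g1⟩ := h2 C h (a - η - η) hh (C.A.sub_mem (C.A.sub_mem ha hη) hη) (by
      rw [p1 (a - η - η) (by linarith), k1 _ le_rfl, p2 _ (by linarith), one_app])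
    refine ⟨g, hg, η, μ, η0, μ0, μ1.le, fun y y1 y2 => ?_, fun y y1 y2 => ⟨hg, ?_⟩⟩
    · rw [g1 y (by linarith) (by linarith), p1 y (by linarith), k2 y (by linarith)]
      ring
    · refine mem_Germ.2 ?_
      filter_upwards [Ioo_mem_nhds (show a < y by linarith) (show y < a + η by linarith)] with x hx
      rw [g1 x (by linarith [hx.1]) (by linarith [hx.2]), p2 x hx.1.le, one_app]

end Pool.Agent.MP_3aea93_al.H75
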