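import Pool.Agent.MP_3aea93_al.H75.Defs

/-! The rows. -/

set_option autoImplicit false

namespace Pool.Agent.MP_3aea93_al.H75

open Filter Topology Set

/-- The data attached to a tuple. -/
def RowCtx : Prop := ∀ (k : ℕ) (n : Fin k → ℕ), 2 ≤ k → (∀ i, 1 < n i) →
  LinearIndependent ℤ (fun i => Real.log (n i)) → (Finset.univ.gcd fun i => n i - 1) = 1 →
  ∃ C : Ctx, (C.A : Set ℝ) = ring n ∧ (C.L : Set ℝ) = slopes n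

/-- Finite sets of breakpoints and germs. -/
def RowLit : Prop := ∀ (C : Ctx) (F : ℝ ≃o ℝ), IsPL C.A C.L F ↔ F ∈ C.G

/-- Gluing at a point of `A`. -/
def RowGlue : Prop := ∀ (C : Ctx) (f g : ℝ ≃o ℝ) (c : ℝ), f ∈ C.P → g ∈ C.P → c ∈ C.A →
  f c = g c → ∃ h ∈ C.P, (∀ x, x ≤ c → h x = f x) ∧ ∀ x, c ≤ x → h x = g x

/-- Periodisation. -/
def RowPer : Prop := ∀ (C : Ctx) (f : ℝ ≃o ℝ) (c : ℝ), f ∈ C.P → c ∈ C.A → f (c + 1) = f c + 1 →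
  ∃ g ∈ C.G, ∀ x, c ≤ x → x ≤ c + 1 → g x = f x

/-- From the identity to an affine map. -/
def RowE : Prop := ∀ (C : Ctx) (p q l c : ℝ), p ∈ C.A → q ∈ C.A → l ∈ C.L → c ∈ C.A → p < q →
  p < l * q + c → ∃ k ∈ C.P, (∀ x, x ≤ p → k x = x) ∧ ∀ x, q ≤ x → k x = l * x + c

/-- Extension of an affine map on an interval with support in a larger interval. -/
def RowExt : Prop := ∀ (C : Ctx) (p a b q l c : ℝ), p ∈ C.A → a ∈ C.A → b ∈ C.A → q ∈ C.A →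
  l ∈ C.L → c ∈ C.A → p < a → a ≤ b → b < q → p < l * a + c → l * b + c < q →
  ∃ k ∈ C.P, (∀ x, x ≤ p ∨ q ≤ x → k x = x) ∧ ∀ x, a ≤ x → x ≤ b → k x = l * x + c

/-- The group of compactly supported maps is perfect. -/
def RowPc : Prop := ∀ C : Ctx, C.Pc ≤ ⁅C.Pc, C.Pc⁆

/-- So is the group of the maps supported in the unit interval. -/
def RowH0 : Prop := ∀ C : Ctx, C.H0 ≤ ⁅C.H0, C.H0⁆

/-- So is the group of the periodic maps that are the identity near the origin. -/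
def RowG0 : Prop := ∀ C : Ctx, C.Gx 0 ≤ ⁅C.Gx 0, C.Gx 0⁆

/-- Commuting conjugates. -/
def RowCC : Prop := ∀ (C : Ctx), ∀ a ∈ C.Gx 0, ∀ b ∈ C.Gx 0, ∃ t ∈ C.Gx 0,
  Commute a (t * a * t⁻¹) ∧ Commute a (t * b * t⁻¹) ∧ Commute b (t * a * t⁻¹) ∧
    Commute b (t * b * t⁻¹)

/-- Fragmentation. -/
def RowGen : Prop := ∀ (C : Ctx) (S : Subgroup (ℝ ≃o ℝ)), tr 1 ∈ S → (∀ c ∈ C.A, C.Gx c ≤ S) →
  C.G ≤ S

/-- Two points are enough. -/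
def RowTwo : Prop := ∀ (C : Ctx) (S : Subgroup (ℝ ≃o ℝ)) (x y : ℝ), (∀ k : ℤ, y ≠ x + k) →
  tr 1 ∈ S → C.Gx x ≤ S → C.Gx y ≤ S → C.G ≤ S

/-- The translations generate normally. -/
def RowNorm : Prop := ∀ (C : Ctx) (S : Subgroup (ℝ ≃o ℝ)), (∀ c ∈ C.A, tr c ∈ S) →
  (∀ g ∈ C.G, ∀ s ∈ S, g * s * g⁻¹ ∈ S) → C.G ≤ S

/-- A subgroup that contains the squares is everything. -/
def RowSq : Prop := ∀ (C : Ctx) (S : Subgroup (ℝ ≃o ℝ)), tr 1 ∈ S → (∀ g ∈ C.G, g * g ∈ S) →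
  C.G ≤ S

/-- Perfect groups with commuting conjugates fix a point of the circle. -/
def RowFP : Prop := ∀ (H : Type) [Group H] (ρ : H →* Equiv.Perm UnitAddCircle),
  commutator H = ⊤ →
  (∀ a b : H, ∃ t : H, Commute a (t * a * t⁻¹) ∧ Commute a (t * b * t⁻¹) ∧
    Commute b (t * a * t⁻¹) ∧ Commute b (t * b * t⁻¹)) →
  (∀ h, ∃ F : ℝ → ℝ, Continuous F ∧ Monotone F ∧ (∀ x, F (x + 1) = F x + 1) ∧ IsLift (ρ h) F) →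
  ∃ z, ∀ h, ρ h z = z

/-- The elements that preserve the orientation. -/
def RowLift : Prop := ∀ (H : Type) [Group H] (ρ : H →* Equiv.Perm UnitAddCircle),
  (∀ h, IsC1 (ρ h)) → ∃ O : Subgroup H, (∀ h : H, h * h ∈ O) ∧ (∀ h, ρ h = 1 → h ∈ O) ∧
    ∀ h ∈ O, ∃ φ, Dif φ ∧ IsLift (ρ h) φ

/-- A map of finite order with a fixed point is the identity. -/
def RowTors : Prop := ∀ (f : Equiv.Perm UnitAddCircle) (F : ℝ → ℝ) (j : ℕ) (z : UnitAddCircle),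
  Continuous F → Monotone F → (∀ x, F (x + 1) = F x + 1) → IsLift f F → 0 < j → f ^ j = 1 →
  f z = z → f = 1

/-- Words with bounded slopes have exponentially many end points. -/
def RowMany : Prop := ∀ C : Ctx, ∃ T : Set (ℝ ≃o ℝ), T.Finite ∧ T ⊆ C.G ∧ Many T

/-- One sided contractions. -/
def RowOne : Prop := ∀ (C : Ctx), ∀ a ∈ C.A, ∀ s : ℝ, s = 1 ∨ s = -1 → ∃ g ∈ C.G, ∃ η μ : ℝ,
  0 < η ∧ 0 < μ ∧ μ ≤ 1 / 2 ∧ (∀ y, 0 ≤ s * (y - a) → s * (y - a) ≤ η → g y = a + μ * (y - a)) ∧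
    ∀ y, -η < s * (y - a) → s * (y - a) < 0 → g ∈ C.Gx y

/-- The C1 argument. -/
def RowC1 : Prop := ∀ (R : ℝ → ℝ → Prop) (D : Set ℝ) (T : Set (ℝ ≃o ℝ)),
  IsClosed {p : ℝ × ℝ | R p.1 p.2} → (∀ ξ x (k : ℤ), R ξ x → R (ξ + k) x) →
  (∀ ξ x (k : ℤ), R ξ x → R ξ (x + k)) → (∀ ξ x y, R ξ x → R ξ y → ∃ k : ℤ, y = x + k) →
  (∀ x y : ℝ, x < y → ∃ a ∈ D, x < a ∧ a < y) → (∀ a ∈ D, ∃ ξ, R ξ a) →
  T.Finite → Many T → (∀ g ∈ T, ∃ φ, Mv R φ g) →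
  (∀ a ∈ D, ∀ s : ℝ, s = 1 ∨ s = -1 → ∃ φ g, Mv R φ g ∧ ∃ η μ : ℝ, 0 < η ∧ 0 < μ ∧ μ ≤ 1 / 2 ∧
    (∀ y, 0 ≤ s * (y - a) → s * (y - a) ≤ η → g y = a + μ * (y - a)) ∧
    ∀ ξ y, R ξ y → -η < s * (y - a) → s * (y - a) < 0 → ∃ k : ℤ, φ ξ = ξ + k) →
  False

/-- The theorem for lifts. -/
def RowMain : Prop := ∀ (C : Ctx) (ρ : C.G →* Equiv.Perm UnitAddCircle),
  (∀ g : C.G, (g : ℝ ≃o ℝ) = tr 1 → ρ g = 1) → (∀ g, IsC1 (ρ g)) → ∀ g, ρ g = 1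

end Pool.Agent.MP_3aea93_al.H75
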