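import Mathlib

/-! Thompson-Stein groups and actions on the circle by maps of class C1: the definitions used in
the statement. -/

set_option autoImplicit false

namespace Pool.Agent.MP_3aea93_al.H75

open Filter Topology

/-- the ring `Z[1/m]`, where `m` is the least common multiple of the `n i` -/
def ring {k : ℕ} (n : Fin k → ℕ) : Set ℝ :=
  {x | ∃ (j : ℕ) (z : ℤ), x = z / ((Finset.univ.lcm n : ℕ) : ℝ) ^ j}

/-- the multiplicative group generated by the `n i` -/
def slopes {k : ℕ} (n : Fin k → ℕ) : Set ℝ := {l | ∃ e : Fin k → ℤ, l = ∏ i, (n i : ℝ) ^ e i}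

/-- `F` is a lift to the line of the map `f` of the circle `R/Z` -/
def IsLift (f : Equiv.Perm UnitAddCircle) (F : ℝ → ℝ) : Prop :=
  ∀ x : ℝ, f (x : UnitAddCircle) = ((F x : ℝ) : UnitAddCircle)

/-- `F` is an increasing homeomorphism of the line that commutes with `x + 1`, preserves `A`,
and is affine with slope in `L` near every point outside `B + Z`, for a finite subset `B`
of `A` -/
def IsPL (A L : Set ℝ) (F : ℝ ≃o ℝ) : Prop :=
  (∀ x, F (x + 1) = F x + 1) ∧ (∀ x, F x ∈ A ↔ x ∈ A) ∧
    ∃ B : Finset ℝ, (∀ b ∈ B, b ∈ A) ∧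
      ∀ x, Int.fract x ∉ B → ∃ l ∈ L, ∃ c : ℝ, ∀ᶠ y in 𝓝 x, F y = l * y + c

/-- the Thompson-Stein group: the piecewise linear homeomorphisms of the circle with finitely
many breakpoints, all in `ring n`, slopes in `slopes n`, that preserve `ring n` modulo one
(these maps form a group, so the closure adds nothing) -/
def TS {k : ℕ} (n : Fin k → ℕ) : Subgroup (Equiv.Perm UnitAddCircle) :=
  Subgroup.closure {f | ∃ F : ℝ ≃o ℝ, IsPL (ring n) (slopes n) F ∧ IsLift f F}

/-- maps of the circle of class C1 -/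
def IsC1 (f : Equiv.Perm UnitAddCircle) : Prop := ∃ F : ℝ → ℝ, ContDiff ℝ 1 F ∧ IsLift f F

end Pool.Agent.MP_3aea93_al.H75
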